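import Pool.Agent.H683.FF.Rooted

/-!
# Every tree is a rooted tree
-/

set_option autoImplicit false

namespace Pool.Agent.H683.FF

variable {V : Type} {G : SimpleGraph V}

theorem exists_parent (hG : G.IsTree) (s v : V) (hv : v ≠ s) :
    ∃ p, G.Adj p v ∧ G.dist s v = G.dist s p + 1 ∧
      ∀ w, G.Adj w v → G.dist s v = G.dist s w + 1 → w = p := by
  obtain ⟨q, hq, hql⟩ := hG.connected.exists_path_of_dist s v
  have hnil : ¬ q.Nil := SimpleGraph.Walk.not_nil_of_ne hv.symm
  have hadj : G.Adj q.penultimate v := q.adj_penultimate hnil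
  refine ⟨q.penultimate, hadj, ?_, ?_⟩
  · have h1 : G.dist s q.penultimate ≤ q.dropLast.length := SimpleGraph.dist_le _
    have h2 : q.dropLast.length + 1 = q.length := q.length_dropLast_add_one hnil
    rcases hG.dist_eq_dist_add_one_of_adj s hadj with h | h
    · omega
    · exact h
  · intro w hw hd
    obtain ⟨p, hp, hpl⟩ := hG.connected.exists_path_of_dist s w
    have hvp : v ∉ p.support := by
      classical
      intro h
      have h1 : G.dist s v ≤ (p.takeUntil v h).length := SimpleGraph.dist_le _
      have h2 := p.length_takeUntil_le_length h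
      omega
    exact hG.isAcyclic.eq_penultimate_of_adj_end hq hw.symm
      (hG.isAcyclic.mem_support_of_ne_mem_support_of_adj_of_isPath hq hp hw.symm hvp)

open Classical in
/-- Every tree is a rooted tree. -/
theorem exists_rooted (hG : G.IsTree) (s : V) : ∃ par lev, Rooted G s par lev := by
  have h : ∀ v, ∃ p, v ≠ s → G.Adj p v ∧ G.dist s v = G.dist s p + 1 ∧
      ∀ w, G.Adj w v → G.dist s v = G.dist s w + 1 → w = p := by
    intro v
    by_cases hv : v = s
    · exact ⟨v, fun h => absurd hv h⟩
    · obtain ⟨p, hp⟩ := exists_parent hG s v hv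
      exact ⟨p, fun _ => hp⟩
  choose par hpar using h
  refine ⟨par, fun v => G.dist s v, SimpleGraph.dist_self, ?_, ?_, ?_⟩
  · intro v hv
    exact (hG.connected.dist_eq_zero_iff.1 hv).symm
  · intro v hv
    exact (hpar v hv).2.1
  · intro u v
    have hne : ∀ a b, G.dist s a = G.dist s b + 1 → a ≠ s := by
      rintro a b h rfl
      rw [SimpleGraph.dist_self] at h
      omega
    constructor
    · intro h
      rcases hG.dist_eq_dist_add_one_of_adj s h with h1 | h1
      · exact Or.inr ⟨hne _ _ h1, (hpar u (hne _ _ h1)).2.2 v h.symm h1⟩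
      · exact Or.inl ⟨hne _ _ h1, (hpar v (hne _ _ h1)).2.2 u h h1⟩
    · rintro (⟨h1, rfl⟩ | ⟨h1, rfl⟩)
      · exact (hpar v h1).1
      · exact (hpar u h1).1.symm

end Pool.Agent.H683.FF
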