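import Pool.Agent.H683.FF.Dp
import Pool.Agent.H683.FF.TreeRooted

/-!
# The algorithm for Saving `k` Vertices
-/

set_option autoImplicit false

namespace Pool.Agent.H683.FF

open Pool.Agent.NPC Pool.Agent.H633R2

/-- `min n (√k) + 1`. -/
def rr (x : List (List Bool) × ℕ × ℕ) : ℕ :=
  ((List.range (x.1.length + 1)).filter (fun i => decide (i * i ≤ x.2.2))).length

theorem rr_eq (x : List (List Bool) × ℕ × ℕ) : rr x = min x.1.length (Nat.sqrt x.2.2) + 1 := by
  unfold rr
  have h1 : ((List.range (x.1.length + 1)).filter (fun i => decide (i * i ≤ x.2.2))).Perm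
      (List.range (min x.1.length (Nat.sqrt x.2.2) + 1)) := by
    rw [List.perm_ext_iff_of_nodup (List.nodup_range.filter _) List.nodup_range]
    intro i
    rw [List.mem_filter, List.mem_range, List.mem_range, decide_eq_true_iff, ← Nat.le_sqrt]
    omega
  rw [h1.length_eq, List.length_range]

/-- The number of levels in which vertices are protected. -/
def mm (x : List (List Bool) × ℕ × ℕ) : ℕ := 2 * rr x

/-- The algorithm. -/
def decA (x : List (List Bool) × ℕ × ℕ) : Bool :=
  decide (x.2.1 < x.1.length) &&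
    (dp (mm x) ((dfs x.1 x.2.1).map Prod.snd)).any (fun t => decide (x.2.2 ≤ t.2.2))

theorem decA_iff {x : List (List Bool) × ℕ × ℕ} (hx : IsTreeWith x.1 x.2.1) :
    decA x = true ↔ SavingK x := by
  classical
  obtain ⟨hT, hs⟩ := hx
  obtain ⟨par, lev, hR⟩ := exists_rooted hT ⟨x.2.1, hs⟩
  obtain ⟨O, hO1, hO2, hO3, hO4, hO5, hO6⟩ := dfs_spec hR
  have hlev : (dfs x.1 x.2.1).map Prod.snd = O.map lev := by
    rw [hO1, List.map_map]
    rfl
  have hlen : O.length = x.1.length := by
    have h1 : O.toFinset = Finset.univ := by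
      ext v
      simp [hO3 v]
    have h2 := List.toFinset_card_of_nodup hO2
    rw [h1, Finset.card_univ, Fintype.card_fin] at h2
    exact h2.symm
  unfold decA
  rw [Bool.and_eq_true, decide_eq_true_iff, List.any_eq_true, hlev]
  constructor
  · rintro ⟨_, ⟨c, X, W⟩, ht, hW⟩
    have hW' : x.2.2 ≤ W := by simpa using hW
    obtain ⟨B, hB⟩ := dp_sound hR O hO6 hO4 hO5 hO2 c X W ht
    have hN : Normal ⟨x.2.1, hs⟩ par lev B := by
      refine ⟨hB.root, hB.closed, ?_⟩
      intro u v hu hv hpu hpv hl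
      exact hB.uniq u (hO3 u) v (hO3 v) hu hv hpu hpv hl
    obtain ⟨σ, h1, _, h3, _⟩ := hR.exists_strategy hN
    refine ⟨hs, σ, h1, ?_⟩
    have h4 := Set.ncard_add_ncard_compl B
    rw [Nat.card_eq_fintype_card, Fintype.card_fin] at h4
    have h5 := hB.count
    rw [h3]
    omega
  · rintro ⟨_, σ, h1, h2⟩
    obtain ⟨B₀, hB₀, hsub⟩ := hR.exists_normal σ
    have hk : x.2.2 ≤ B₀ᶜ.ncard := by
      refine h2.trans (Set.ncard_le_ncard ?_ (Set.toFinite _))
      intro v hv hv'
      obtain ⟨t, ht⟩ := hsub hv'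
      exact hv t ht
    have hkn : x.2.2 ≤ x.1.length := by
      refine hk.trans ?_
      have := Set.ncard_le_ncard (Set.subset_univ B₀ᶜ) (Set.toFinite _)
      rwa [Set.ncard_univ, Nat.card_eq_fintype_card, Fintype.card_fin] at this
    have hm : 2 * x.2.2 ≤ mm x * (mm x + 1) := by
      have h3 : Nat.sqrt x.2.2 ≤ x.2.2 := Nat.sqrt_le_self _
      have h4 : rr x = Nat.sqrt x.2.2 + 1 := by
        rw [rr_eq]
        omega
      have h5 : x.2.2 < (Nat.sqrt x.2.2 + 1) * (Nat.sqrt x.2.2 + 1) := Nat.lt_succ_sqrt _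
      unfold mm
      rw [h4]
      nlinarith
    obtain ⟨B, hB, hBm, hBk⟩ := exists_short hR hB₀ hk hm
    obtain ⟨c, X, W, h3, _, _, h6, _⟩ := dp_complete hR hB hBm O hO6 hO4 hO5 hO2
    refine ⟨hs, (c, X, W), h3, ?_⟩
    have h7 : Bᶜ.ncard = W := by
      rw [h6]
      have h8 : Bᶜ = ((O.filter (fun v => decide (v ∉ B))).toFinset : Set (Fin x.1.length)) := by
        ext v
        simp [hO3 v]
      rw [h8, Set.ncard_coe_finset, List.toFinset_card_of_nodup (hO2.filter _)]
    rw [h7] at hBk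
    simpa using hBk

end Pool.Agent.H683.FF
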