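import Pool.Agent.H683.FF.Core

/-!
# The reduction: from a solution to a small burned set
-/

set_option autoImplicit false

namespace Pool.Agent.H683.FF

namespace Data

variable (d : Data) (y : ℕ → List Bool)

/-- The burned set of a solution. -/
def burn : Set (List ℕ) :=
  {v | v = [] ∨ ∃ p < d.W, ∃ e, ∃ t ≤ d.D, v = pth d.b p (y p) e t}

/-- The word that is protected, given its length. -/
def cw : ℕ → List ℕ
  | 0 => []
  | 1 => [d.W]
  | t + 2 =>
    if t < 2 * (d.b * d.W) then
      (if t % 2 = 0 then
        bl (!(y (t / 2 / d.b)).getD (t / 2 % d.b) false) ::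
          pth d.b (t / 2 / d.b) (y (t / 2 / d.b)) false t
      else 2 :: pth d.b (t / 2 / d.b) (y (t / 2 / d.b)) false t)
    else
      (if (y ((d.ts.getD ((t - 2 * (d.b * d.W)) / 4) (0, 0)).1 / d.b)).getD
          ((d.ts.getD ((t - 2 * (d.b * d.W)) / 4) (0, 0)).1 % d.b) false =
          decide ((t - 2 * (d.b * d.W)) % 4 = 1 ∨ (t - 2 * (d.b * d.W)) % 4 = 2) then
        2 :: pth d.b ((d.ts.getD ((t - 2 * (d.b * d.W)) / 4) (0, 0)).1 / d.b)
          (y ((d.ts.getD ((t - 2 * (d.b * d.W)) / 4) (0, 0)).1 / d.b))
          (decide (2 ≤ (t - 2 * (d.b * d.W)) % 4)) t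
      else
        2 :: pth d.b ((d.ts.getD ((t - 2 * (d.b * d.W)) / 4) (0, 0)).2 / d.b)
          (y ((d.ts.getD ((t - 2 * (d.b * d.W)) / 4) (0, 0)).2 / d.b))
          (decide (2 ≤ (t - 2 * (d.b * d.W)) % 4)) t)

theorem cw_add_two (t : ℕ) : cw d y (t + 2) =
    if t < 2 * (d.b * d.W) then
      (if t % 2 = 0 then
        bl (!(y (t / 2 / d.b)).getD (t / 2 % d.b) false) ::
          pth d.b (t / 2 / d.b) (y (t / 2 / d.b)) false t
      else 2 :: pth d.b (t / 2 / d.b) (y (t / 2 / d.b)) false t)
    else
      (if (y ((d.ts.getD ((t - 2 * (d.b * d.W)) / 4) (0, 0)).1 / d.b)).getD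
          ((d.ts.getD ((t - 2 * (d.b * d.W)) / 4) (0, 0)).1 % d.b) false =
          decide ((t - 2 * (d.b * d.W)) % 4 = 1 ∨ (t - 2 * (d.b * d.W)) % 4 = 2) then
        2 :: pth d.b ((d.ts.getD ((t - 2 * (d.b * d.W)) / 4) (0, 0)).1 / d.b)
          (y ((d.ts.getD ((t - 2 * (d.b * d.W)) / 4) (0, 0)).1 / d.b))
          (decide (2 ≤ (t - 2 * (d.b * d.W)) % 4)) t
      else
        2 :: pth d.b ((d.ts.getD ((t - 2 * (d.b * d.W)) / 4) (0, 0)).2 / d.b)
          (y ((d.ts.getD ((t - 2 * (d.b * d.W)) / 4) (0, 0)).2 / d.b))
          (decide (2 ≤ (t - 2 * (d.b * d.W)) % 4)) t) := rfl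

variable {d y}

theorem pth_mem_burn {p : ℕ} (hp : p < d.W) (e : Bool) {t : ℕ} (ht : t ≤ d.D) :
    pth d.b p (y p) e t ∈ d.burn y := Or.inr ⟨p, hp, e, t, ht, rfl⟩

/-- A main word in the burned set. -/
theorem of_mem_burn {p : ℕ} {z : List Bool} {e : Bool} {t : ℕ}
    (h : pth d.b p z e t ∈ d.burn y) : ∃ e', pth d.b p z e t = pth d.b p (y p) e' t := by
  rcases h with h | ⟨p', _, e', t', _, h⟩
  · exact absurd h (pth_ne_nil _ _ _ _ _)
  · have h1 := pth_len_inj h
    subst h1
    have h2 := (pth_inj h).1
    subst h2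
    exact ⟨e', h⟩

/-- A word of length at least two in the burned set starts with a letter `0` or `1`. -/
theorem head_lt {a c : ℕ} {w : List ℕ} (h : a :: c :: w ∈ d.burn y) : a < 2 := by
  rcases h with h | ⟨p', _, e', t', _, h⟩
  · simp at h
  · cases t' with
    | zero => simp [pth] at h
    | succ t =>
      simp only [pth, List.cons.injEq] at h
      rw [h.1]
      exact ltr_lt _ _ _ _ _

theorem head_lt' {a t : ℕ} {p : ℕ} {z : List Bool} {e : Bool}
    (h : a :: pth d.b p z e t ∈ d.burn y) : a < 2 := by
  cases t with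
  | zero => exact head_lt h
  | succ t => exact head_lt h

theorem fork_lt {p : ℕ} (hp : p < d.W) : 2 * (d.b * p + (d.b - 1)) + 1 < 2 * (d.b * d.W) := by
  have hb := d.hb
  have h1 : d.b * (p + 1) ≤ d.b * d.W := Nat.mul_le_mul_left _ hp
  rw [Nat.mul_add] at h1
  omega

/-- Before the fork the spine does not matter. -/
theorem spine_irrel {t : ℕ} (z : List Bool) (e e' : Bool) {m : ℕ} (hm : t ≤ 2 * m + 1) :
    pth d.b (m / d.b) z e t = pth d.b (m / d.b) z e' t := by
  have hb := d.hb
  refine pth_congr (fun _ _ _ _ => rfl) fun h => ?_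
  exfalso
  have h1 := Nat.div_add_mod m d.b
  have h2 := Nat.mod_lt m hb
  omega

/-- After all the choices the word determines the choice. -/
theorem eq_choice (hy : ∀ p, (y p).length = d.b) {p : ℕ} {z : List Bool} {e e' : Bool} {t : ℕ}
    (hz : z.length = d.b) (ht : 2 * (d.b * p + (d.b - 1)) < t)
    (h : pth d.b p z e t = pth d.b p (y p) e' t) : z = y p := by
  have hb := d.hb
  have h2 := (pth_inj h).2.1
  refine List.ext_getElem (hz.trans (hy p).symm) fun c h3 h4 => ?_
  have h5 : c < d.b := by omega
  have h6 : 2 * (d.b * p + c) / 2 = d.b * p + c := Nat.mul_div_cancel_left _ (by norm_num)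
  have h7 : (d.b * p + c) / d.b = p := by
    rw [Nat.mul_add_div hb, Nat.div_eq_of_lt h5, Nat.add_zero]
  have h8 : (d.b * p + c) % d.b = c := by
    rw [Nat.mul_add_mod, Nat.mod_eq_of_lt h5]
  have h9 := h2 (2 * (d.b * p + c)) (by omega) (by omega) (by rw [h6, h7])
  rw [h6, h8, List.getD_eq_getElem _ _ h3, List.getD_eq_getElem _ _ h4] at h9
  exact h9

theorem cut_eq (hS : d.Sol y) {u : List ℕ} (hu : d.InT u) (hn : u ∉ d.burn y)
    (ht : u.tail ∈ d.burn y) : u = d.cw y u.length := by
  obtain ⟨hy, hok, hts⟩ := hS
  have hb := d.hb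
  cases hu with
  | nil => exact absurd (Or.inl rfl) hn
  | rc => rfl
  | rl z hz =>
    exfalso
    simp only [List.tail_cons] at ht
    rcases ht with h | ⟨p', h1, e', t', _, h⟩
    · simp at h
    · have h2 := congrArg List.length h
      rw [pth_length] at h2
      cases t' with
      | zero =>
        simp only [pth, List.cons.injEq, and_true] at h
        omega
      | succ t => simp at h2
  | main p z e t hp hz htD =>
    cases t with
    | zero => exact absurd (pth_mem_burn (y := y) hp false (Nat.zero_le _)) hn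
    | succ t =>
      rw [pth_tail] at ht
      obtain ⟨e', h⟩ := of_mem_burn ht
      rw [pth_length]
      by_cases h1 : t % 2 = 0 ∧ t / 2 / d.b = p
      · have h2 : t < 2 * (d.b * d.W) := by
          have h3 : t / 2 < d.W * d.b := (Nat.div_lt_iff_lt_mul hb).1 (by omega)
          rw [Nat.mul_comm] at h3
          omega
        have h4 : pth d.b p z e t = pth d.b p (y p) false t := by
          rw [h]
          obtain ⟨_, h5⟩ := h1
          rw [← h5]
          exact spine_irrel _ _ _ (by omega)
        by_cases h5 : z.getD (t / 2 % d.b) false = (y p).getD (t / 2 % d.b) false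
        · exfalso
          apply hn
          have h6 : pth d.b p z e (t + 1) = pth d.b p (y p) false (t + 1) := by
            simp only [pth]
            rw [h4]
            unfold ltr
            rw [if_pos h1, if_pos h1, h5]
          rw [h6]
          exact pth_mem_burn hp _ htD
        · change _ = cw d y (t + 2)
          rw [cw_add_two, if_pos h2, if_pos h1.1, h1.2]
          simp only [pth]
          rw [h4]
          unfold ltr
          rw [if_pos h1]
          congr 2
          revert h5
          cases z.getD (t / 2 % d.b) false <;> cases (y p).getD (t / 2 % d.b) false <;> simp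
      · exfalso
        apply hn
        by_cases h2 : t = 2 * (d.b * p + (d.b - 1)) + 1
        · have h6 : pth d.b p z e (t + 1) = pth d.b p (y p) e (t + 1) := by
            have h7 : pth d.b p (y p) e' t = pth d.b p (y p) e t :=
              pth_congr (fun _ _ _ _ => rfl) fun h8 => by omega
            simp only [pth]
            rw [h, h7]
            unfold ltr
            rw [if_neg h1, if_neg h1]
          rw [h6]
          exact pth_mem_burn hp _ htD
        · have h6 : pth d.b p z e (t + 1) = pth d.b p (y p) e' (t + 1) := by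
            simp only [pth]
            rw [h]
            unfold ltr
            rw [if_neg h1, if_neg h1, if_neg h2, if_neg h2]
          rw [h6]
          exact pth_mem_burn hp _ htD
  | c2 p z e t hp hz htD hneed =>
    simp only [List.tail_cons] at ht
    obtain ⟨e', h⟩ := of_mem_burn ht
    simp only [List.length_cons]
    rw [pth_length]
    change _ = cw d y (t + 2)
    unfold need at hneed
    rw [cw_add_two]
    by_cases h1 : t < 2 * (d.b * d.W)
    · rw [if_pos h1, decide_eq_true_iff] at hneed
      rw [if_pos h1, if_neg (by omega), h]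
      obtain ⟨h2, h3⟩ := hneed
      subst h3
      congr 1
      exact spine_irrel _ _ _ (by omega)
    · rw [if_neg h1, decide_eq_true_iff] at hneed
      rw [if_neg h1]
      have hf := fork_lt (d := d) hp
      have h2 := eq_choice hy hz (by omega) h
      have h3 : e = e' := (pth_inj h).2.2 (by omega)
      subst h3
      subst h2
      have hτ : (t - 2 * (d.b * d.W)) / 4 < d.ts.length := by
        unfold D at htD
        omega
      generalize hr : (t - 2 * (d.b * d.W)) % 4 = r at *
      have hq := hts (d.ts.getD ((t - 2 * (d.b * d.W)) / 4) (0, 0)) (by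
        rw [List.getD_eq_getElem _ _ hτ]
        exact List.getElem_mem _)
      generalize d.ts.getD ((t - 2 * (d.b * d.W)) / 4) (0, 0) = q at *
      rcases hneed with ⟨h4, h5, h6⟩ | ⟨h4, h5, h6⟩
      · rw [← h4] at h6 ⊢
        rw [if_pos h6, ← h5]
      · rw [← h4] at h6 ⊢
        rw [if_neg (by
          rw [hq, h6]
          cases decide (r = 1 ∨ r = 2) <;> simp), ← h5]
  | l2 z₁ p z e t hz₁ hp hz htD hneed =>
    exfalso
    have := head_lt' ht
    omega
  | c3 p z e t hp hz htD hneed =>
    exfalso
    simp only [List.tail_cons] at ht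
    obtain ⟨e', h⟩ := of_mem_burn ht
    unfold need2 at hneed
    simp only [Bool.and_eq_true, decide_eq_true_eq, Bool.not_eq_true'] at hneed
    have h2 := eq_choice hy hz (by omega) h
    rw [h2, hok p hp] at hneed
    simp at hneed
  | l3 z₁ p z e t hz₁ hp hz htD hneed =>
    exfalso
    have := head_lt' ht
    omega

theorem burn_ncard (d : Data) (y : ℕ → List Bool) :
    (d.burn y).ncard ≤ 1 + 2 * d.W * (d.D + 1) := by
  classical
  set F : Finset (List ℕ) := insert [] ((Finset.range d.W ×ˢ (Finset.univ : Finset Bool) ×ˢ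
    Finset.range (d.D + 1)).image fun q => pth d.b q.1 (y q.1) q.2.1 q.2.2) with hF
  have h : d.burn y ⊆ (F : Set (List ℕ)) := by
    rintro v (h | ⟨p, hp, e, t, ht, h⟩)
    · rw [h, hF]
      simp
    · rw [hF]
      simp only [Finset.coe_insert, Finset.coe_image]
      refine Or.inr ⟨(p, e, t), ?_, h.symm⟩
      simp only [Finset.coe_product, Set.mem_prod, Finset.mem_coe, Finset.mem_range,
        Finset.mem_univ, true_and]
      exact ⟨hp, by omega⟩
  refine (Set.ncard_le_ncard h (Finset.finite_toSet F)).trans ?_
  rw [Set.ncard_coe_finset]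
  refine (Finset.card_insert_le _ _).trans ?_
  have := Finset.card_image_le (s := Finset.range d.W ×ˢ (Finset.univ : Finset Bool) ×ˢ
    Finset.range (d.D + 1)) (f := fun q => pth d.b q.1 (y q.1) q.2.1 q.2.2)
  simp only [Finset.card_product, Finset.card_range, Finset.card_univ, Fintype.card_bool] at this
  nlinarith

theorem wnormal_burn {L : List (List ℕ)} (hmem : ∀ v, v ∈ L ↔ d.InT v) (hS : d.Sol y) :
    WNormal L (d.burn y) := by
  refine ⟨?_, Or.inl rfl, ?_, ?_⟩
  · rintro v (h | ⟨p, hp, e, t, ht, h⟩)
    · rw [h, hmem]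
      exact InT.nil
    · rw [h, hmem]
      exact InT.main p _ e t hp (hS.1 p) ht
  · rintro v (h | ⟨p, hp, e, t, ht, h⟩)
    · rw [h]
      exact Or.inl rfl
    · rw [h]
      cases t with
      | zero => exact Or.inl rfl
      | succ t => exact pth_mem_burn hp e (by omega)
  · intro u hu v hv h1 h2 h3 h4 h5
    rw [cut_eq hS ((hmem u).1 hu) h1 h3, cut_eq hS ((hmem v).1 hv) h2 h4, h5]

theorem cut_length {u : List ℕ} (hu : d.InT u) (hn : u ∉ d.burn y)
    (ht : u.tail ∈ d.burn y) : u.length ≤ d.D + 1 := by
  cases hu with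
  | nil => simp
  | rc => simp
  | rl z hz =>
    exfalso
    simp only [List.tail_cons] at ht
    rcases ht with h | ⟨p', h1, e', t', _, h⟩
    · simp at h
    · have h2 := congrArg List.length h
      rw [pth_length] at h2
      cases t' with
      | zero =>
        simp only [pth, List.cons.injEq, and_true] at h
        omega
      | succ t => simp at h2
  | main p z e t hp hz htD => rw [pth_length]; omega
  | c2 p z e t hp hz htD hneed => simp only [List.length_cons]; rw [pth_length]; omega
  | l2 z₁ p z e t hz₁ hp hz htD hneed =>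
    exfalso
    have := head_lt' ht
    omega
  | c3 p z e t hp hz htD hneed => simp only [List.length_cons]; rw [pth_length]; omega
  | l3 z₁ p z e t hz₁ hp hz htD hneed =>
    exfalso
    have := head_lt' ht
    omega

end Data

end Pool.Agent.H683.FF
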