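import Pool.Agent.H683.FF.CoreA
import Pool.Agent.H683.FF.CoreB
import Pool.Graph.R_seed8.NPC.Num

/-!
# The reduction from Clique
-/

set_option autoImplicit false

namespace Pool.Agent.H683.FF

open Pool.Agent.NPC Pool.Agent.H633R2

/-! ### Words of bits -/

/-- All words of bits of a given length. -/
def allW : ℕ → List (List Bool)
  | 0 => [[]]
  | n + 1 => (allW n).flatMap fun L => [false :: L, true :: L]

theorem mem_allW : ∀ {n : ℕ} {y : List Bool}, y ∈ allW n ↔ y.length = n
  | 0, y => by simp [allW]
  | n + 1, y => by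
    simp only [allW, List.mem_flatMap, List.mem_cons, List.not_mem_nil, or_false]
    constructor
    · rintro ⟨L, hL, rfl | rfl⟩ <;> simp [mem_allW.1 hL]
    · intro h
      cases y with
      | nil => simp at h
      | cons a L =>
        refine ⟨L, mem_allW.2 (by simpa using h), ?_⟩
        cases a <;> simp

theorem allW_length : ∀ n : ℕ, (allW n).length = 2 ^ n
  | 0 => rfl
  | n + 1 => by
    rw [allW, List.length_flatMap]
    simp only [List.length_cons, List.length_nil, List.map_const', List.sum_replicate,
      allW_length n, smul_eq_mul, pow_succ]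

/-- The number written in a word. -/
theorem valB_bitsOf (β u : ℕ) :
    valB (u.bits ++ List.replicate (β - u.bits.length) false) = u := by
  rw [valB_append, valB_bits]
  have h1 : ∀ n : ℕ, valB (List.replicate n false) = 0 := by
    intro n
    induction n with
    | zero => rfl
    | succ n ih => simp [List.replicate_succ, ih]
  rw [h1]
  simp

/-- The first half of a word of `2 * β` bits. -/
def ub (β : ℕ) (y : List Bool) : List Bool := (List.range β).map fun c => y.getD c false

/-- The second half of a word of `2 * β` bits. -/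
def vb (β : ℕ) (y : List Bool) : List Bool := (List.range β).map fun c => y.getD (β + c) false

theorem ub_append {β : ℕ} {a c : List Bool} (h : a.length = β) : ub β (a ++ c) = a := by
  unfold ub
  refine List.ext_getElem (by simp [h]) fun i h1 h2 => ?_
  simp only [List.getElem_map, List.getElem_range]
  rw [List.getD_eq_getElem _ _ (by rw [List.length_append]; omega), List.getElem_append_left h2]

theorem vb_append {β : ℕ} {a c : List Bool} (h : a.length = β) (h' : c.length = β) :
    vb β (a ++ c) = c := by
  unfold vb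
  refine List.ext_getElem (by simp [h']) fun i h1 h2 => ?_
  simp only [List.getElem_map, List.getElem_range]
  rw [List.getD_eq_getElem _ _ (by rw [List.length_append]; omega),
    List.getElem_append_right (by omega)]
  congr 1
  omega

/-! ### The data -/

/-- The size of the clique (truncated). -/
def gg (x : List (List Bool) × ℕ) : ℕ := min x.2 (x.1.length + 1)

/-- The number of bits for a vertex. -/
def be (x : List (List Bool) × ℕ) : ℕ := x.1.length.bits.length + 1

/-- The condition on the choice `y` of the walker `p`. -/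
def okB (x : List (List Bool) × ℕ) (p : ℕ) (y : List Bool) : Bool :=
  decide (valB (ub (be x) y) < x.1.length) && (decide (valB (vb (be x) y) < x.1.length) &&
    (if p / gg x = p % gg x then decide (valB (ub (be x) y) = valB (vb (be x) y))
    else (!decide (valB (ub (be x) y) = valB (vb (be x) y))) &&
      (entry x.1 (valB (ub (be x) y)) (valB (vb (be x) y)) ||
        entry x.1 (valB (vb (be x) y)) (valB (ub (be x) y)))))

/-- The tests. -/
def tsts (x : List (List Bool) × ℕ) : List (ℕ × ℕ) :=
  (List.range (gg x)).flatMap fun i => (List.range (gg x)).flatMap fun j =>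
    if i = j then [] else (List.range (be x)).flatMap fun c =>
      [((2 * be x) * (gg x * i + j) + c, (2 * be x) * (gg x * i + i) + c),
        ((2 * be x) * (gg x * i + j) + (be x + c), (2 * be x) * (gg x * j + j) + c)]

theorem be_pos (x : List (List Bool) × ℕ) : 0 < be x := Nat.succ_pos _

theorem mem_tsts {x : List (List Bool) × ℕ} {q : ℕ × ℕ} : q ∈ tsts x ↔
    ∃ i < gg x, ∃ j < gg x, i ≠ j ∧ ∃ c < be x,
      (q = ((2 * be x) * (gg x * i + j) + c, (2 * be x) * (gg x * i + i) + c) ∨
      q = ((2 * be x) * (gg x * i + j) + (be x + c), (2 * be x) * (gg x * j + j) + c)) := by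
  unfold tsts
  simp only [List.mem_flatMap, List.mem_range]
  refine exists_congr fun i => and_congr_right fun _ => exists_congr fun j =>
    and_congr_right fun _ => ?_
  by_cases h : i = j
  · simp [h]
  · simp [h]

theorem idx_lt {b W p c : ℕ} (hp : p < W) (hc : c < b) : b * p + c < b * W := by
  have := Nat.mul_le_mul_left b (Nat.succ_le_of_lt hp)
  rw [Nat.succ_eq_add_one, Nat.mul_add] at this
  omega

theorem idx_div {b p c : ℕ} (hc : c < b) : (b * p + c) / b = p := by
  rw [Nat.mul_add_div (by omega), Nat.div_eq_of_lt hc, Nat.add_zero]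

theorem idx_mod {b p c : ℕ} (hc : c < b) : (b * p + c) % b = c := by
  rw [Nat.mul_add_mod, Nat.mod_eq_of_lt hc]

/-- The upper bound for the number of burned vertices. -/
def kk (x : List (List Bool) × ℕ) : ℕ :=
  1 + 2 * (gg x * gg x) * (2 * (2 * be x * (gg x * gg x)) + 4 * (tsts x).length + 1)

/-- The data of the tree. -/
def dat (x : List (List Bool) × ℕ) : Data where
  b := 2 * be x
  W := gg x * gg x
  ts := tsts x
  ok := okB x
  Y := kk x + 1
  hb := by have := be_pos x; omega
  hts := by
    intro q hq
    obtain ⟨i, hi, j, hj, hij, c, hc, h⟩ := mem_tsts.1 hq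
    have h1 : gg x * i + j < gg x * gg x := idx_lt hi hj
    have h2 : gg x * i + i < gg x * gg x := idx_lt hi hi
    have h3 : gg x * j + j < gg x * gg x := idx_lt hj hj
    rcases h with rfl | rfl
    · refine ⟨idx_lt h1 (by omega), idx_lt h2 (by omega), ?_⟩
      simp only
      rw [idx_div (by omega), idx_div (by omega)]
      omega
    · refine ⟨idx_lt h1 (by omega), idx_lt h3 (by omega), ?_⟩
      simp only
      rw [idx_div (by omega), idx_div (by omega)]
      intro h
      have h4 : (gg x * i + j) / gg x = (gg x * j + j) / gg x := congrArg (· / gg x) h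
      rw [idx_div hj, idx_div hj] at h4
      exact hij h4

theorem okB_iff {x : List (List Bool) × ℕ} {p : ℕ} {y : List Bool} : okB x p y = true ↔
    valB (ub (be x) y) < x.1.length ∧ valB (vb (be x) y) < x.1.length ∧
    (p / gg x = p % gg x → valB (ub (be x) y) = valB (vb (be x) y)) ∧
    (p / gg x ≠ p % gg x → valB (ub (be x) y) ≠ valB (vb (be x) y) ∧
      (entry x.1 (valB (ub (be x) y)) (valB (vb (be x) y)) = true ∨
        entry x.1 (valB (vb (be x) y)) (valB (ub (be x) y)) = true)) := by
  unfold okB
  by_cases h : p / gg x = p % gg x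
  · rw [if_pos h]
    simp [h]
  · rw [if_neg h]
    simp [h]

/-- From a solution to a clique. -/
theorem clique_of_sol {x : List (List Bool) × ℕ} {y : ℕ → List Bool} (h : (dat x).Sol y) :
    HasClique x := by
  classical
  obtain ⟨hy, hok, hts⟩ := h
  set g := gg x with hg
  have hok' : ∀ i < g, ∀ j < g, okB x (g * i + j) (y (g * i + j)) = true := fun i hi j hj =>
    hok _ (idx_lt hi hj)
  set f : ℕ → ℕ := fun i => valB (ub (be x) (y (g * i + i))) with hf
  have hfn : ∀ i < g, f i < x.1.length := fun i hi => (okB_iff.1 (hok' i hi i hi)).1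
  have hu : ∀ i < g, ∀ j < g, i ≠ j → valB (ub (be x) (y (g * i + j))) = f i := by
    intro i hi j hj hij
    rw [hf]
    simp only
    congr 1
    unfold ub
    refine List.map_congr_left fun c hc => ?_
    have hc := List.mem_range.1 hc
    have h1 := hts _ (mem_tsts.2 ⟨i, hi, j, hj, hij, c, hc, Or.inl rfl⟩)
    simp only [dat] at h1
    rwa [idx_div (by omega), idx_div (by omega), idx_mod (by omega), idx_mod (by omega)] at h1
  have hv : ∀ i < g, ∀ j < g, i ≠ j → valB (vb (be x) (y (g * i + j))) = f j := by
    intro i hi j hj hij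
    rw [hf]
    simp only
    congr 1
    unfold ub vb
    refine List.map_congr_left fun c hc => ?_
    have hc := List.mem_range.1 hc
    have h1 := hts _ (mem_tsts.2 ⟨i, hi, j, hj, hij, c, hc, Or.inr rfl⟩)
    simp only [dat] at h1
    rwa [idx_div (by omega), idx_div (by omega), idx_mod (by omega), idx_mod (by omega)] at h1
  have hadj : ∀ i < g, ∀ j < g, i ≠ j → f i ≠ f j ∧
      (entry x.1 (f i) (f j) = true ∨ entry x.1 (f j) (f i) = true) := by
    intro i hi j hj hij
    have h1 := (okB_iff.1 (hok' i hi j hj)).2.2.2 (by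
      rw [← hg, idx_div hj, idx_mod hj]
      exact hij)
    rwa [hu i hi j hj hij, hv i hi j hj hij] at h1
  -- the clique
  set S : Finset (Fin x.1.length) := Finset.univ.image fun i : Fin g =>
    (⟨f i.1, hfn i.1 i.2⟩ : Fin x.1.length) with hS
  have hinj : Function.Injective fun i : Fin g => (⟨f i.1, hfn i.1 i.2⟩ : Fin x.1.length) := by
    intro i j h
    by_contra hij
    have h1 := (hadj i.1 i.2 j.1 j.2 (fun h => hij (Fin.ext h))).1
    exact h1 (Fin.mk.inj_iff.1 h)
  have hcard : S.card = g := by
    rw [hS, Finset.card_image_of_injective _ hinj, Finset.card_univ, Fintype.card_fin]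
  have hle : g ≤ x.1.length := by
    rw [← hcard]
    exact (Finset.card_le_univ S).trans (by simp)
  have hgx : g = x.2 := by
    have : g = min x.2 (x.1.length + 1) := hg
    omega
  refine ⟨S, ?_⟩
  rw [SimpleGraph.isNClique_iff]
  refine ⟨?_, hcard.trans hgx⟩
  intro a ha c hc hac
  rw [hS] at ha hc
  simp only [Finset.coe_image, Finset.coe_univ, Set.image_univ, Set.mem_range] at ha hc
  obtain ⟨i, rfl⟩ := ha
  obtain ⟨j, rfl⟩ := hc
  have hij : i.1 ≠ j.1 := fun h => hac (by rw [Fin.ext h])
  have h1 := hadj i.1 i.2 j.1 j.2 hij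
  exact ⟨hac, h1.2⟩

/-- From a clique to a solution. -/
theorem sol_of_clique {x : List (List Bool) × ℕ} (h : HasClique x) :
    ∃ y, (dat x).Sol y := by
  classical
  obtain ⟨S, hS⟩ := h
  rw [SimpleGraph.isNClique_iff] at hS
  obtain ⟨hcl, hcard⟩ := hS
  have hle : x.2 ≤ x.1.length := by
    rw [← hcard]
    exact (Finset.card_le_univ S).trans (by simp)
  have hg : gg x = x.2 := by unfold gg; omega
  set e := S.equivFinOfCardEq (hcard.trans hg.symm) with he
  set F : ℕ → ℕ := fun i => if h : i < gg x then ((e.symm ⟨i, h⟩).1 : Fin x.1.length).1 else 0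
    with hF
  have hFlt : ∀ i < gg x, F i < x.1.length := by
    intro i hi
    simp only [hF, dif_pos hi]
    exact (e.symm ⟨i, hi⟩).1.2
  have hFbits : ∀ i, (F i).bits.length ≤ be x := by
    intro i
    by_cases hi : i < gg x
    · have h1 := hFlt i hi
      have h2 : Nat.size (F i) ≤ Nat.size x.1.length := Nat.size_le_size h1.le
      rw [← Nat.size_eq_bits_len, ← Nat.size_eq_bits_len] at h2
      unfold be
      omega
    · simp only [hF, dif_neg hi]
      simp
  have hadj : ∀ i < gg x, ∀ j < gg x, i ≠ j → F i ≠ F j ∧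
      (entry x.1 (F i) (F j) = true ∨ entry x.1 (F j) (F i) = true) := by
    intro i hi j hj hij
    have h1 : (e.symm ⟨i, hi⟩).1 ≠ (e.symm ⟨j, hj⟩).1 := by
      intro h
      have h2 := e.symm.injective (Subtype.ext h)
      exact hij (Fin.mk.inj_iff.1 h2)
    have h2 := hcl (e.symm ⟨i, hi⟩).2 (e.symm ⟨j, hj⟩).2 h1
    simp only [hF, dif_pos hi, dif_pos hj]
    exact ⟨fun h => h1 (Fin.ext h), h2.2⟩
  set B : ℕ → List Bool := fun i =>
    (F i).bits ++ List.replicate (be x - (F i).bits.length) false with hB
  have hBl : ∀ i, (B i).length = be x := by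
    intro i
    have := hFbits i
    simp only [hB, List.length_append, List.length_replicate]
    omega
  have hBv : ∀ i, valB (B i) = F i := fun i => valB_bitsOf _ _
  have hub : ∀ i j, ub (be x) (B i ++ B j) = B i := fun i j => ub_append (hBl i)
  have hvb : ∀ i j, vb (be x) (B i ++ B j) = B j := fun i j => vb_append (hBl i) (hBl j)
  refine ⟨fun p => B (p / gg x) ++ B (p % gg x), ?_, ?_, ?_⟩
  · intro p
    simp only [List.length_append, hBl, dat]
    omega
  · intro p hp
    have hp' : p < gg x * gg x := hp
    have hg0 : 0 < gg x := by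
      rcases Nat.eq_zero_or_pos (gg x) with h | h
      · rw [h] at hp'
        omega
      · exact h
    have h1 : p / gg x < gg x := (Nat.div_lt_iff_lt_mul hg0).2 hp'
    have h2 : p % gg x < gg x := Nat.mod_lt _ hg0
    change okB x p _ = true
    rw [okB_iff, hub, hvb, hBv, hBv]
    refine ⟨hFlt _ h1, hFlt _ h2, ?_, ?_⟩
    · intro h
      rw [h]
    · intro h
      exact hadj _ h1 _ h2 h
  · intro q hq
    obtain ⟨i, hi, j, hj, hij, c, hc, h⟩ := mem_tsts.1 hq
    change (B (q.1 / (2 * be x) / gg x) ++ B (q.1 / (2 * be x) % gg x)).getD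
      (q.1 % (2 * be x)) false = (B (q.2 / (2 * be x) / gg x) ++
        B (q.2 / (2 * be x) % gg x)).getD (q.2 % (2 * be x)) false
    have hg1 : ∀ i c, c < be x → ∀ L, (B i ++ L).getD c false = (B i).getD c false := by
      intro i c hc L
      rw [List.getD_append _ _ _ _ (by rw [hBl]; exact hc)]
    have d1 : ∀ p c, c < 2 * be x → (2 * be x * p + c) / (2 * be x) = p := fun p c h => idx_div h
    have m1 : ∀ p c, c < 2 * be x → (2 * be x * p + c) % (2 * be x) = c := fun p c h => idx_mod h
    rcases h with rfl | rfl
    · simp only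
      rw [d1 _ _ (by omega), d1 _ _ (by omega), m1 _ _ (by omega), m1 _ _ (by omega),
        idx_div hj, idx_div hi, hg1 _ _ hc, hg1 _ _ hc]
    · simp only
      rw [d1 _ _ (by omega), d1 _ _ (by omega), m1 _ _ (by omega), m1 _ _ (by omega),
        idx_mod hj, idx_div hj, hg1 _ _ hc,
        List.getD_append_right _ _ _ _ (by rw [hBl]; omega), hBl, Nat.add_sub_cancel_left,
        idx_div hj]

theorem sol_iff (x : List (List Bool) × ℕ) : (∃ y, (dat x).Sol y) ↔ HasClique x :=
  ⟨fun ⟨_, h⟩ => clique_of_sol h, sol_of_clique⟩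

end Pool.Agent.H683.FF
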