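import Pool.Agent.H683.FF.Words

/-!
# The tree of the reduction

There are `W` walkers. The walker `p` chooses a word `y` of `b` bits. The number of the step
(`index`) of the `c`-th choice of the walker `p` is `2 * (b * p + c)`.
-/

set_option autoImplicit false

namespace Pool.Agent.H683.FF

/-- A bit as a letter. -/
def bl (c : Bool) : ℕ := if c then 1 else 0

theorem bl_inj {c c' : Bool} (h : bl c = bl c') : c = c' := by
  cases c <;> cases c' <;> simp [bl] at h ⊢

theorem bl_lt (c : Bool) : bl c < 2 := by cases c <;> simp [bl]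

/-- The letter of the walker `p` with choice `y` and spine `e` at index `i`. -/
def ltr (b p : ℕ) (y : List Bool) (e : Bool) (i : ℕ) : ℕ :=
  if i % 2 = 0 ∧ i / 2 / b = p then bl (y.getD (i / 2 % b) false)
  else if i = 2 * (b * p + (b - 1)) + 1 then bl e else 0

theorem ltr_lt (b p : ℕ) (y : List Bool) (e : Bool) (i : ℕ) : ltr b p y e i < 2 := by
  unfold ltr
  split_ifs
  · exact bl_lt _
  · exact bl_lt _
  · norm_num

/-- The word of the walker. -/
def pth (b p : ℕ) (y : List Bool) (e : Bool) : ℕ → List ℕ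
  | 0 => [p]
  | t + 1 => ltr b p y e t :: pth b p y e t

theorem pth_length (b p : ℕ) (y : List Bool) (e : Bool) (t : ℕ) :
    (pth b p y e t).length = t + 1 := by
  induction t with
  | zero => rfl
  | succ t ih => simp [pth, ih]

theorem pth_ne_nil (b p : ℕ) (y : List Bool) (e : Bool) (t : ℕ) : pth b p y e t ≠ [] := by
  cases t <;> simp [pth]

theorem pth_tail (b p : ℕ) (y : List Bool) (e : Bool) (t : ℕ) :
    (pth b p y e (t + 1)).tail = pth b p y e t := rfl

theorem pth_congr {b p : ℕ} {y y' : List Bool} {e e' : Bool} : ∀ {t : ℕ},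
    (∀ i < t, i % 2 = 0 → i / 2 / b = p → y.getD (i / 2 % b) false = y'.getD (i / 2 % b) false) →
    (2 * (b * p + (b - 1)) + 1 < t → e = e') → pth b p y e t = pth b p y' e' t
  | 0, _, _ => rfl
  | t + 1, h1, h2 => by
    have ih : pth b p y e t = pth b p y' e' t :=
      pth_congr (fun i hi => h1 i (by omega)) (fun h => h2 (by omega))
    have h3 : ltr b p y e t = ltr b p y' e' t := by
      unfold ltr
      split_ifs with h4 h5
      · rw [h1 t (by omega) h4.1 h4.2]
      · rw [h2 (by omega)]
      · rfl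
    simp only [pth, ih, h3]

theorem pth_inj {b p p' : ℕ} {y y' : List Bool} {e e' : Bool} : ∀ {t : ℕ},
    pth b p y e t = pth b p' y' e' t → p = p' ∧
    (∀ i < t, i % 2 = 0 → i / 2 / b = p → y.getD (i / 2 % b) false = y'.getD (i / 2 % b) false) ∧
    (2 * (b * p + (b - 1)) + 1 < t → e = e')
  | 0, h => by
    simp only [pth, List.cons.injEq, and_true] at h
    exact ⟨h, fun i hi => absurd hi (Nat.not_lt_zero i), fun hi => absurd hi (Nat.not_lt_zero _)⟩
  | t + 1, h => by
    simp only [pth, List.cons.injEq] at h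
    obtain ⟨h1, h2⟩ := h
    obtain ⟨h3, h4, h5⟩ := pth_inj h2
    subst h3
    refine ⟨rfl, ?_, ?_⟩
    · intro i hi h6 h7
      rcases Nat.lt_or_ge i t with h8 | h8
      · exact h4 i h8 h6 h7
      · have e : i = t := by omega
        subst e
        unfold ltr at h1
        rw [if_pos ⟨h6, h7⟩, if_pos ⟨h6, h7⟩] at h1
        exact bl_inj h1
    · intro h6
      rcases Nat.lt_or_ge (2 * (b * p + (b - 1)) + 1) t with h8 | h8
      · exact h5 h8
      · have e : t = 2 * (b * p + (b - 1)) + 1 := by omega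
        unfold ltr at h1
        have h9 : ¬ (t % 2 = 0 ∧ t / 2 / b = p) := by omega
        rw [if_neg h9, if_neg h9, if_pos e, if_pos e] at h1
        exact bl_inj h1

theorem pth_len_inj {b p p' : ℕ} {y y' : List Bool} {e e' : Bool} {t t' : ℕ}
    (h : pth b p y e t = pth b p' y' e' t') : t = t' := by
  have h2 := congrArg List.length h
  rw [pth_length, pth_length] at h2
  omega

/-- The walker has a bad child with the letter `2` at the index `i`. -/
def need (b W : ℕ) (ts : List (ℕ × ℕ)) (p : ℕ) (y : List Bool) (e : Bool) (i : ℕ) : Bool :=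
  if i < 2 * (b * W) then decide (i % 2 = 1 ∧ i / 2 / b = p)
  else
    decide (((ts.getD ((i - 2 * (b * W)) / 4) (0, 0)).1 / b = p ∧
        e = decide (2 ≤ (i - 2 * (b * W)) % 4) ∧
        y.getD ((ts.getD ((i - 2 * (b * W)) / 4) (0, 0)).1 % b) false =
          decide ((i - 2 * (b * W)) % 4 = 1 ∨ (i - 2 * (b * W)) % 4 = 2)) ∨
      ((ts.getD ((i - 2 * (b * W)) / 4) (0, 0)).2 / b = p ∧
        e = decide (2 ≤ (i - 2 * (b * W)) % 4) ∧
        y.getD ((ts.getD ((i - 2 * (b * W)) / 4) (0, 0)).2 % b) false =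
          !decide ((i - 2 * (b * W)) % 4 = 1 ∨ (i - 2 * (b * W)) % 4 = 2)))

/-- The walker has a second bad child with the letter `3` at the index `i`. -/
def need2 (b : ℕ) (ok : ℕ → List Bool → Bool) (p : ℕ) (y : List Bool) (i : ℕ) : Bool :=
  decide (i = 2 * (b * p + (b - 1)) + 1) && !ok p y

/-- The data of the tree. -/
structure Data where
  b : ℕ
  W : ℕ
  ts : List (ℕ × ℕ)
  ok : ℕ → List Bool → Bool
  Y : ℕ
  hb : 0 < b
  hts : ∀ q ∈ ts, q.1 < b * W ∧ q.2 < b * W ∧ q.1 / b ≠ q.2 / b

namespace Data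

/-- The number of indices. -/
def D (d : Data) : ℕ := 2 * (d.b * d.W) + 4 * d.ts.length

/-- The words of the tree. -/
inductive InT (d : Data) : List ℕ → Prop
  | nil : InT d []
  | rc : InT d [d.W]
  | rl (z : ℕ) (hz : z < d.Y) : InT d [z, d.W]
  | main (p : ℕ) (y : List Bool) (e : Bool) (t : ℕ) (hp : p < d.W) (hy : y.length = d.b)
      (ht : t ≤ d.D) : InT d (pth d.b p y e t)
  | c2 (p : ℕ) (y : List Bool) (e : Bool) (t : ℕ) (hp : p < d.W) (hy : y.length = d.b)
      (ht : t < d.D) (hn : need d.b d.W d.ts p y e t = true) : InT d (2 :: pth d.b p y e t)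
  | l2 (z p : ℕ) (y : List Bool) (e : Bool) (t : ℕ) (hz : z < d.Y) (hp : p < d.W)
      (hy : y.length = d.b) (ht : t < d.D) (hn : need d.b d.W d.ts p y e t = true) :
      InT d (z :: 2 :: pth d.b p y e t)
  | c3 (p : ℕ) (y : List Bool) (e : Bool) (t : ℕ) (hp : p < d.W) (hy : y.length = d.b)
      (ht : t < d.D) (hn : need2 d.b d.ok p y t = true) : InT d (3 :: pth d.b p y e t)
  | l3 (z p : ℕ) (y : List Bool) (e : Bool) (t : ℕ) (hz : z < d.Y) (hp : p < d.W)
      (hy : y.length = d.b) (ht : t < d.D) (hn : need2 d.b d.ok p y t = true) :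
      InT d (z :: 3 :: pth d.b p y e t)

theorem InT.tail {d : Data} {v : List ℕ} (h : InT d v) : InT d v.tail := by
  cases h with
  | nil => exact InT.nil
  | rc => exact InT.nil
  | rl z hz => exact InT.rc
  | main p y e t hp hy ht =>
    cases t with
    | zero => exact InT.nil
    | succ t => exact InT.main p y e t hp hy (by omega)
  | c2 p y e t hp hy ht hn => exact InT.main p y e t hp hy (by omega)
  | l2 z p y e t hz hp hy ht hn => exact InT.c2 p y e t hp hy ht hn
  | c3 p y e t hp hy ht hn => exact InT.main p y e t hp hy (by omega)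
  | l3 z p y e t hz hp hy ht hn => exact InT.c3 p y e t hp hy ht hn

/-- The solutions: the choices satisfy `ok` and the tests. -/
def Sol (d : Data) (y : ℕ → List Bool) : Prop :=
  (∀ p, (y p).length = d.b) ∧ (∀ p < d.W, d.ok p (y p) = true) ∧
  ∀ q ∈ d.ts, (y (q.1 / d.b)).getD (q.1 % d.b) false = (y (q.2 / d.b)).getD (q.2 % d.b) false

end Data

end Pool.Agent.H683.FF
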