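import Pool.Agent.H683.FF.Core

/-!
# The reduction: from a small burned set to a solution
-/

set_option autoImplicit false

namespace Pool.Agent.H683.FF

variable {L : List (List ℕ)} {B : Set (List ℕ)}

theorem no_center (hB : WNormal L B) (c : List ℕ) {Y k : ℕ} (hl : ∀ z < Y, z :: c ∈ L)
    (hk : B.ncard ≤ k) (hY : k < Y) : c ∉ B := by
  classical
  intro hc
  have hfin : B.Finite := (List.finite_toSet L).subset hB.sub
  have h : (Set.Iio Y).ncard ≤ B.ncard := by
    refine Set.ncard_le_ncard_of_injOn (fun z => if z :: c ∈ B then z :: c else c) ?_ ?_ hfin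
    · intro z _
      split_ifs with h
      · exact h
      · exact hc
    · intro z hz z' hz' h
      beta_reduce at h
      split_ifs at h with h1 h2 h2
      · exact (List.cons.inj h).1
      · exact absurd (congrArg List.length h) (by simp)
      · exact absurd (congrArg List.length h) (by simp)
      · exact (List.cons.inj (hB.cut _ (hl z hz) _ (hl z' hz') h1 h2 hc hc rfl)).1
  rw [← Nat.card_coe_set_eq] at h
  simp at h
  omega

/-- What we know about the burned set `B`. -/
structure Ctx (d : Data) (L : List (List ℕ)) (B : Set (List ℕ)) : Prop where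
  mem : ∀ v, v ∈ L ↔ d.InT v
  nor : WNormal L B
  c1 : [d.W] ∉ B
  c2 : ∀ p y e t, p < d.W → y.length = d.b → t < d.D → need d.b d.W d.ts p y e t = true →
    2 :: pth d.b p y e t ∉ B
  c3 : ∀ p y e t, p < d.W → y.length = d.b → t < d.D → need2 d.b d.ok p y t = true →
    3 :: pth d.b p y e t ∉ B

theorem ctx_of {d : Data} {k : ℕ} (hmem : ∀ v, v ∈ L ↔ d.InT v) (hB : WNormal L B)
    (hk : B.ncard ≤ k) (hY : k < d.Y) : Ctx d L B := by
  refine ⟨hmem, hB, ?_, ?_, ?_⟩
  · exact no_center hB _ (fun z hz => (hmem _).2 (Data.InT.rl z hz)) hk hY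
  · intro p y e t hp hy ht hn
    exact no_center hB _ (fun z hz => (hmem _).2 (Data.InT.l2 z p y e t hz hp hy ht hn)) hk hY
  · intro p y e t hp hy ht hn
    exact no_center hB _ (fun z hz => (hmem _).2 (Data.InT.l3 z p y e t hz hp hy ht hn)) hk hY

/-- All the walkers burn after index `t`. -/
def Alive (d : Data) (B : Set (List ℕ)) (y : ℕ → List Bool) (t : ℕ) : Prop :=
  ∀ p < d.W, ∀ e, pth d.b p (y p) e t ∈ B

namespace Ctx

variable {d : Data} (C : Ctx d L B)
include C

theorem cut' {u v : List ℕ} (hu : d.InT u) (hv : d.InT v) (hu' : u ∉ B) (hv' : v ∉ B)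
    (hut : u.tail ∈ B) (hvt : v.tail ∈ B) (hl : u.length = v.length) : u = v :=
  C.nor.cut u ((C.mem _).2 hu) v ((C.mem _).2 hv) hu' hv' hut hvt hl

/-- Two burning words with the same length do not both have a center. -/
theorem two_centers {p p' t : ℕ} {y y' : List Bool} {e e' : Bool} (hp : p < d.W)
    (hp' : p' < d.W) (hy : y.length = d.b) (hy' : y'.length = d.b) (ht : t < d.D)
    (hn : need d.b d.W d.ts p y e t = true) (hn' : need d.b d.W d.ts p' y' e' t = true)
    (h : pth d.b p y e t ∈ B) (h' : pth d.b p' y' e' t ∈ B) :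
    pth d.b p y e t = pth d.b p' y' e' t := by
  have h2 := C.cut' (Data.InT.c2 p y e t hp hy ht hn) (Data.InT.c2 p' y' e' t hp' hy' ht hn')
    (C.c2 p y e t hp hy ht hn) (C.c2 p' y' e' t hp' hy' ht hn') h h' (by
      simp [pth_length])
  exact (List.cons.inj h2).2

/-- If some walker needs the firefighter then all the other walkers burn on. -/
theorem next_mem {p p' t : ℕ} {y y' : List Bool} {e e' : Bool} (hp : p < d.W)
    (hp' : p' < d.W) (hy : y.length = d.b) (hy' : y'.length = d.b) (ht : t < d.D)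
    (hn : need d.b d.W d.ts p y e t = true)
    (h : pth d.b p y e t ∈ B) (h' : pth d.b p' y' e' t ∈ B) : pth d.b p' y' e' (t + 1) ∈ B := by
  by_contra hcon
  have h2 := C.cut' (Data.InT.c2 p y e t hp hy ht hn) (Data.InT.main p' y' e' (t + 1) hp' hy'
    (by omega)) (C.c2 p y e t hp hy ht hn) hcon h h' (by simp [pth_length])
  have h3 := (List.cons.inj h2).1
  have h4 := ltr_lt d.b p' y' e' t
  omega

theorem step {y : ℕ → List Bool} {t : ℕ} (hy : ∀ p, (y p).length = d.b) (ht : t < d.D)
    (ha : Alive d B y t) {p : ℕ} (hp : p < d.W) {e : Bool}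
    (hn : need d.b d.W d.ts p (y p) e t = true) : Alive d B y (t + 1) := fun p' hp' e' =>
  C.next_mem hp hp' (hy p) (hy p') ht hn (ha p hp e) (ha p' hp' e')

theorem alive_zero (y : ℕ → List Bool) (hy : ∀ p, (y p).length = d.b) :
    Alive d B y 0 := by
  intro p hp e
  by_contra hcon
  have h := C.cut' (Data.InT.rc) (Data.InT.main p (y p) e 0 hp (hy p) (Nat.zero_le _)) C.c1 hcon
    C.nor.root C.nor.root rfl
  simp only [pth, List.cons.injEq, and_true] at h
  omega

theorem alive_mono {y : ℕ → List Bool} {t : ℕ} : ∀ {t'}, Alive d B y (t + t') → Alive d B y t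
  | 0, h => h
  | t' + 1, h => alive_mono (t' := t') fun p hp e => C.nor.closed _ (h p hp e)

/-- A choice and its check. -/
theorem choose_step {y : ℕ → List Bool} (hy : ∀ p, (y p).length = d.b) {m : ℕ}
    (hm : m < d.b * d.W) (ha : Alive d B y (2 * m)) :
    ∃ y' : ℕ → List Bool, (∀ p, (y' p).length = d.b) ∧ Alive d B y' (2 * (m + 1)) := by
  classical
  have hb := d.hb
  set p₀ := m / d.b with hp₀
  have hp₀W : p₀ < d.W := (Nat.div_lt_iff_lt_mul hb).2 (by rwa [Nat.mul_comm] at hm)
  have hmod : m % d.b < d.b := Nat.mod_lt _ hb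
  have hm2 : d.b * p₀ + m % d.b = m := Nat.div_add_mod _ _
  have hD : 2 * m + 1 < d.D := by unfold Data.D; omega
  -- the updated choice
  set Y : Bool → ℕ → List Bool := fun β =>
    Function.update y p₀ ((y p₀).set (m % d.b) β) with hY
  have hYl : ∀ β p, (Y β p).length = d.b := by
    intro β p
    rw [hY]
    by_cases h : p = p₀
    · subst h
      simp [hy]
    · simp [Function.update_of_ne h, hy]
  have hget : ∀ β, (Y β p₀).getD (m % d.b) false = β := by
    intro β
    simp only [hY, Function.update_self]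
    rw [List.getD_eq_getElem _ _ (by rw [List.length_set, hy]; exact hmod)]
    simp
  have hcongr : ∀ β p e e', pth d.b p (Y β p) e (2 * m) = pth d.b p (y p) e' (2 * m) ∨
      p ≠ p₀ := by
    intro β p e e'
    by_cases h : p = p₀
    · left
      subst h
      refine pth_congr ?_ ?_
      · intro i hi h1 h2
        simp only [hY, Function.update_self]
        have h3 : i / 2 % d.b ≠ m % d.b := by
          intro h3
          have h4 := Nat.div_add_mod (i / 2) d.b
          rw [h2, h3] at h4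
          omega
        rw [List.getD_eq_getElem?_getD, List.getD_eq_getElem?_getD, List.getElem?_set_ne h3.symm]
      · intro h1
        omega
    · exact Or.inr h
  have hw : ∀ β e e', pth d.b p₀ (Y β p₀) e (2 * m) = pth d.b p₀ (y p₀) e' (2 * m) := by
    intro β e e'
    rcases hcongr β p₀ e e' with h | h
    · exact h
    · exact absurd rfl h
  have hnext : ∀ β e, pth d.b p₀ (Y β p₀) e (2 * m + 1) =
      bl β :: pth d.b p₀ (y p₀) false (2 * m) := by
    intro β e
    change ltr _ _ _ _ _ :: _ = _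
    rw [hw β e false]
    unfold ltr
    have h1 : 2 * m % 2 = 0 ∧ 2 * m / 2 / d.b = p₀ := by
      refine ⟨by omega, ?_⟩
      rw [Nat.mul_div_cancel_left _ (by norm_num)]
    rw [if_pos h1, Nat.mul_div_cancel_left _ (by norm_num), hget]
  have hneed : ∀ β e, need d.b d.W d.ts p₀ (Y β p₀) e (2 * m + 1) = true := by
    intro β e
    unfold need
    rw [if_pos (by omega), decide_eq_true_iff]
    refine ⟨by omega, ?_⟩
    have : (2 * m + 1) / 2 = m := by omega
    rw [this]
  have ha0 := ha p₀ hp₀W false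
  -- one of the two children does not burn
  have h1 : ∃ β, bl β :: pth d.b p₀ (y p₀) false (2 * m) ∉ B := by
    by_contra hcon
    push Not at hcon
    have h2 := C.two_centers hp₀W hp₀W (hYl true p₀) (hYl false p₀) hD (hneed true false)
      (hneed false false) (by rw [hnext]; exact hcon true) (by rw [hnext]; exact hcon false)
    rw [hnext, hnext] at h2
    have h3 := (List.cons.inj h2).1
    simp [bl] at h3
  obtain ⟨β, hβ⟩ := h1
  have hInT : ∀ β, d.InT (bl β :: pth d.b p₀ (y p₀) false (2 * m)) := by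
    intro β
    rw [← hnext β false]
    exact Data.InT.main p₀ _ _ _ hp₀W (hYl β p₀) (by omega)
  -- all the others burn
  have h2 : Alive d B (Y !β) (2 * m + 1) := by
    intro p hp e
    by_cases h : p = p₀
    · subst h
      rw [hnext]
      by_contra hcon
      have h3 := C.cut' (hInT (!β)) (hInT β) hcon hβ ha0 ha0 rfl
      have h4 := bl_inj (List.cons.inj h3).1
      cases β <;> simp at h4
    · have e1 : Y (!β) p = y p := by
        simp only [hY]
        exact Function.update_of_ne h _ _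
      rw [e1]
      by_contra hcon
      have h3 := C.cut' (Data.InT.main p (y p) e (2 * m + 1) hp (hy p) (by omega)) (hInT β)
        hcon hβ (ha p hp e) ha0 (by simp [pth_length])
      have h4 := (List.cons.inj h3).2
      exact h (pth_inj h4).1
  exact ⟨Y !β, hYl !β, C.step (hYl !β) (by omega) h2 hp₀W (hneed (!β) false)⟩

theorem exists_choice : ∀ m, m ≤ d.b * d.W →
    ∃ y : ℕ → List Bool, (∀ p, (y p).length = d.b) ∧ Alive d B y (2 * m)
  | 0, _ => ⟨fun _ => List.replicate d.b false, fun _ => by simp,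
      C.alive_zero _ fun _ => by simp⟩
  | m + 1, h => by
    obtain ⟨y, hy, ha⟩ := exists_choice m (by omega)
    exact C.choose_step hy (by omega) ha

theorem ok_of_alive {y : ℕ → List Bool} (hy : ∀ p, (y p).length = d.b)
    (ha : Alive d B y (2 * (d.b * d.W))) {p : ℕ} (hp : p < d.W) : d.ok p (y p) = true := by
  by_contra hcon
  have hb := d.hb
  set t := 2 * (d.b * p + (d.b - 1)) + 1 with ht
  have h1 : d.b * (p + 1) ≤ d.b * d.W := Nat.mul_le_mul_left _ hp
  have h2 : t + 1 ≤ 2 * (d.b * d.W) := by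
    rw [Nat.mul_add] at h1
    omega
  have hD : t < d.D := by unfold Data.D; omega
  have ha1 : Alive d B y t := by
    refine C.alive_mono (t' := 2 * (d.b * d.W) - t) ?_
    rw [Nat.add_sub_cancel' (by omega)]
    exact ha
  have h3 : t / 2 / d.b = p := by
    have : t / 2 = d.b * p + (d.b - 1) := by omega
    rw [this, Nat.mul_add_div hb, Nat.div_eq_of_lt (by omega), Nat.add_zero]
  have hn : need d.b d.W d.ts p (y p) false t = true := by
    unfold need
    rw [if_pos (by omega), decide_eq_true_iff]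
    exact ⟨by omega, h3⟩
  have hn2 : need2 d.b d.ok p (y p) t = true := by
    unfold need2
    simp only [Bool.and_eq_true, decide_eq_true_eq, Bool.not_eq_true']
    exact ⟨ht, by simpa using hcon⟩
  have h4 := C.cut' (Data.InT.c2 p (y p) false t hp (hy p) hD hn)
    (Data.InT.c3 p (y p) false t hp (hy p) hD hn2) (C.c2 p (y p) false t hp (hy p) hD hn)
    (C.c3 p (y p) false t hp (hy p) hD hn2) (ha1 p hp false) (ha1 p hp false) rfl
  simp at h4

omit C in
/-- The two kinds of needs in the tests. -/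
theorem need_test {p : ℕ} {y : List Bool} {e : Bool} {τ r : ℕ} (hr : r < 4)
    (h : ((d.ts.getD τ (0, 0)).1 / d.b = p ∧ e = decide (2 ≤ r) ∧
        y.getD ((d.ts.getD τ (0, 0)).1 % d.b) false = decide (r = 1 ∨ r = 2)) ∨
      ((d.ts.getD τ (0, 0)).2 / d.b = p ∧ e = decide (2 ≤ r) ∧
        y.getD ((d.ts.getD τ (0, 0)).2 % d.b) false = !decide (r = 1 ∨ r = 2))) :
    need d.b d.W d.ts p y e (2 * (d.b * d.W) + 4 * τ + r) = true := by
  unfold need
  rw [if_neg (by omega), decide_eq_true_iff]
  have e1 : (2 * (d.b * d.W) + 4 * τ + r - 2 * (d.b * d.W)) / 4 = τ := by omega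
  have e2 : (2 * (d.b * d.W) + 4 * τ + r - 2 * (d.b * d.W)) % 4 = r := by omega
  rw [e1, e2]
  exact h

theorem test_step {y : ℕ → List Bool} (hy : ∀ p, (y p).length = d.b) {τ : ℕ}
    (hτ : τ < d.ts.length) (ha : Alive d B y (2 * (d.b * d.W) + 4 * τ)) :
    (y (d.ts[τ].1 / d.b)).getD (d.ts[τ].1 % d.b) false =
      (y (d.ts[τ].2 / d.b)).getD (d.ts[τ].2 % d.b) false ∧
    Alive d B y (2 * (d.b * d.W) + 4 * (τ + 1)) := by
  have hb := d.hb
  obtain ⟨hm1, hm2, hne⟩ := d.hts d.ts[τ] (List.getElem_mem _)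
  have hgd : d.ts.getD τ (0, 0) = d.ts[τ] := List.getD_eq_getElem _ _ hτ
  have hD : 2 * (d.b * d.W) + 4 * τ + 4 ≤ d.D := by unfold Data.D; omega
  have hp1 : d.ts[τ].1 / d.b < d.W := (Nat.div_lt_iff_lt_mul hb).2 (by rwa [Nat.mul_comm] at hm1)
  have hp2 : d.ts[τ].2 / d.b < d.W := (Nat.div_lt_iff_lt_mul hb).2 (by rwa [Nat.mul_comm] at hm2)
  have hn1 : ∀ r < 4, (y (d.ts[τ].1 / d.b)).getD (d.ts[τ].1 % d.b) false =
      decide (r = 1 ∨ r = 2) → need d.b d.W d.ts (d.ts[τ].1 / d.b) (y (d.ts[τ].1 / d.b))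
        (decide (2 ≤ r)) (2 * (d.b * d.W) + 4 * τ + r) = true := by
    intro r hr h
    refine need_test hr (Or.inl ?_)
    rw [hgd]
    exact ⟨rfl, rfl, h⟩
  have hn2 : ∀ r < 4, (y (d.ts[τ].2 / d.b)).getD (d.ts[τ].2 % d.b) false =
      !decide (r = 1 ∨ r = 2) → need d.b d.W d.ts (d.ts[τ].2 / d.b) (y (d.ts[τ].2 / d.b))
        (decide (2 ≤ r)) (2 * (d.b * d.W) + 4 * τ + r) = true := by
    intro r hr h
    refine need_test hr (Or.inr ?_)
    rw [hgd]
    exact ⟨rfl, rfl, h⟩
  generalize d.ts[τ].1 % d.b = c₁ at *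
  generalize d.ts[τ].2 % d.b = c₂ at *
  generalize d.ts[τ].1 / d.b = p₁ at *
  generalize d.ts[τ].2 / d.b = p₂ at *
  have hne' : ∀ e e' t, pth d.b p₁ (y p₁) e t ≠ pth d.b p₂ (y p₂) e' t := fun e e' t h =>
    hne (pth_inj h).1
  rcases Bool.eq_false_or_eq_true ((y p₁).getD c₁ false) with h1 | h1 <;>
  rcases Bool.eq_false_or_eq_true ((y p₂).getD c₂ false) with h2 | h2
  · -- both are true
    refine ⟨h1.trans h2.symm, ?_⟩
    have a1 := C.step hy (by omega) ha hp2 (hn2 0 (by omega) (by rw [h2]; rfl))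
    have a2 := C.step hy (by omega) a1 hp1 (hn1 1 (by omega) (by rw [h1]; rfl))
    have a3 := C.step hy (by omega) a2 hp1 (hn1 2 (by omega) (by rw [h1]; rfl))
    exact C.step (t := 2 * (d.b * d.W) + 4 * τ + 3) hy (by omega) a3 hp2 (hn2 3 (by omega) (by rw [h2]; rfl))
  · -- true and false
    exfalso
    set t := 2 * (d.b * d.W) + 4 * τ with ht
    have n1 := hn1 1 (by omega) (by rw [h1]; rfl)
    have n2 := hn2 1 (by omega) (by rw [h2]; rfl)
    have n3 := hn1 2 (by omega) (by rw [h1]; rfl)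
    have n4 := hn2 2 (by omega) (by rw [h2]; rfl)
    have hfork : ∀ p < d.W, 2 * (d.b * p + (d.b - 1)) + 1 < t := by
      intro p hp
      have h1 : d.b * (p + 1) ≤ d.b * d.W := Nat.mul_le_mul_left _ hp
      rw [Nat.mul_add] at h1
      omega
    have hee : ∀ p < d.W, ∀ j, pth d.b p (y p) true (t + j) ≠ pth d.b p (y p) false (t + j) := by
      intro p hp j h
      have := (pth_inj h).2.2 (by have := hfork p hp; omega)
      simp at this
    -- one of the first spines is cut
    have hcut : ∃ q < d.W, ∃ q' < d.W, q ≠ q' ∧ pth d.b q (y q) false (t + 1) ∉ B ∧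
        need d.b d.W d.ts q' (y q') false (t + 1) = true ∧ (q = p₁ ∨ q = p₂) := by
      by_contra hcon
      push Not at hcon
      have b1 : pth d.b p₁ (y p₁) false (t + 1) ∈ B := by
        by_contra hb1
        exact (hcon p₁ hp1 p₂ hp2 hne hb1 n2).1 rfl
      have b2 : pth d.b p₂ (y p₂) false (t + 1) ∈ B := by
        by_contra hb2
        exact (hcon p₂ hp2 p₁ hp1 hne.symm hb2 n1).2 rfl
      exact hne' _ _ _ (C.two_centers hp1 hp2 (hy p₁) (hy p₂) (by omega) n1 n2 b1 b2)
    obtain ⟨q, hq, q', hq', hqq, hqB, hnq', hqp⟩ := hcut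
    have hall : ∀ p < d.W, ∀ e, (p ≠ q ∨ e = true) → pth d.b p (y p) e (t + 1) ∈ B := by
      intro p hp e hpe
      by_contra hcon
      have h3 := C.cut' (Data.InT.main q (y q) false (t + 1) hq (hy q) (by omega))
        (Data.InT.main p (y p) e (t + 1) hp (hy p) (by omega)) hqB hcon (ha q hq false)
        (ha p hp e) (by simp [pth_length])
      have h4 := (pth_inj h3).1
      subst h4
      rcases hpe with h5 | h5
      · exact h5 rfl
      · subst h5
        exact hee q hq 1 h3.symm
    have m1 := hall q' hq' false (Or.inl hqq.symm)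
    have m2 := C.next_mem hq' hp1 (hy q') (hy p₁) (by omega) hnq' m1 (hall p₁ hp1 true (Or.inr rfl))
    have m3 := C.next_mem hq' hp2 (hy q') (hy p₂) (by omega) hnq' m1 (hall p₂ hp2 true (Or.inr rfl))
    exact hne' _ _ _ (C.two_centers hp1 hp2 (hy p₁) (hy p₂) (by omega) n3 n4 m2 m3)
  · -- false and true
    exfalso
    have n1 := hn1 0 (by omega) (by rw [h1]; rfl)
    have n2 := hn2 0 (by omega) (by rw [h2]; rfl)
    exact hne' _ _ _ (C.two_centers hp1 hp2 (hy p₁) (hy p₂) (by omega) n1 n2 (ha p₁ hp1 _)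
      (ha p₂ hp2 _))
  · -- both are false
    refine ⟨h1.trans h2.symm, ?_⟩
    have a1 := C.step hy (by omega) ha hp1 (hn1 0 (by omega) (by rw [h1]; rfl))
    have a2 := C.step hy (by omega) a1 hp2 (hn2 1 (by omega) (by rw [h2]; rfl))
    have a3 := C.step hy (by omega) a2 hp2 (hn2 2 (by omega) (by rw [h2]; rfl))
    exact C.step (t := 2 * (d.b * d.W) + 4 * τ + 3) hy (by omega) a3 hp1 (hn1 3 (by omega) (by rw [h1]; rfl))

theorem tests_of_alive {y : ℕ → List Bool} (hy : ∀ p, (y p).length = d.b)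
    (ha : Alive d B y (2 * (d.b * d.W))) : ∀ τ ≤ d.ts.length,
    Alive d B y (2 * (d.b * d.W) + 4 * τ) ∧ ∀ j (hj : j < τ) (hj' : j < d.ts.length),
      (y (d.ts[j].1 / d.b)).getD (d.ts[j].1 % d.b) false =
        (y (d.ts[j].2 / d.b)).getD (d.ts[j].2 % d.b) false
  | 0, _ => ⟨ha, fun j hj => absurd hj (Nat.not_lt_zero j)⟩
  | τ + 1, h => by
    obtain ⟨h1, h2⟩ := tests_of_alive hy ha τ (by omega)
    obtain ⟨h3, h4⟩ := C.test_step hy (τ := τ) (by omega) h1
    refine ⟨h4, fun j hj hj' => ?_⟩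
    rcases Nat.lt_or_ge j τ with h5 | h5
    · exact h2 j h5 hj'
    · have e : j = τ := by omega
      subst e
      exact h3

theorem exists_sol : ∃ y, d.Sol y := by
  obtain ⟨y, hy, ha⟩ := C.exists_choice (d.b * d.W) le_rfl
  refine ⟨y, hy, fun p hp => C.ok_of_alive hy ha hp, ?_⟩
  intro q hq
  obtain ⟨j, hj, rfl⟩ := List.getElem_of_mem hq
  exact (C.tests_of_alive hy ha _ le_rfl).2 j hj hj

end Ctx

/-- A burned set with fewer vertices than a star has leaves gives a solution. -/
theorem sol_of_normal {d : Data} {k : ℕ} (hmem : ∀ v, v ∈ L ↔ d.InT v) (hB : WNormal L B)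
    (hk : B.ncard ≤ k) (hY : k < d.Y) : ∃ y, d.Sol y :=
  (ctx_of hmem hB hk hY).exists_sol

end Pool.Agent.H683.FF
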