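import Pool.Graph.R_seed8.H633R2.FptDefs

/-!
# Firefighter on trees: definitions

The machine model is Mathlib's `Turing.TM2`; instances are coded by bit strings with the encoding
`bits` (numbers in binary). A graph is given by its adjacency matrix (`graphOf`).
-/

set_option autoImplicit false

namespace Pool.Agent.H683.FF

open Turing Pool.Agent.NPC Pool.Agent.H633R2

/-! ### The Firefighter process -/

section Process

variable {V : Type} (G : SimpleGraph V) (s : V) (σ : ℕ → Option V)

/-- The set of the vertices that are on fire after `t` steps, if the fire starts in `s` and `σ i`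
is the vertex that is protected in step `i + 1` (no vertex is protected in this step if `σ i` is
`none`). In each step the fire spreads from the burning vertices to all their neighbours that
have not been protected in this or in an earlier step. -/
def Burning : ℕ → Set V
  | 0 => {s}
  | t + 1 => {v | v ∈ Burning t ∨ ((∃ u ∈ Burning t, G.Adj u v) ∧ ∀ i ≤ t, σ i ≠ some v)}

/-- `σ` is a strategy: the vertex protected in step `t + 1` is not on fire (after `t` steps). -/
def IsStrategy : Prop := ∀ t v, σ t = some v → v ∉ Burning G s σ t

/-- The vertices that burn at some time. -/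
def Burned : Set V := {v | ∃ t, v ∈ Burning G s σ t}

/-- The saved vertices: those that never burn. -/
def Saved : Set V := {v | ∀ t, v ∉ Burning G s σ t}

/-- The protected vertices. -/
def Protected : Set V := {v | ∃ t, σ t = some v}

end Process

/-! ### The three problems -/

/-- The graph with matrix `M` is a tree, and `s` is one of its vertices `0, …, M.length - 1`. -/
def IsTreeWith (M : List (List Bool)) (s : ℕ) : Prop := (graphOf M).IsTree ∧ s < M.length

/-- Saving `k` vertices, instances `(G, s, k)`: is there a strategy that saves at least `k`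
vertices? -/
def SavingK (x : List (List Bool) × ℕ × ℕ) : Prop :=
  ∃ (h : x.2.1 < x.1.length) (σ : ℕ → Option (Fin x.1.length)),
    IsStrategy (graphOf x.1) ⟨x.2.1, h⟩ σ ∧
    x.2.2 ≤ (Saved (graphOf x.1) ⟨x.2.1, h⟩ σ).ncard

/-- Saving all but `k` vertices, instances `(G, s, k)`: is there a strategy for which at most `k`
vertices burn? -/
def SavingAllBut (x : List (List Bool) × ℕ × ℕ) : Prop :=
  ∃ (h : x.2.1 < x.1.length) (σ : ℕ → Option (Fin x.1.length)),
    IsStrategy (graphOf x.1) ⟨x.2.1, h⟩ σ ∧
    (Burned (graphOf x.1) ⟨x.2.1, h⟩ σ).ncard ≤ x.2.2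

/-- Maximum `k`-vertex protection, decision variant, instances `(G, s, k, K)`: is there a strategy
that protects at most `k` vertices and saves at least `K` vertices? -/
def MaxProtection (x : List (List Bool) × ℕ × ℕ × ℕ) : Prop :=
  ∃ (h : x.2.1 < x.1.length) (σ : ℕ → Option (Fin x.1.length)),
    IsStrategy (graphOf x.1) ⟨x.2.1, h⟩ σ ∧
    (Protected σ).ncard ≤ x.2.2.1 ∧
    x.2.2.2 ≤ (Saved (graphOf x.1) ⟨x.2.1, h⟩ σ).ncard

/-! ### Running times -/

/-- Some Turing machine decides, on the instances `a` with the property `D`, whether `P a` holds,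
in at most `T a` steps. -/
def DecTime {α : Type} [TEnc α] (D P : α → Prop) (T : α → ℕ) : Prop :=
  ∃ (M : TM2ComputableAux Bool Bool) (d : α → Bool), ∀ a, D a →
    (d a = true ↔ P a) ∧ TmRuns M (bits a) (bits (d a)) (T a)

/-- `f(k) = o(k)`. -/
def LittleO (f : ℕ → ℕ) : Prop := ∀ m : ℕ, ∃ K : ℕ, ∀ k, K ≤ k → m * f k ≤ k

/-- `f(k) = o(k)`, effectively: the threshold is computable. -/
def EffLittleO (f : ℕ → ℕ) : Prop :=
  ∃ K : ℕ → ℕ, Computable K ∧ ∀ m k, K m ≤ k → m * f k ≤ k

/-- `k`-Clique is solvable in time `h k * n ^ O(1)` by one machine, for some function `h` (which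
need not be computable). -/
def CliqueUniformFpt : Prop :=
  ∃ (h : ℕ → ℕ) (p : Polynomial ℕ), DecTime (fun _ : List (List Bool) × ℕ => True) HasClique
    (fun x => h x.2 * p.eval (bits x).length)

end Pool.Agent.H683.FF
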