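import Pool.Agent.H683.FF.Exchange

/-!
# Depth-first search: the list of the vertices in preorder
-/

set_option autoImplicit false

namespace Pool.Agent.H683.FF

open Pool.Agent.NPC Pool.Agent.H633R2

/-- Adjacency. -/
def adjB (M : List (List Bool)) (u v : ℕ) : Bool :=
  !decide (u = v) && (entry M u v || entry M v u)

/-- The neighbours of `v` different from `p`. -/
def nb (M : List (List Bool)) (v p : ℕ) : List ℕ :=
  (List.range M.length).filter (fun c => adjB M v c && !decide (c = p))

/-- The states of the search: a stack of triples (vertex, parent, level), and the list of the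
visited vertices with their levels. -/
abbrev DState : Type := List (ℕ × ℕ × ℕ) × List (ℕ × ℕ)

/-- A step of depth-first search. -/
def dfsStep (M : List (List Bool)) (S : DState) : DState :=
  match S.1 with
  | [] => S
  | e :: st => ((nb M e.1 e.2.1).map (fun c => (c, e.1, e.2.2 + 1)) ++ st, (e.1, e.2.2) :: S.2)

/-- The visited vertices with their levels, the last one first. -/
def dfs (M : List (List Bool)) (s : ℕ) : List (ℕ × ℕ) :=
  ((dfsStep M)^[M.length] ([(s, M.length, 0)], [])).2

section

variable {V : Type} {G : SimpleGraph V} {s : V} {par : V → V} {lev : V → ℕ}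

/-- `v` may follow `u` in the preorder. -/
def Nx (s : V) (par : V → V) (lev : V → ℕ) (v u : V) : Prop :=
  v ≠ s ∧ lev v ≤ lev u + 1 ∧ par v = par^[lev u + 1 - lev v] u

/-- The invariant of the search. -/
structure DInv (s : V) (par : V → V) (lev : V → ℕ) (S O : List V) : Prop where
  nodup : (O ++ S).Nodup
  start : O = [] → S = [s]
  mem_s : s ∈ O ++ S
  children : ∀ v ∈ O, ∀ c, c ≠ s → par c = v → c ∈ O ++ S
  parents : ∀ c ∈ O ++ S, c ≠ s → par c ∈ O
  chain : O.IsChain (Nx s par lev)
  top : ∀ u O', O = u :: O' → ∀ v ∈ S, Nx s par lev v u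
  sorted : S.Pairwise (fun a b => lev b ≤ lev a)
  last : O ≠ [] → O.getLast? = some s

theorem DInv.init (s : V) (par : V → V) (lev : V → ℕ) : DInv s par lev [s] [] := by
  refine ⟨by simp, fun _ => rfl, by simp, by simp, ?_, List.IsChain.nil, by simp, by simp,
    by simp⟩
  intro c hc hs
  simp at hc
  exact absurd hc hs

theorem DInv.step (hR : Rooted G s par lev) {S O : List V} {v : V}
    (h : DInv s par lev (v :: S) O) {C : List V} (hC : C.Nodup)
    (hC' : ∀ c, c ∈ C ↔ c ≠ s ∧ par c = v) : DInv s par lev (C ++ S) (v :: O) := by
  have hvO : v ∉ O := by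
    intro hv
    have := h.nodup
    rw [List.nodup_append] at this
    exact this.2.2 v hv v (by simp) rfl
  have hlv : ∀ c ∈ C, lev c = lev v + 1 := by
    intro c hc
    obtain ⟨h1, h2⟩ := (hC' c).1 hc
    rw [hR.lev_par c h1, h2]
  have hCn : ∀ c ∈ C, c ∉ O ++ v :: S := by
    intro c hc hc'
    obtain ⟨h1, h2⟩ := (hC' c).1 hc
    have := h.parents c hc' h1
    rw [h2] at this
    exact hvO this
  have htop : ∀ w ∈ S, Nx s par lev w v := by
    intro w hw
    cases hO : O with
    | nil =>
      have := h.start hO
      simp only [List.cons.injEq] at this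
      rw [this.2] at hw
      simp at hw
    | cons u O' =>
      obtain ⟨w1, w2, w3⟩ := h.top u O' hO w (by simp [hw])
      obtain ⟨v1, v2, v3⟩ := h.top u O' hO v (by simp)
      have h1 : lev w ≤ lev v := (List.pairwise_cons.1 h.sorted).1 w hw
      refine ⟨w1, by omega, ?_⟩
      have e : lev v + 1 - lev w = (lev v - lev w) + 1 := by omega
      rw [e, Function.iterate_succ_apply, v3, ← Function.iterate_add_apply, w3]
      congr 2
      omega
  refine ⟨?_, by simp, ?_, ?_, ?_, ?_, ?_, ?_, ?_⟩
  · have h1 := h.nodup
    rw [List.nodup_append] at h1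
    obtain ⟨h2, h3, h4⟩ := h1
    rw [List.nodup_cons] at h3
    rw [List.cons_append, List.nodup_cons, List.nodup_append, List.nodup_append]
    refine ⟨?_, h2, ⟨hC, h3.2, ?_⟩, ?_⟩
    · rw [List.mem_append, List.mem_append]
      rintro (h5 | h5 | h5)
      · exact hvO h5
      · exact hCn v h5 (by simp)
      · exact h3.1 h5
    · rintro a ha b hb rfl
      exact hCn a ha (by simp [hb])
    · rintro a ha b hb rfl
      rw [List.mem_append] at hb
      rcases hb with hb | hb
      · exact hCn a hb (by simp [ha])
      · exact h4 a ha a (by simp [hb]) rfl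
  · have := h.mem_s
    simp only [List.mem_append, List.mem_cons] at this ⊢
    tauto
  · intro u hu c hc hcu
    rw [List.mem_cons] at hu
    rcases hu with rfl | hu
    · have := (hC' c).2 ⟨hc, hcu⟩
      simp [this]
    · have := h.children u hu c hc hcu
      simp only [List.mem_append, List.mem_cons] at this ⊢
      tauto
  · intro c hc hcs
    simp only [List.cons_append, List.mem_append, List.mem_cons] at hc
    rcases hc with hc | hc | hc | hc
    · subst hc
      have := h.parents c (by simp) hcs
      simp [this]
    · have := h.parents c (by simp [hc]) hcs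
      simp [this]
    · rw [((hC' c).1 hc).2]
      simp
    · have := h.parents c (by simp [hc]) hcs
      simp [this]
  · cases hO : O with
    | nil => exact List.IsChain.singleton _
    | cons u O' =>
      have h1 := h.chain
      rw [hO] at h1
      exact List.IsChain.cons_cons (h.top u O' hO v (by simp)) h1
  · intro u O' hu w hw
    simp only [List.cons.injEq] at hu
    obtain ⟨rfl, _⟩ := hu
    rw [List.mem_append] at hw
    rcases hw with hw | hw
    · obtain ⟨h1, h2⟩ := (hC' w).1 hw
      have h3 := hlv w hw
      refine ⟨h1, h3.le, ?_⟩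
      rw [h3, Nat.sub_self, h2]
      rfl
    · exact htop w hw
  · have h1 := List.pairwise_cons.1 h.sorted
    rw [List.pairwise_append]
    refine ⟨?_, h1.2, ?_⟩
    · refine List.Pairwise.imp_of_mem (R := fun _ _ => True) ?_ (List.pairwise_of_forall
        fun _ _ => trivial)
      intro a b ha hb _
      rw [hlv a ha, hlv b hb]
    · intro a ha b hb
      have h2 := h1.1 b hb
      rw [hlv a ha]
      omega
  · intro _
    cases hO : O with
    | nil =>
      have := h.start hO
      simp only [List.cons.injEq] at this
      simp [this.1]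
    | cons u O' =>
      have h1 := h.last (by simp [hO])
      rw [hO] at h1
      rw [List.getLast?_cons_cons]
      exact h1

end

/-- The parent as a number. -/
noncomputable def parN {n : ℕ} (s : Fin n) (par : Fin n → Fin n) (v : Fin n) : ℕ :=
  open Classical in if v = s then n else (par v).1

/-- The coded state. -/
noncomputable def code {n : ℕ} (s : Fin n) (par : Fin n → Fin n) (lev : Fin n → ℕ)
    (S O : List (Fin n)) : DState :=
  (S.map (fun v => (v.1, parN s par v, lev v)), O.map (fun v => (v.1, lev v)))

section

variable {M : List (List Bool)} {s : Fin M.length} {par : Fin M.length → Fin M.length}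
  {lev : Fin M.length → ℕ}

/-- The children of a vertex. -/
noncomputable def chl (s : Fin M.length) (par : Fin M.length → Fin M.length)
    (v : Fin M.length) : List (Fin M.length) :=
  open Classical in (List.finRange M.length).filter (fun c => c ≠ s ∧ par c = v)

theorem mem_chl {v c : Fin M.length} : c ∈ chl s par v ↔ c ≠ s ∧ par c = v := by
  classical
  unfold chl
  simp

theorem chl_nodup (v : Fin M.length) : (chl s par v).Nodup := by
  unfold chl
  exact (List.nodup_finRange _).filter _

theorem adjB_iff (u v : Fin M.length) : adjB M u v = true ↔ (graphOf M).Adj u v := by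
  unfold adjB
  simp only [Bool.and_eq_true, Bool.not_eq_true', decide_eq_false_iff_not, Bool.or_eq_true]
  change _ ↔ u ≠ v ∧ (entry M u v = true ∨ entry M v u = true)
  rw [ne_eq, Fin.ext_iff]

theorem nb_eq (hR : Rooted (graphOf M) s par lev) (v : Fin M.length) :
    nb M v (parN s par v) = (chl s par v).map Fin.val := by
  classical
  unfold nb chl
  rw [← List.map_coe_finRange_eq_range, List.filter_map]
  congr 1
  refine List.filter_congr fun c _ => ?_
  rw [Bool.eq_iff_iff]
  simp only [Function.comp_apply, Bool.and_eq_true, Bool.not_eq_true',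
    decide_eq_false_iff_not, decide_eq_true_eq]
  rw [adjB_iff, hR.adj]
  unfold parN
  constructor
  · rintro ⟨⟨h1, h2⟩ | ⟨h1, h2⟩, h3⟩
    · exact ⟨h1, h2.symm⟩
    · rw [if_neg h1, h2] at h3
      exact absurd rfl h3
  · rintro ⟨h1, h2⟩
    refine ⟨Or.inl ⟨h1, h2.symm⟩, ?_⟩
    split_ifs with h3
    · have := c.2
      omega
    · intro h4
      have h5 : c = par v := Fin.ext h4
      have h6 := hR.lev_par c h1
      have h7 := hR.lev_par v h3
      rw [h2] at h6
      rw [← h5] at h7
      omega

theorem dfsStep_code (hR : Rooted (graphOf M) s par lev) (v : Fin M.length)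
    (S O : List (Fin M.length)) :
    dfsStep M (code s par lev (v :: S) O) = code s par lev (chl s par v ++ S) (v :: O) := by
  unfold dfsStep code
  simp only [List.map_cons, List.map_append]
  rw [nb_eq hR, List.map_map]
  congr 2
  refine List.map_congr_left fun c hc => ?_
  obtain ⟨h1, h2⟩ := mem_chl.1 hc
  simp only [Function.comp_apply]
  unfold parN
  rw [if_neg h1, hR.lev_par c h1, h2]

theorem dfs_iterate (hR : Rooted (graphOf M) s par lev) (k : ℕ) :
    ∃ S O : List (Fin M.length), (dfsStep M)^[k] ([(s.1, M.length, 0)], []) =
      code s par lev S O ∧ DInv s par lev S O ∧ (S = [] ∨ O.length = k) := by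
  induction k with
  | zero =>
    refine ⟨[s], [], ?_, DInv.init _ _ _, Or.inr rfl⟩
    unfold code parN
    simp [hR.lev_root]
  | succ k ih =>
    obtain ⟨S, O, h1, h2, h3⟩ := ih
    rw [Function.iterate_succ_apply', h1]
    cases S with
    | nil => exact ⟨[], O, rfl, h2, Or.inl rfl⟩
    | cons v S =>
      refine ⟨_, _, dfsStep_code hR v S O, h2.step hR (chl_nodup v) (fun c => mem_chl),
        Or.inr ?_⟩
      rcases h3 with h3 | h3
      · simp at h3
      · simp [h3]

/-- The list of depth-first search. -/
theorem dfs_spec (hR : Rooted (graphOf M) s par lev) :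
    ∃ O : List (Fin M.length), dfs M s.1 = O.map (fun v => (v.1, lev v)) ∧ O.Nodup ∧
      (∀ v, v ∈ O) ∧ O.IsChain (Nx s par lev) ∧ O.getLast? = some s ∧ O ≠ [] := by
  obtain ⟨S, O, h1, h2, h3⟩ := dfs_iterate hR M.length
  have hS : S = [] := by
    rcases h3 with h3 | h3
    · exact h3
    · have h4 := h2.nodup.length_le_card
      rw [List.length_append, Fintype.card_fin, h3] at h4
      exact List.length_eq_zero_iff.1 (by omega)
  subst hS
  have hn := h2.nodup
  have hs := h2.mem_s
  have hc := h2.children
  rw [List.append_nil] at hn hs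
  simp only [List.append_nil] at hc
  have hall : ∀ l v, lev v = l → v ∈ O := by
    intro l
    induction l with
    | zero =>
      intro v hv
      rw [hR.root_of_lev v hv]
      exact hs
    | succ l ih =>
      intro v hv
      have hvs := hR.ne_root (w := v) (by omega)
      have h4 := hR.lev_par v hvs
      exact hc _ (ih (par v) (by omega)) v hvs rfl
  have hne : O ≠ [] := by
    rintro rfl
    simp at hs
  refine ⟨O, ?_, hn, fun v => hall _ v rfl, h2.chain, h2.last hne, hne⟩
  unfold dfs
  rw [h1]
  rfl

end

end Pool.Agent.H683.FF
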