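import Pool.Agent.H683.FF.Dfs

/-!
# Dynamic programming over the levels of the vertices in preorder
-/

set_option autoImplicit false

namespace Pool.Agent.H683.FF

/-- The states `(c, X, W)`: `c` is the level of the protected ancestor of the last vertex (`0` if
the last vertex burns), `X` marks the levels of the protected vertices and `W` is the number of
saved vertices. -/
abbrev St : Type := ℕ × (List Bool × ℕ)

/-- Marking the level `l`. -/
def mark (X : List Bool) (l : ℕ) : List Bool :=
  X.zipIdx.map (fun q => q.1 || decide (q.2 = l))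

theorem mark_length (X : List Bool) (l : ℕ) : (mark X l).length = X.length := by simp [mark]

theorem getD_mark {X : List Bool} {l : ℕ} (hl : l < X.length) (j : ℕ) :
    (mark X l).getD j false = (X.getD j false || decide (j = l)) := by
  rcases Nat.lt_or_ge j X.length with h | h
  · rw [List.getD_eq_getElem _ _ (by rw [mark_length]; exact h), List.getD_eq_getElem _ _ h]
    simp [mark]
  · rw [List.getD_eq_default _ _ (by rw [mark_length]; exact h), List.getD_eq_default _ _ h]
    have : j ≠ l := by omega
    simp [this]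

theorem getD_repl (n l : ℕ) : (List.replicate n false).getD l false = false := by
  rw [List.getD_eq_getElem?_getD, List.getElem?_replicate]
  split_ifs <;> rfl

/-- The possible moves from a state if the next vertex has level `l`. -/
def mvs (m l : ℕ) (t : St) : List St :=
  if 0 < t.1 ∧ t.1 < l then [(t.1, t.2.1, t.2.2 + 1)]
  else (0, t.2.1, t.2.2) ::
    (if 1 ≤ l ∧ l ≤ m ∧ t.2.1.getD l false = false then [(l, mark t.2.1 l, t.2.2 + 1)] else [])

/-- Removing repetitions. -/
def dedS (l : List St) : List St :=
  l.foldr (fun x acc => if x ∈ acc then acc else x :: acc) []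

theorem dedS_eq (l : List St) : dedS l = l.dedup := by
  induction l with
  | nil => rfl
  | cons x l ih =>
    have h1 : dedS (x :: l) = if x ∈ dedS l then dedS l else x :: dedS l := rfl
    rw [h1, ih]
    by_cases h : x ∈ l
    · rw [List.dedup_cons_of_mem h, if_pos (List.mem_dedup.2 h)]
    · rw [List.dedup_cons_of_notMem h, if_neg (fun h' => h (List.mem_dedup.1 h'))]

/-- The states after the next vertex. -/
def dpStep (m l : ℕ) (S : List St) : List St := dedS (S.flatMap (mvs m l))

/-- The initial state. -/
def st0 (m : ℕ) : List St := [(0, List.replicate (m + 1) false, 0)]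

/-- The states after all vertices (the last vertex is the head of the list). -/
def dp (m : ℕ) (ls : List ℕ) : List St := ls.foldr (dpStep m) (st0 m)

theorem mem_dpStep {m l : ℕ} {S : List St} {t : St} : t ∈ dpStep m l S ↔
    ∃ c X W, (c, X, W) ∈ S ∧
      ((0 < c ∧ c < l ∧ t = (c, X, W + 1)) ∨ (¬ (0 < c ∧ c < l) ∧ t = (0, X, W)) ∨
      (¬ (0 < c ∧ c < l) ∧ 1 ≤ l ∧ l ≤ m ∧ X.getD l false = false ∧
        t = (l, mark X l, W + 1))) := by
  unfold dpStep
  rw [dedS_eq, List.mem_dedup, List.mem_flatMap]
  constructor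
  · rintro ⟨⟨c, X, W⟩, h1, h2⟩
    refine ⟨c, X, W, h1, ?_⟩
    unfold mvs at h2
    simp only at h2
    split_ifs at h2 with h3 h4
    · left
      simp only [List.mem_singleton] at h2
      exact ⟨h3.1, h3.2, h2⟩
    · right
      simp only [List.mem_cons, List.not_mem_nil, or_false] at h2
      rcases h2 with h2 | h2
      · exact Or.inl ⟨h3, h2⟩
      · exact Or.inr ⟨h3, h4.1, h4.2.1, h4.2.2, h2⟩
    · right
      simp only [List.mem_cons, List.not_mem_nil, or_false] at h2
      exact Or.inl ⟨h3, h2⟩
  · rintro ⟨c, X, W, h1, h2⟩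
    refine ⟨(c, X, W), h1, ?_⟩
    unfold mvs
    simp only
    rcases h2 with ⟨h3, h4, h5⟩ | ⟨h3, h4⟩ | ⟨h3, h4, h5, h6, h7⟩
    · rw [if_pos ⟨h3, h4⟩]
      simp [h5]
    · rw [if_neg h3]
      simp [h4]
    · rw [if_neg h3, if_pos ⟨h4, h5, h6⟩]
      simp [h7]

section

variable {V : Type} {G : SimpleGraph V} {s : V} {par : V → V} {lev : V → ℕ}

/-- The first component of the state describes the last vertex `u`. -/
def HC (par : V → V) (lev : V → ℕ) (B : Set V) (u : V) (c : ℕ) : Prop :=
  (c = 0 ∧ u ∈ B) ∨ (0 < c ∧ c ≤ lev u ∧ ∀ i ≤ lev u, (par^[i] u ∈ B ↔ lev u - i < c))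

theorem lev_pos (hR : Rooted G s par lev) {v : V} (h : v ≠ s) : 0 < lev v := by
  rw [hR.lev_par v h]
  omega

theorem HC.par_iff (hR : Rooted G s par lev) {B : Set V}
    (hc : ∀ v, v ∈ B → v ≠ s → par v ∈ B) {u v : V} {c : ℕ} (hN : Nx s par lev v u)
    (h : HC par lev B u c) : par v ∈ B ↔ ¬ (0 < c ∧ c < lev v) := by
  obtain ⟨h1, h2, h3⟩ := hN
  have h4 := lev_pos hR h1
  rw [h3]
  rcases h with ⟨h5, h6⟩ | ⟨h5, h6, h7⟩
  · have h8 := iter_closed hR hc (lev u + 1 - lev v) u (by omega) h6
    simp only [h8, true_iff]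
    omega
  · rw [h7 _ (by omega)]
    omega

theorem HC.covered (hR : Rooted G s par lev) {B : Set V}
    (hc : ∀ v, v ∈ B → v ≠ s → par v ∈ B) {u v : V} {c : ℕ} (hN : Nx s par lev v u)
    (h : HC par lev B u c) (hp : par v ∉ B) (hv : v ∉ B) : HC par lev B v c := by
  have h0 := h.par_iff hR hc hN
  obtain ⟨h1, h2, h3⟩ := hN
  have h4 := lev_pos hR h1
  have h9 : 0 < c ∧ c < lev v := by
    by_contra h10
    exact hp (h0.2 h10)
  rcases h with ⟨h5, h6⟩ | ⟨h5, h6, h7⟩
  · omega
  · refine Or.inr ⟨h5, by omega, ?_⟩
    intro i hi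
    cases i with
    | zero =>
      simp only [Function.iterate_zero, id_eq, Nat.sub_zero]
      exact iff_of_false hv (by omega)
    | succ j =>
      rw [Function.iterate_succ_apply, h3, ← Function.iterate_add_apply, h7 _ (by omega)]
      omega

theorem HC.cut (hR : Rooted G s par lev) {B : Set V}
    (hc : ∀ v, v ∈ B → v ≠ s → par v ∈ B) {v : V} (hs : v ≠ s) (hp : par v ∈ B) (hv : v ∉ B) :
    HC par lev B v (lev v) := by
  have h4 := lev_pos hR hs
  have h5 := hR.lev_par v hs
  refine Or.inr ⟨h4, le_rfl, ?_⟩
  intro i hi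
  cases i with
  | zero =>
    simp only [Function.iterate_zero, id_eq, Nat.sub_zero]
    exact iff_of_false hv (by omega)
  | succ j =>
    rw [Function.iterate_succ_apply]
    exact iff_of_true (iter_closed hR hc j (par v) (by omega) hp) (by omega)

open Classical in
theorem dp_complete (hR : Rooted G s par lev) {B : Set V} (hB : Normal s par lev B) {m : ℕ}
    (hm : ∀ v, v ∉ B → par v ∈ B → lev v ≤ m) : ∀ (O : List V), O ≠ [] →
    O.IsChain (Nx s par lev) → O.getLast? = some s → O.Nodup →
    ∃ c X W, (c, X, W) ∈ dp m (O.map lev) ∧ X.length = m + 1 ∧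
      (∀ l, X.getD l false = true → ∃ v ∈ O, v ∉ B ∧ par v ∈ B ∧ lev v = l) ∧
      W = (O.filter (fun v => decide (v ∉ B))).length ∧
      ∀ u O', O = u :: O' → HC par lev B u c
  | [], h, _, _, _ => absurd rfl h
  | [v], _, _, hl, _ => by
    simp only [List.getLast?_singleton, Option.some.injEq] at hl
    subst hl
    refine ⟨0, List.replicate (m + 1) false, 0, ?_, by simp, ?_, ?_, ?_⟩
    · change _ ∈ dpStep m (lev v) (st0 m)
      rw [mem_dpStep]
      refine ⟨0, List.replicate (m + 1) false, 0, by simp [st0], Or.inr (Or.inl ⟨by omega, rfl⟩)⟩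
    · intro l hl
      exfalso
      rw [getD_repl] at hl
      simp at hl
    · simp [hB.root]
    · intro u O' hu
      simp only [List.cons.injEq] at hu
      rw [← hu.1]
      exact Or.inl ⟨rfl, hB.root⟩
  | v :: u :: O'', _, hch, hl, hn => by
    have hch' := List.isChain_cons_cons.1 hch
    obtain ⟨c, X, W, h1, h2, h3, h4, h5⟩ := dp_complete hR hB hm (u :: O'') (by simp) hch'.2
      (by rwa [List.getLast?_cons_cons] at hl) (List.nodup_cons.1 hn).2
    have hN := hch'.1
    have hHC := h5 u O'' rfl
    have hpi := hHC.par_iff hR hB.closed hN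
    have hvn := (List.nodup_cons.1 hn).1
    by_cases hv : v ∈ B
    · refine ⟨0, X, W, ?_, h2, ?_, ?_, ?_⟩
      · change _ ∈ dpStep m (lev v) (dp m ((u :: O'').map lev))
        rw [mem_dpStep]
        exact ⟨c, X, W, h1, Or.inr (Or.inl ⟨hpi.1 (hB.closed v hv hN.1), rfl⟩)⟩
      · intro l hl
        obtain ⟨w, hw, h6⟩ := h3 l hl
        exact ⟨w, List.mem_cons_of_mem _ hw, h6⟩
      · rw [List.filter_cons_of_neg (by simpa using hv)]
        exact h4
      · intro u' O' hu
        simp only [List.cons.injEq] at hu
        rw [← hu.1]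
        exact Or.inl ⟨rfl, hv⟩
    · by_cases hp : par v ∈ B
      · have hlm := hm v hv hp
        have hl1 := lev_pos hR hN.1
        have hX : X.getD (lev v) false = false := by
          by_contra hcon
          obtain ⟨w, hw, h6, h7, h8⟩ := h3 (lev v) (by simpa using hcon)
          have := hB.cut w v h6 hv h7 hp h8
          subst this
          exact hvn hw
        refine ⟨lev v, mark X (lev v), W + 1, ?_, ?_, ?_, ?_, ?_⟩
        · change _ ∈ dpStep m (lev v) (dp m ((u :: O'').map lev))
          rw [mem_dpStep]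
          exact ⟨c, X, W, h1, Or.inr (Or.inr ⟨hpi.1 hp, hl1, hlm, hX, rfl⟩)⟩
        · rw [mark_length, h2]
        · intro l hl
          rw [getD_mark (by omega)] at hl
          simp only [Bool.or_eq_true, decide_eq_true_eq] at hl
          rcases hl with hl | hl
          · obtain ⟨w, hw, h6⟩ := h3 l hl
            exact ⟨w, List.mem_cons_of_mem _ hw, h6⟩
          · exact ⟨v, by simp, hv, hp, hl.symm⟩
        · rw [List.filter_cons_of_pos (by simpa using hv), List.length_cons, ← h4]
        · intro u' O' hu
          simp only [List.cons.injEq] at hu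
          rw [← hu.1]
          exact HC.cut hR hB.closed hN.1 hp hv
      · have hcov : 0 < c ∧ c < lev v := by
          by_contra h10
          exact hp (hpi.2 h10)
        refine ⟨c, X, W + 1, ?_, h2, ?_, ?_, ?_⟩
        · change _ ∈ dpStep m (lev v) (dp m ((u :: O'').map lev))
          rw [mem_dpStep]
          exact ⟨c, X, W, h1, Or.inl ⟨hcov.1, hcov.2, rfl⟩⟩
        · intro l hl
          obtain ⟨w, hw, h6⟩ := h3 l hl
          exact ⟨w, List.mem_cons_of_mem _ hw, h6⟩
        · rw [List.filter_cons_of_pos (by simpa using hv), List.length_cons, ← h4]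
        · intro u' O' hu
          simp only [List.cons.injEq] at hu
          rw [← hu.1]
          exact hHC.covered hR hB.closed hN hp hv

/-- The list is closed under parents. -/
theorem chain_closed (hR : Rooted G s par lev) : ∀ (O : List V), O ≠ [] →
    O.IsChain (Nx s par lev) → O.getLast? = some s → ∀ v ∈ O, v ≠ s → par v ∈ O
  | [], h, _, _ => absurd rfl h
  | [v], _, _, hl => by
    simp only [List.getLast?_singleton, Option.some.injEq] at hl
    intro w hw hs
    simp only [List.mem_singleton] at hw
    exact absurd (hw.trans hl) hs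
  | v :: u :: O'', _, hch, hl => by
    have hch' := List.isChain_cons_cons.1 hch
    have ih := chain_closed hR (u :: O'') (by simp) hch'.2
      (by rwa [List.getLast?_cons_cons] at hl)
    intro w hw hs
    rw [List.mem_cons] at hw
    rcases hw with rfl | hw
    · obtain ⟨h1, h2, h3⟩ := hch'.1
      have h4 := lev_pos hR h1
      refine List.mem_cons_of_mem _ ?_
      rw [h3]
      exact iter_closed (B := {x | x ∈ u :: O''}) hR (fun x hx hs => ih x hx hs) _ u (by omega)
        (by simp)
    · exact List.mem_cons_of_mem _ (ih w hw hs)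

/-- What a state means. -/
structure Snd (s : V) (par : V → V) (lev : V → ℕ) (m : ℕ) (O : List V) (B : Set V) (c : ℕ)
    (X : List Bool) (W : ℕ) : Prop where
  sub : ∀ v ∈ B, v ∈ O
  root : s ∈ B
  closed : ∀ v, v ∈ B → v ≠ s → par v ∈ B
  cutX : ∀ v ∈ O, v ∉ B → par v ∈ B → lev v ≤ m ∧ X.getD (lev v) false = true
  uniq : ∀ u ∈ O, ∀ v ∈ O, u ∉ B → v ∉ B → par u ∈ B → par v ∈ B → lev u = lev v → u = v
  count : W + B.ncard = O.length
  len : X.length = m + 1
  head : ∀ u O', O = u :: O' → HC par lev B u c

theorem HC.congr {B B' : Set V} {u : V} {c : ℕ} (h : HC par lev B u c)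
    (hB : ∀ i ≤ lev u, (par^[i] u ∈ B ↔ par^[i] u ∈ B')) : HC par lev B' u c := by
  rcases h with ⟨h1, h2⟩ | ⟨h1, h2, h3⟩
  · exact Or.inl ⟨h1, (hB 0 (Nat.zero_le _)).1 h2⟩
  · exact Or.inr ⟨h1, h2, fun i hi => (hB i hi).symm.trans (h3 i hi)⟩

theorem dp_sound [Finite V] (hR : Rooted G s par lev) {m : ℕ} : ∀ (O : List V), O ≠ [] →
    O.IsChain (Nx s par lev) → O.getLast? = some s → O.Nodup →
    ∀ c X W, (c, X, W) ∈ dp m (O.map lev) → ∃ B, Snd s par lev m O B c X W
  | [], h, _, _, _ => absurd rfl h
  | [v], _, _, hl, _ => by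
    simp only [List.getLast?_singleton, Option.some.injEq] at hl
    subst hl
    intro c X W h
    change _ ∈ dpStep m (lev v) (st0 m) at h
    rw [mem_dpStep] at h
    obtain ⟨c', X', W', h1, h2⟩ := h
    simp only [st0, List.mem_singleton, Prod.mk.injEq] at h1
    obtain ⟨rfl, rfl, rfl⟩ := h1
    rw [hR.lev_root] at h2
    have h3 : c = 0 ∧ X = List.replicate (m + 1) false ∧ W = 0 := by
      rcases h2 with h2 | h2 | h2
      · omega
      · simpa using h2.2
      · omega
    obtain ⟨rfl, rfl, rfl⟩ := h3
    refine ⟨{v}, ?_, rfl, ?_, ?_, ?_, ?_, by simp, ?_⟩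
    · intro w hw
      simpa using hw
    · intro w hw hs
      exact absurd hw hs
    · intro w hw hw'
      exact absurd (List.mem_singleton.1 hw) hw'
    · intro w hw _ _ hw'
      exact absurd (List.mem_singleton.1 hw) hw'
    · simp
    · intro u O' hu
      simp only [List.cons.injEq] at hu
      rw [← hu.1]
      exact Or.inl ⟨rfl, rfl⟩
  | v :: u :: O'', _, hch, hl, hn => by
    have hch' := List.isChain_cons_cons.1 hch
    have hl' : (u :: O'').getLast? = some s := by rwa [List.getLast?_cons_cons] at hl
    have hn' := (List.nodup_cons.1 hn).2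
    have hvn := (List.nodup_cons.1 hn).1
    have hN := hch'.1
    have hcl := chain_closed hR (u :: O'') (by simp) hch'.2 hl'
    intro c X W h
    change _ ∈ dpStep m (lev v) (dp m ((u :: O'').map lev)) at h
    rw [mem_dpStep] at h
    obtain ⟨c', X', W', h1, h2⟩ := h
    obtain ⟨B, hS⟩ := dp_sound hR (u :: O'') (by simp) hch'.2 hl' hn' c' X' W' h1
    have hHC := hS.head u O'' rfl
    have hpi := hHC.par_iff hR hS.closed hN
    have hvB : v ∉ B := fun h => hvn (hS.sub v h)
    have hl1 := lev_pos hR hN.1
    rcases h2 with ⟨h3, h4, h5⟩ | ⟨h3, h5⟩ | ⟨h3, h4, h6, h7, h5⟩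
    · -- the vertex is saved by an ancestor
      simp only [Prod.mk.injEq] at h5
      obtain ⟨rfl, rfl, rfl⟩ := h5
      have hp : par v ∉ B := fun h => hpi.1 h ⟨h3, h4⟩
      refine ⟨B, ?_, hS.root, hS.closed, ?_, ?_, ?_, hS.len, ?_⟩
      · exact fun w hw => List.mem_cons_of_mem _ (hS.sub w hw)
      · intro w hw hwB hpw
        rw [List.mem_cons] at hw
        rcases hw with rfl | hw
        · exact absurd hpw hp
        · exact hS.cutX w hw hwB hpw
      · intro w hw w' hw' h8 h9 h10 h11 h12
        rw [List.mem_cons] at hw hw'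
        rcases hw with rfl | hw
        · exact absurd h10 hp
        · rcases hw' with rfl | hw'
          · exact absurd h11 hp
          · exact hS.uniq w hw w' hw' h8 h9 h10 h11 h12
      · have := hS.count
        simp only [List.length_cons] at this ⊢
        omega
      · intro u' O' hu
        simp only [List.cons.injEq] at hu
        rw [← hu.1]
        exact hHC.covered hR hS.closed hN hp hvB
    · -- the vertex burns
      simp only [Prod.mk.injEq] at h5
      obtain ⟨rfl, rfl, rfl⟩ := h5
      have hp : par v ∈ B := hpi.2 h3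
      have hpar : ∀ w ∈ u :: O'', w ≠ s → par w ∈ insert v B → par w ∈ B := by
        intro w hw hs h
        rw [Set.mem_insert_iff] at h
        rcases h with h | h
        · exact absurd (h ▸ hcl w hw hs) hvn
        · exact h
      have hcase : ∀ w ∈ v :: u :: O'', w ∉ insert v B → w ∈ u :: O'' ∧ w ∉ B ∧ w ≠ s := by
        intro w hw hwB
        rw [Set.mem_insert_iff, not_or] at hwB
        rw [List.mem_cons] at hw
        refine ⟨hw.resolve_left hwB.1, hwB.2, fun h => hwB.2 (h ▸ hS.root)⟩
      refine ⟨insert v B, ?_, Or.inr hS.root, ?_, ?_, ?_, ?_, hS.len, ?_⟩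
      · intro w hw
        rcases hw with rfl | hw
        · simp
        · exact List.mem_cons_of_mem _ (hS.sub w hw)
      · intro w hw hs
        rcases hw with rfl | hw
        · exact Or.inr hp
        · exact Or.inr (hS.closed w hw hs)
      · intro w hw hwB hpw
        obtain ⟨h8, h9, h10⟩ := hcase w hw hwB
        exact hS.cutX w h8 h9 (hpar w h8 h10 hpw)
      · intro w hw w' hw' h8 h9 h10 h11 h12
        obtain ⟨a1, a2, a3⟩ := hcase w hw h8
        obtain ⟨b1, b2, b3⟩ := hcase w' hw' h9
        exact hS.uniq w a1 w' b1 a2 b2 (hpar w a1 a3 h10) (hpar w' b1 b3 h11) h12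
      · have := hS.count
        rw [Set.ncard_insert_of_notMem hvB (Set.toFinite _)]
        simp only [List.length_cons] at this ⊢
        omega
      · intro u' O' hu
        simp only [List.cons.injEq] at hu
        rw [← hu.1]
        exact Or.inl ⟨rfl, Or.inl rfl⟩
    · -- the vertex is protected
      simp only [Prod.mk.injEq] at h5
      obtain ⟨rfl, rfl, rfl⟩ := h5
      have hp : par v ∈ B := hpi.2 h3
      refine ⟨B, ?_, hS.root, hS.closed, ?_, ?_, ?_, ?_, ?_⟩
      · exact fun w hw => List.mem_cons_of_mem _ (hS.sub w hw)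
      · intro w hw hwB hpw
        have hlen := hS.len
        rw [getD_mark (by omega)]
        rw [List.mem_cons] at hw
        rcases hw with rfl | hw
        · simp [h6]
        · obtain ⟨h8, h9⟩ := hS.cutX w hw hwB hpw
          exact ⟨h8, by rw [h9]; rfl⟩
      · intro w hw w' hw' h8 h9 h10 h11 h12
        rw [List.mem_cons] at hw hw'
        rcases hw with rfl | hw <;> rcases hw' with rfl | hw'
        · rfl
        · exfalso
          have h13 := (hS.cutX w' hw' h9 h11).2
          rw [← h12, h7] at h13
          simp at h13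
        · exfalso
          have h13 := (hS.cutX w hw h8 h10).2
          rw [h12, h7] at h13
          simp at h13
        · exact hS.uniq w hw w' hw' h8 h9 h10 h11 h12
      · have := hS.count
        simp only [List.length_cons] at this ⊢
        omega
      · rw [mark_length, hS.len]
      · intro u' O' hu
        simp only [List.cons.injEq] at hu
        rw [← hu.1]
        exact HC.cut hR hS.closed hN.1 hp hvB

end

end Pool.Agent.H683.FF
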