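import Pool.Agent.H683.FF.Rooted

/-!
# The exchange argument

If at least `k` vertices can be saved and `2 * k ≤ m * (m + 1)`, then at least `k` vertices can be
saved by protecting one vertex in each of the levels `1, …, m`.
-/

set_option autoImplicit false

namespace Pool.Agent.H683.FF

variable {V : Type} {G : SimpleGraph V} {s : V} {par : V → V} {lev : V → ℕ}

theorem Rooted.ne_root (hR : Rooted G s par lev) {w : V} (h : 0 < lev w) : w ≠ s := by
  rintro rfl
  rw [hR.lev_root] at h
  omega

theorem Rooted.lev_iter (hR : Rooted G s par lev) : ∀ (i : ℕ) (w : V), i ≤ lev w →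
    lev (par^[i] w) = lev w - i
  | 0, w, _ => rfl
  | i + 1, w, h => by
    have h1 := hR.lev_par w (hR.ne_root (by omega))
    rw [Function.iterate_succ_apply, hR.lev_iter i (par w) (by omega)]
    omega

theorem iter_closed (hR : Rooted G s par lev) {B : Set V}
    (hc : ∀ v, v ∈ B → v ≠ s → par v ∈ B) : ∀ (i : ℕ) (w : V), i ≤ lev w → w ∈ B → par^[i] w ∈ B
  | 0, _, _, h => h
  | i + 1, w, hi, h => by
    have h0 := hR.ne_root (w := w) (by omega)
    have h1 := hR.lev_par w h0
    rw [Function.iterate_succ_apply]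
    exact iter_closed hR hc i (par w) (by omega) (hc w h h0)

/-- The vertices whose protected ancestor has level `i`. -/
def DSet (par : V → V) (lev : V → ℕ) (B : Set V) (i : ℕ) : Set V :=
  {w | i ≤ lev w ∧ par^[lev w - i] w ∉ B ∧ par^[lev w - i + 1] w ∈ B}

theorem DSet_sub (hR : Rooted G s par lev) {B : Set V} (hB : Normal s par lev B) {i : ℕ} :
    DSet par lev B i ⊆ Bᶜ := by
  rintro w ⟨_, h2, _⟩ hw
  exact h2 (iter_closed hR hB.closed _ w (by omega) hw)

theorem DSet_disj (hR : Rooted G s par lev) {B : Set V} (hB : Normal s par lev B) {i j : ℕ}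
    (hij : i < j) {w : V} (hi : w ∈ DSet par lev B i) (hj : w ∈ DSet par lev B j) : False := by
  obtain ⟨_, h2, _⟩ := hi
  obtain ⟨h4, _, h6⟩ := hj
  apply h2
  have e : lev w - i = (j - 1 - i) + (lev w - j + 1) := by omega
  rw [e, Function.iterate_add_apply]
  refine iter_closed hR hB.closed _ _ ?_ h6
  rw [hR.lev_iter _ _ (by omega)]
  omega

/-- The new burned set when the vertex `a` of level `i` is protected instead. -/
def newB (par : V → V) (lev : V → ℕ) (B : Set V) (i : ℕ) (a : V) : Set V :=
  {w | (w ∈ B ∨ w ∈ DSet par lev B i) ∧ ¬ (i ≤ lev w ∧ par^[lev w - i] w = a)}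

theorem newB_normal (hR : Rooted G s par lev) {B : Set V} (hB : Normal s par lev B) {i : ℕ}
    (hi : 0 < i) {a : V} (ha : lev a = i) : Normal s par lev (newB par lev B i a) := by
  have step : ∀ w, i < lev w → par^[lev w - i] w = par^[lev (par w) - i] (par w) := by
    intro w hw
    have h1 := hR.lev_par w (hR.ne_root (by omega))
    have e : lev w - i = (lev (par w) - i) + 1 := by omega
    rw [e, Function.iterate_succ_apply]
  have step' : ∀ w, i < lev w → (w ∈ DSet par lev B i ↔ par w ∈ DSet par lev B i) := by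
    intro w hw
    have h1 := hR.lev_par w (hR.ne_root (by omega))
    have e : lev w - i = (lev (par w) - i) + 1 := by omega
    change (i ≤ lev w ∧ par^[lev w - i] w ∉ B ∧ par^[lev w - i + 1] w ∈ B) ↔
      (i ≤ lev (par w) ∧ par^[lev (par w) - i] (par w) ∉ B ∧
        par^[lev (par w) - i + 1] (par w) ∈ B)
    rw [e, Function.iterate_succ_apply, Function.iterate_succ_apply]
    constructor
    · rintro ⟨_, h2, h3⟩
      exact ⟨by omega, h2, h3⟩
    · rintro ⟨_, h2, h3⟩
      exact ⟨by omega, h2, h3⟩
  have key : ∀ w, w ∉ newB par lev B i a → par w ∈ newB par lev B i a → w ≠ s →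
      w = a ∨ (w ∉ B ∧ par w ∈ B ∧ lev w ≠ i) := by
    intro w hw hp hs
    obtain ⟨hp1, hp2⟩ := hp
    have h1 := hR.lev_par w hs
    by_cases h2 : i ≤ lev w ∧ par^[lev w - i] w = a
    · left
      rcases Nat.lt_or_ge i (lev w) with h3 | h3
      · exact absurd ⟨by omega, by rw [← step w h3]; exact h2.2⟩ hp2
      · have e : lev w - i = 0 := by omega
        rw [e] at h2
        exact h2.2
    · right
      have h3 : ¬ (w ∈ B ∨ w ∈ DSet par lev B i) := fun h => hw ⟨h, h2⟩
      push Not at h3
      have h4 : par w ∈ B := by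
        rcases hp1 with h | h
        · exact h
        · exfalso
          have h5 : i ≤ lev (par w) := h.1
          exact h3.2 ((step' w (by omega)).2 h)
      refine ⟨h3.1, h4, fun h => h3.2 ⟨h.ge, ?_⟩⟩
      have e : lev w - i = 0 := by omega
      rw [e]
      exact ⟨h3.1, h4⟩
  refine ⟨⟨Or.inl hB.root, fun h => ?_⟩, ?_, ?_⟩
  · rw [hR.lev_root] at h
    omega
  · rintro w ⟨hw, hw2⟩ hs
    have h1 := hR.lev_par w hs
    refine ⟨?_, fun h => hw2 ⟨by omega, ?_⟩⟩
    · rcases hw with h | h
      · exact Or.inl (hB.closed w h hs)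
      · rcases Nat.lt_or_ge i (lev w) with h3 | h3
        · exact Or.inr ((step' w h3).1 h)
        · left
          obtain ⟨h4, _, h6⟩ := h
          have e : lev w - i = 0 := by omega
          rw [e] at h6
          exact h6
    · rw [step w (by omega)]
      exact h.2
  · intro u v hu hv hpu hpv hl
    have hus : u ≠ s := by
      rintro rfl
      exact hu ⟨Or.inl hB.root, fun h => by rw [hR.lev_root] at h; omega⟩
    have hvs : v ≠ s := by
      rintro rfl
      exact hv ⟨Or.inl hB.root, fun h => by rw [hR.lev_root] at h; omega⟩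
    rcases key u hu hpu hus with h1 | ⟨h1, h2, h3⟩ <;>
    rcases key v hv hpv hvs with h4 | ⟨h4, h5, h6⟩
    · rw [h1, h4]
    · exfalso
      rw [h1] at hl
      omega
    · exfalso
      rw [h4] at hl
      omega
    · exact hB.cut u v h1 h4 h2 h5 hl

/-- In an optimal strategy the protected vertex of level `i` saves at least `L - i` vertices. -/
theorem DSet_card [Finite V] (hR : Rooted G s par lev) {B : Set V} (hB : Normal s par lev B)
    (hmax : ∀ B', Normal s par lev B' → B'ᶜ.ncard ≤ Bᶜ.ncard) {v : V}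
    (hpv : par v ∈ B) {i : ℕ} (hi : 0 < i) (hiL : i < lev v) :
    lev v - i ≤ (DSet par lev B i).ncard := by
  classical
  set a := par^[lev v - i] v with ha
  have hla : lev a = i := by
    rw [ha, hR.lev_iter _ _ (by omega)]
    omega
  have h1 := hmax _ (newB_normal hR hB hi hla)
  have h2 : lev (par v) + 1 = lev v := (hR.lev_par v (hR.ne_root (by omega))).symm
  set Pth : Set V := (fun j => par^[j + 1] v) '' (Set.Iio (lev v - i)) with hP
  have hPB : Pth ⊆ B := by
    rintro _ ⟨j, hj, rfl⟩
    have hj' : j < lev v - i := hj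
    simp only [Function.iterate_succ_apply]
    exact iter_closed hR hB.closed j (par v) (by omega) hpv
  have hPc : Pth.ncard = lev v - i := by
    have hinj : Set.InjOn (fun j => par^[j + 1] v) (Set.Iio (lev v - i)) := by
      intro j hj j' hj' h
      have hj1 : j < lev v - i := hj
      have hj2 : j' < lev v - i := hj'
      have h3 := congrArg lev h
      simp only at h3
      rw [hR.lev_iter _ _ (by omega), hR.lev_iter _ _ (by omega)] at h3
      omega
    rw [hP, hinj.ncard_image, ← Nat.card_coe_set_eq]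
    simp
  have hsub : (Bᶜ \ DSet par lev B i) ∪ Pth ⊆ (newB par lev B i a)ᶜ := by
    rintro w (⟨hw1, hw2⟩ | hw) ⟨h3, h4⟩
    · rcases h3 with h3 | h3
      · exact hw1 h3
      · exact hw2 h3
    · obtain ⟨j, hj, rfl⟩ := hw
      have hj' : j < lev v - i := hj
      apply h4
      simp only
      rw [hR.lev_iter _ _ (by omega)]
      refine ⟨by omega, ?_⟩
      rw [← Function.iterate_add_apply, ha]
      congr 2
      omega
  have hdisj : Disjoint (Bᶜ \ DSet par lev B i) Pth := by
    rw [Set.disjoint_left]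
    intro w hw hw'
    exact hw.1 (hPB hw')
  have h3 := Set.ncard_le_ncard hsub (Set.toFinite _)
  rw [Set.ncard_union_eq hdisj (Set.toFinite _) (Set.toFinite _), hPc,
    Set.ncard_sdiff (DSet_sub hR hB) (Set.toFinite _)] at h3
  omega

/-- The truncation of the burned set to the protected vertices of level at most `m`. -/
def trB (par : V → V) (lev : V → ℕ) (B : Set V) (m : ℕ) : Set V :=
  {w | ∀ j ≤ m, j ≤ lev w → par^[lev w - j] w ∈ B}

theorem trB_key (hR : Rooted G s par lev) {B : Set V} {m : ℕ} {w : V}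
    (hw : w ∉ trB par lev B m) (hp : par w ∈ trB par lev B m) (hs : w ≠ s) :
    w ∉ B ∧ par w ∈ B ∧ lev w ≤ m := by
  have h1 := hR.lev_par w hs
  simp only [trB, Set.mem_ofPred_eq, not_forall] at hw
  obtain ⟨j, hjm, hjw, hj⟩ := hw
  have h2 : j = lev w := by
    by_contra hne
    apply hj
    have h3 := hp j hjm (by omega)
    have e : lev w - j = (lev (par w) - j) + 1 := by omega
    rw [e, Function.iterate_succ_apply]
    exact h3
  subst h2
  rw [Nat.sub_self] at hj
  have h4 := hp (lev (par w)) (by omega) le_rfl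
  rw [Nat.sub_self] at h4
  exact ⟨hj, h4, hjm⟩

theorem trB_normal (hR : Rooted G s par lev) {B : Set V} (hB : Normal s par lev B) (m : ℕ) :
    Normal s par lev (trB par lev B m) := by
  have hroot : s ∈ trB par lev B m := by
    intro j _ hj
    rw [hR.lev_root] at hj ⊢
    rw [Nat.zero_sub]
    exact hB.root
  refine ⟨hroot, ?_, ?_⟩
  · intro w hw hs j hjm hj
    have h1 := hR.lev_par w hs
    have h2 := hw j hjm (by omega)
    have e : lev w - j = (lev (par w) - j) + 1 := by omega
    rwa [e, Function.iterate_succ_apply] at h2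
  · intro u v hu hv hpu hpv hl
    have hus : u ≠ s := fun h => hu (h ▸ hroot)
    have hvs : v ≠ s := fun h => hv (h ▸ hroot)
    obtain ⟨h1, h2, _⟩ := trB_key hR hu hpu hus
    obtain ⟨h3, h4, _⟩ := trB_key hR hv hpv hvs
    exact hB.cut u v h1 h3 h2 h4 hl

theorem gauss (m : ℕ) : 2 * (Finset.range m).sum (fun i => m - i) = m * (m + 1) := by
  induction m with
  | zero => simp
  | succ m ih =>
    rw [Finset.sum_range_succ']
    simp only [Nat.add_sub_add_right, Nat.sub_zero]
    rw [Nat.mul_add, ih]
    ring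

/-- **The exchange argument.** -/
theorem exists_short [Finite V] (hR : Rooted G s par lev) {B₀ : Set V}
    (hB₀ : Normal s par lev B₀) {k m : ℕ} (hk : k ≤ B₀ᶜ.ncard) (hm : 2 * k ≤ m * (m + 1)) :
    ∃ B : Set V, Normal s par lev B ∧ (∀ v, v ∉ B → par v ∈ B → lev v ≤ m) ∧
      k ≤ Bᶜ.ncard := by
  classical
  have := Fintype.ofFinite V
  -- an optimal set
  obtain ⟨B, hB, hmax⟩ : ∃ B : Set V, Normal s par lev B ∧
      ∀ B', Normal s par lev B' → B'ᶜ.ncard ≤ Bᶜ.ncard := by
    have hfin : {B : Set V | Normal s par lev B}.Finite := Set.toFinite _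
    obtain ⟨B, hB, h⟩ := Set.exists_max_image _ (fun B : Set V => Bᶜ.ncard) hfin ⟨B₀, hB₀⟩
    exact ⟨B, hB, h⟩
  have hkB : k ≤ Bᶜ.ncard := hk.trans (hmax B₀ hB₀)
  by_cases h : ∀ v, v ∉ B → par v ∈ B → lev v ≤ m
  · exact ⟨B, hB, h, hkB⟩
  push Not at h
  obtain ⟨v, hv, hpv, hL⟩ := h
  refine ⟨trB par lev B m, trB_normal hR hB m, ?_, ?_⟩
  · intro w hw hp
    have hs : w ≠ s := fun h => hw (h ▸ (trB_normal hR hB m).root)
    exact (trB_key hR hw hp hs).2.2
  · set F : ℕ → Finset V := fun i => (DSet par lev B (i + 1)).toFinite.toFinset with hF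
    have h1 : ((Finset.range m).biUnion F : Set V) ⊆ (trB par lev B m)ᶜ := by
      intro w hw htr
      rw [Finset.mem_coe, Finset.mem_biUnion] at hw
      obtain ⟨i, hi, hw⟩ := hw
      rw [Finset.mem_range] at hi
      rw [hF, Set.Finite.mem_toFinset] at hw
      exact hw.2.1 (htr (i + 1) (by omega) hw.1)
    have h2 := Set.ncard_le_ncard h1 (Set.toFinite _)
    rw [Set.ncard_coe_finset, Finset.card_biUnion] at h2
    · have h3 : (Finset.range m).sum (fun i => m - i) ≤
          (Finset.range m).sum (fun i => (F i).card) := by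
        refine Finset.sum_le_sum fun i hi => ?_
        rw [Finset.mem_range] at hi
        have h4 := DSet_card hR hB hmax hpv (i := i + 1) (by omega) (by omega)
        rw [Set.ncard_eq_toFinset_card _ (Set.toFinite _)] at h4
        refine le_trans ?_ h4
        omega
      have h4 := gauss m
      omega
    · intro i _ j _ hij
      rw [Function.onFun, Finset.disjoint_left]
      intro w hw hw'
      rw [hF, Set.Finite.mem_toFinset] at hw hw'
      rcases Nat.lt_or_gt_of_ne hij with h | h
      · exact DSet_disj hR hB (Nat.succ_lt_succ h) hw hw'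
      · exact DSet_disj hR hB (Nat.succ_lt_succ h) hw' hw

end Pool.Agent.H683.FF
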