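import Pool.Agent.H683.FF.PolyRed
import Pool.Graph.R_seed8.H628R2.FPTW
import Pool.Graph.R_seed8.H633R2.Fpt

/-!
# Conditional lower bounds
-/

set_option autoImplicit false

namespace Pool.Agent.NPC.H683FF

open Turing Pool.Agent.H683.FF Pool.Agent.H633R2

theorem flatMap_length_le {α β : Type} (l : List α) (F : α → List β) (B : ℕ)
    (h : ∀ a ∈ l, (F a).length ≤ B) : (l.flatMap F).length ≤ l.length * B := by
  induction l with
  | nil => simp
  | cons a l ih =>
    rw [List.flatMap_cons, List.length_append, List.length_cons, Nat.add_mul, Nat.one_mul]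
    have h1 := h a (by simp)
    have h2 := ih fun b hb => h b (by simp [hb])
    omega

theorem tsts_length_le (x : X) : (tsts x).length ≤ gg x * (gg x * (2 * be x)) := by
  unfold tsts
  refine (flatMap_length_le _ _ (gg x * (2 * be x)) fun i _ => ?_).trans
    (by rw [List.length_range])
  refine (flatMap_length_le _ _ (2 * be x) fun j _ => ?_).trans (by rw [List.length_range])
  split_ifs
  · simp
  · refine (flatMap_length_le _ _ 2 fun c _ => ?_).trans (by rw [List.length_range]; omega)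
    simp

theorem DD_le (x : X) : DD x ≤ 12 * (x.2 * x.2) * be x := by
  have h1 := tsts_length_le x
  have h2 : gg x ≤ x.2 := min_le_left _ _
  have h3 : gg x * gg x ≤ x.2 * x.2 := Nat.mul_le_mul h2 h2
  have h4 : gg x * gg x * be x ≤ x.2 * x.2 * be x := Nat.mul_le_mul_right _ h3
  unfold DD
  have e1 : 2 * (2 * be x * (gg x * gg x)) = 4 * (gg x * gg x * be x) := by ring
  have e2 : gg x * (gg x * (2 * be x)) = 2 * (gg x * gg x * be x) := by ring
  have e3 : 12 * (x.2 * x.2) * be x = 12 * (x.2 * x.2 * be x) := by ring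
  omega

/-- The factor that depends on the parameter. -/
def Cf (g : ℕ) : ℕ := 27 * (g + 1) ^ 4

theorem kk_le (x : X) : kk x ≤ Cf x.2 * be x := by
  have h1 := DD_le x
  have h2 : gg x ≤ x.2 := min_le_left _ _
  have h3 : gg x * gg x ≤ x.2 * x.2 := Nat.mul_le_mul h2 h2
  have hb := be_pos x
  have e : kk x = 1 + 2 * (gg x * gg x) * (DD x + 1) := rfl
  rw [e]
  set g := x.2 with hg
  set β := be x with hβ
  have h4 : 2 * (gg x * gg x) * (DD x + 1) ≤ 2 * (g * g) * (12 * (g * g) * β + β) :=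
    Nat.mul_le_mul (by omega) (by omega)
  have h5 : 1 + 2 * (g * g) * (12 * (g * g) * β + β) ≤ (1 + 24 * (g * g * (g * g)) +
      2 * (g * g)) * β := by
    have : (1 + 24 * (g * g * (g * g)) + 2 * (g * g)) * β =
      β + 2 * (g * g) * (12 * (g * g) * β + β) := by ring
    omega
  have h6 : 1 + 24 * (g * g * (g * g)) + 2 * (g * g) ≤ Cf g := by
    unfold Cf
    have : 27 * (g + 1) ^ 4 = 27 * (g * g * (g * g)) + 108 * (g * (g * g)) + 162 * (g * g) +
      108 * g + 27 := by ring
    omega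
  calc _ ≤ (1 + 24 * (g * g * (g * g)) + 2 * (g * g)) * β := by omega
    _ ≤ _ := Nat.mul_le_mul_right _ h6

theorem two_pow_be_le (x : X) : 2 ^ be x ≤ 4 * (bits x).length + 4 := by
  have h : 2 ^ be x ≤ 4 * x.1.length + 4 := by
    unfold be
    rw [Nat.size_eq_bits_len]
    rcases Nat.eq_zero_or_pos x.1.length with h | h
    · rw [h]
      simp
    · have h1 : 2 ^ (x.1.length.size - 1) ≤ x.1.length := by
        have h2 : x.1.length.size - 1 < x.1.length.size := by
          have := Nat.size_pos.2 h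
          omega
        exact Nat.lt_size.1 h2
      have h3 : 0 < x.1.length.size := Nat.size_pos.2 h
      have h4 : 2 ^ (x.1.length.size + 1) = 4 * 2 ^ (x.1.length.size - 1) := by
        have : x.1.length.size + 1 = 2 + (x.1.length.size - 1) := by omega
        rw [this, pow_add]
        norm_num
      omega
  have h1 : x.1.length < sz x.1 := length_lt_sz x.1
  have h2 : sz x = sz x.1 + sz x.2 + 1 := sz_pair x.1 x.2
  rw [bits_length]
  omega

/-- Composition of a polynomial reduction and an algorithm. -/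
theorem decTime_comp {α β : Type} [TEnc α] [TEnc β] {g : α → β} (hg : Poly g) {D P : β → Prop}
    {T : β → ℕ} (hD : ∀ a, D (g a)) (h : DecTime D P T) :
    ∃ (c : ℕ) (q : Polynomial ℕ), DecTime (fun _ => True) (fun a => P (g a))
      (fun a => c * T (g a) + q.eval (bits a).length) := by
  obtain ⟨M, d, hM⟩ := h
  obtain ⟨q0, hq0⟩ := hg.sz_le
  obtain ⟨c1, P1, h1⟩ := hg
  obtain ⟨c2, C, h2⟩ := toCmd (ea := fun a => bits (g a)) (eb := bits) (f := fun a => d (g a)) M
    (fun a => T (g a)) (fun a => (hM (g a) (hD a)).2)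
  have h3 : ∀ a, Runs (Cmd.seq c1 c2) (inp (bits a)) (inp (bits (d (g a))))
      (C * T (g a) + (P1 + Polynomial.C C * (q0 + 1)).eval (bits a).length) := by
    intro a
    refine ((h1 a).seq (h2 a)).mono ?_
    have h4 : (bits (g a)).length ≤ q0.eval (bits a).length := hq0 a
    have h5 := Nat.mul_le_mul_left C h4
    simp only [Polynomial.eval_add, Polynomial.eval_mul, Polynomial.eval_C,
      Polynomial.eval_one]
    rw [Nat.mul_add, Nat.mul_add, Nat.mul_add]
    omega
  obtain ⟨M', hM'⟩ := toTm (f := fun a => d (g a)) _ _ h3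
  refine ⟨C, P1 + Polynomial.C C * (q0 + 1) + 1, M', fun a => d (g a), fun a _ => ⟨(hM _ (hD a)).1,
    ?_⟩⟩
  obtain ⟨h5⟩ := hM' a
  refine ⟨outputs_conv rfl rfl ?_ h5⟩
  simp only [Polynomial.eval_add, Polynomial.eval_one]
  omega

/-- The main estimate. -/
theorem clique_time {β : Type} [TEnc β] {g : X → β} (hg : Poly g) {D P : β → Prop} {κ : β → ℕ}
    (hD : ∀ x, D (g x)) (hP : ∀ x, P (g x) ↔ HasClique x)
    (hκ : ∀ x, κ (g x) ≤ Cf x.2 * be x) {f : ℕ → ℕ} {p : Polynomial ℕ}
    (h : DecTime D P (fun b => 2 ^ f (κ b) * p.eval (bits b).length)) {K : ℕ → ℕ}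
    (hK : ∀ m k, K m ≤ k → m * f k ≤ k) :
    ∃ (F0 : ℕ) (q : Polynomial ℕ), DecTime (fun _ : X => True) HasClique
      (fun x => 2 ^ (K (Cf x.2) + F0) * q.eval (bits x).length) := by
  obtain ⟨q0, hq0⟩ := hg.sz_le
  obtain ⟨c, q, M, d, hM⟩ := decTime_comp hg hD h
  -- a bound for small arguments
  obtain ⟨F0, hF0⟩ : ∃ F0, ∀ k, f k ≤ k + F0 := by
    refine ⟨(Finset.range (K 1)).sup f, fun k => ?_⟩
    rcases Nat.lt_or_ge k (K 1) with h | h
    · have : f k ≤ (Finset.range (K 1)).sup f := Finset.le_sup (Finset.mem_range.2 h)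
      omega
    · have := hK 1 k h
      omega
  refine ⟨F0, Polynomial.C c * ((Polynomial.C 4 * Polynomial.X + Polynomial.C 4) *
    p.comp q0) + q, M, d, fun x _ => ⟨(hM x trivial).1.trans (hP x), ?_⟩⟩
  obtain ⟨h1⟩ := (hM x trivial).2
  refine ⟨outputs_conv rfl rfl ?_ h1⟩
  have hCpos : 0 < Cf x.2 := by unfold Cf; positivity
  have hpow : 2 ^ f (κ (g x)) ≤ 2 ^ (K (Cf x.2) + F0) * (4 * (bits x).length + 4) := by
    rcases Nat.lt_or_ge (κ (g x)) (K (Cf x.2)) with h | h
    · have h2 := hF0 (κ (g x))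
      refine (Nat.pow_le_pow_right (by norm_num) (by omega : f (κ (g x)) ≤
        K (Cf x.2) + F0)).trans ?_
      exact Nat.le_mul_of_pos_right _ (by omega)
    · have h2 := hK _ _ h
      have h3 := h2.trans (hκ x)
      have h4 : f (κ (g x)) ≤ be x := Nat.le_of_mul_le_mul_left h3 hCpos
      refine (Nat.pow_le_pow_right (by norm_num) h4).trans ((two_pow_be_le x).trans ?_)
      exact Nat.le_mul_of_pos_left _ (by positivity)
  have hp : p.eval (bits (g x)).length ≤ p.eval (q0.eval (bits x).length) := eval_mono p (hq0 x)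
  simp only [Polynomial.eval_add, Polynomial.eval_mul, Polynomial.eval_C, Polynomial.eval_X,
    Polynomial.eval_comp]
  set A := 2 ^ (K (Cf x.2) + F0) with hA
  have hA1 : 1 ≤ A := Nat.one_le_two_pow
  have h5 := Nat.mul_le_mul hpow hp
  have h6 := Nat.mul_le_mul_left c h5
  have h7 : q.eval (bits x).length ≤ A * q.eval (bits x).length :=
    Nat.le_mul_of_pos_left _ hA1
  calc _ ≤ c * (A * (4 * (bits x).length + 4) * p.eval (q0.eval (bits x).length)) +
        A * q.eval (bits x).length := Nat.add_le_add h6 h7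
    _ = _ := by ring

theorem uniformFpt_of {β : Type} [TEnc β] {g : X → β} (hg : Poly g) {D P : β → Prop} {κ : β → ℕ}
    (hD : ∀ x, D (g x)) (hP : ∀ x, P (g x) ↔ HasClique x)
    (hκ : ∀ x, κ (g x) ≤ Cf x.2 * be x) {f : ℕ → ℕ} (hf : LittleO f) {p : Polynomial ℕ}
    (h : DecTime D P (fun b => 2 ^ f (κ b) * p.eval (bits b).length)) : CliqueUniformFpt := by
  choose K hK using hf
  obtain ⟨F0, q, h1⟩ := clique_time hg hD hP hκ h hK
  exact ⟨fun n => 2 ^ (K (Cf n) + F0), q, h1⟩

theorem fpt_of {β : Type} [TEnc β] {g : X → β} (hg : Poly g) {D P : β → Prop} {κ : β → ℕ}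
    (hD : ∀ x, D (g x)) (hP : ∀ x, P (g x) ↔ HasClique x)
    (hκ : ∀ x, κ (g x) ≤ Cf x.2 * be x) {f : ℕ → ℕ} (hf : EffLittleO f) {p : Polynomial ℕ}
    (h : DecTime D P (fun b => 2 ^ f (κ b) * p.eval (bits b).length)) :
    ∀ (α : Type) [TEnc α] (κ : α → ℕ) (P : α → Prop), InW1 κ P → IsFpt κ P := by
  obtain ⟨K, hKc, hK⟩ := hf
  obtain ⟨F0, q, M, d, h1⟩ := clique_time hg hD hP hκ h hK
  have h2 : IsFpt (fun x : List (List Bool) × ℕ => x.2) HasClique := by
    refine ⟨d, ⟨M, fun n => 2 ^ (K (Cf n) + F0), q, ?_, fun a => (h1 a trivial).2⟩,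
      fun a => (h1 a trivial).1⟩
    have hC : Computable Cf := by
      unfold Cf
      exact mul_computable (Computable.const 27) (pow_computable
        (add_computable Computable.id (Computable.const 1)) 4)
    have h3 : Computable (fun n => K (Cf n) + F0) :=
      add_computable (hKc.comp hC) (Computable.const F0)
    have h4 : Computable (fun n : ℕ => 2 ^ n) := by
      have h5 : Primrec (fun n : ℕ => 2 ^ n) := by
        refine (Primrec.nat_rec₁ (1 : ℕ) (f := fun _ ih : ℕ => 2 * ih) ?_).of_eq fun n => ?_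
        · exact Primrec.nat_mul.comp (Primrec.const 2) Primrec.snd
        · induction n with
          | zero => rfl
          | succ n ih =>
            rw [pow_succ, ← ih]
            exact Nat.mul_comm _ _
      exact h5.to_comp
    exact h4.comp h3
  intro α _ κ' P' hP'
  exact IsFpt.of_reduces hP' h2

theorem κA_le (x : X) : (redA x).2.2 ≤ Cf x.2 * be x := kk_le x

theorem κM_le (x : X) : (redM x).2.2.1 ≤ Cf x.2 * be x := by
  have h : DD x + 1 ≤ Cf x.2 * be x := by
    have h1 := DD_le x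
    have hb := be_pos x
    have h2 : 12 * (x.2 * x.2) + 1 ≤ Cf x.2 := by
      unfold Cf
      have : 27 * (x.2 + 1) ^ 4 = 27 * (x.2 * x.2 * (x.2 * x.2)) + 108 * (x.2 * (x.2 * x.2)) +
        162 * (x.2 * x.2) + 108 * x.2 + 27 := by ring
      omega
    have h3 := Nat.mul_le_mul_right (be x) h2
    rw [Nat.add_mul, Nat.one_mul] at h3
    omega
  exact h

end Pool.Agent.NPC.H683FF
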