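import Pool.Agent.H683.FF.PolyAlg

/-!
# Subexponential parameterized algorithms for Firefighter on trees
-/

set_option autoImplicit false

namespace Pool.Agent.NPC.H683FF

open Turing Pool.Agent.H683.FF Pool.Agent.H633R2

/-- The reduction to Saving All But `k` Vertices of a tree. -/
theorem allBut_reduction : Poly redA ∧ ∀ x, IsTreeWith (redA x).1 (redA x).2.1 ∧
    (SavingAllBut (redA x) ↔ HasClique x) ∧ (redA x).2.2 ≤ Cf x.2 * be x :=
  ⟨poly_redA, fun x => ⟨wtree_isTree (wl_tree x), redA_iff x, κA_le x⟩⟩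

/-- The reduction to Maximum `k`-Vertex Protection of a tree. -/
theorem maxProt_reduction : Poly redM ∧ ∀ x, IsTreeWith (redM x).1 (redM x).2.1 ∧
    (MaxProtection (redM x) ↔ HasClique x) ∧ (redM x).2.2.1 ≤ Cf x.2 * be x :=
  ⟨poly_redM, fun x => ⟨wtree_isTree (wl_tree x), redM_iff x, κM_le x⟩⟩

theorem lower {f : ℕ → ℕ} {p : Polynomial ℕ}
    (h : DecTime (fun x : List (List Bool) × ℕ × ℕ => IsTreeWith x.1 x.2.1) SavingAllBut
        (fun x => 2 ^ f x.2.2 * p.eval (bits x).length) ∨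
      DecTime (fun x : List (List Bool) × ℕ × ℕ × ℕ => IsTreeWith x.1 x.2.1) MaxProtection
        (fun x => 2 ^ f x.2.2.1 * p.eval (bits x).length)) :
    (LittleO f → CliqueUniformFpt) ∧
    (EffLittleO f → ∀ (α : Type) [TEnc α] (κ : α → ℕ) (P : α → Prop), InW1 κ P → IsFpt κ P) := by
  rcases h with h | h
  · exact ⟨fun hf => uniformFpt_of (κ := fun x : List (List Bool) × ℕ × ℕ => x.2.2) poly_redA
        (fun x => wtree_isTree (wl_tree x)) redA_iff κA_le hf h,
      fun hf => fpt_of (κ := fun x : List (List Bool) × ℕ × ℕ => x.2.2) poly_redA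
        (fun x => wtree_isTree (wl_tree x)) redA_iff κA_le hf h⟩
  · exact ⟨fun hf => uniformFpt_of (κ := fun x : List (List Bool) × ℕ × ℕ × ℕ => x.2.2.1)
        poly_redM (fun x => wtree_isTree (wl_tree x)) redM_iff κM_le hf h,
      fun hf => fpt_of (κ := fun x : List (List Bool) × ℕ × ℕ × ℕ => x.2.2.1) poly_redM
        (fun x => wtree_isTree (wl_tree x)) redM_iff κM_le hf h⟩

end Pool.Agent.NPC.H683FF
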