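import Pool.Agent.H683.FF.Alg
import Pool.Agent.H683.FF.Lower
import Pool.Agent.H683.MC.Arith

/-!
# The running time of the algorithm for Saving `k` Vertices
-/

set_option autoImplicit false

namespace Pool.Agent.NPC.H683FF

open Turing Pool.Agent.H683.FF Pool.Agent.H633R2

/-- Instances `(G, s, k)`. -/
abbrev X3 : Type := List (List Bool) × ℕ × ℕ

theorem uPoly_rr : UPoly rr := by
  refine UPoly.length (l := fun x : X3 => (List.range (x.1.length + 1)).filter
    (fun i => decide (i * i ≤ x.2.2))) ?_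
  refine Poly.filter (l := fun x : X3 => List.range (x.1.length + 1))
    (p := fun x i => decide (i * i ≤ x.2.2)) ?_ ?_
  · exact UPoly.range (UPoly.add (UPoly.length (Poly.fst Poly.id)) (UPoly.const 1))
  · exact Poly.decide_le (Poly.mul (Poly.snd Poly.id) (Poly.snd Poly.id))
      (Poly.snd (Poly.snd (Poly.fst Poly.id)))

theorem uPoly_mm : UPoly mm := UPoly.mul (UPoly.const 2) uPoly_rr

/-! ### Depth-first search -/

theorem poly_adjB {α : Type} [TEnc α] {M : α → List (List Bool)} {i j : α → ℕ} (hM : Poly M)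
    (hi : Poly i) (hj : Poly j) : Poly (fun a => adjB (M a) (i a) (j a)) :=
  Poly.and (Poly.not (Poly.decide_eq hi hj)) (Poly.or (poly_entry hM hi hj)
    (poly_entry hM hj hi))

theorem poly_nb {α : Type} [TEnc α] {M : α → List (List Bool)} {v p : α → ℕ} (hM : Poly M)
    (hv : Poly v) (hp : Poly p) : Poly (fun a => nb (M a) (v a) (p a)) := by
  unfold nb
  refine Poly.filter (l := fun a => List.range (M a).length)
    (p := fun a c => adjB (M a) (v a) c && !decide (c = p a)) (UPoly.range (UPoly.length hM)) ?_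
  exact Poly.and (poly_adjB (hM.comp (Poly.fst Poly.id)) (hv.comp (Poly.fst Poly.id))
    (Poly.snd Poly.id)) (Poly.not (Poly.decide_eq (Poly.snd Poly.id)
      (hp.comp (Poly.fst Poly.id))))

theorem poly_dfsStep : Poly (fun a : List (List Bool) × DState => dfsStep a.1 a.2) := by
  refine (Poly.listCases (l := fun a : List (List Bool) × DState => a.2.1)
    (g := fun a => a.2)
    (h := fun a e st => ((nb a.1 e.1 e.2.1).map (fun c => (c, e.1, e.2.2 + 1)) ++ st,
      (e.1, e.2.2) :: a.2.2)) (Poly.fst (Poly.snd Poly.id)) (Poly.snd Poly.id) ?_).congr ?_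
  · have hM : Poly (fun a : (List (List Bool) × DState) × (ℕ × ℕ × ℕ) × List (ℕ × ℕ × ℕ) =>
        a.1.1) := Poly.fst (Poly.fst Poly.id)
    have he : Poly (fun a : (List (List Bool) × DState) × (ℕ × ℕ × ℕ) × List (ℕ × ℕ × ℕ) =>
        a.2.1) := Poly.fst (Poly.snd Poly.id)
    refine Poly.pair (Poly.append ?_ (Poly.snd (Poly.snd Poly.id)))
      (Poly.cons (Poly.pair (Poly.fst he) (Poly.snd (Poly.snd he)))
        (Poly.snd (Poly.snd (Poly.fst Poly.id))))
    refine Poly.map (l := fun a : (List (List Bool) × DState) × (ℕ × ℕ × ℕ) ×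
      List (ℕ × ℕ × ℕ) => nb a.1.1 a.2.1.1 a.2.1.2.1)
      (F := fun a c => (c, a.2.1.1, a.2.1.2.2 + 1)) (poly_nb hM (Poly.fst he)
        (Poly.fst (Poly.snd he))) ?_
    have he' := he.comp (f := fun a : ((List (List Bool) × DState) × (ℕ × ℕ × ℕ) ×
      List (ℕ × ℕ × ℕ)) × ℕ => a.1) (Poly.fst Poly.id)
    exact Poly.pair (Poly.snd Poly.id) (Poly.pair (Poly.fst he')
      (Poly.succ (Poly.snd (Poly.snd he'))))
  · rintro ⟨M, st, out⟩
    cases st <;> rfl

/-- Bounds for the states of the search. -/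
theorem dfs_bound (M : List (List Bool)) (s : ℕ) (k : ℕ) :
    (((dfsStep M)^[k] ([(s, M.length, 0)], [])).1.length ≤ 1 + k * M.length ∧
      ∀ e ∈ ((dfsStep M)^[k] ([(s, M.length, 0)], [])).1,
        e.1 ≤ s + M.length ∧ e.2.1 ≤ s + M.length ∧ e.2.2 ≤ k) ∧
    (((dfsStep M)^[k] ([(s, M.length, 0)], [])).2.length ≤ k ∧
      ∀ e ∈ ((dfsStep M)^[k] ([(s, M.length, 0)], [])).2, e.1 ≤ s + M.length ∧ e.2 ≤ k) := by
  induction k with
  | zero => simp
  | succ k ih =>
    rw [Function.iterate_succ_apply']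
    generalize (dfsStep M)^[k] ([(s, M.length, 0)], []) = S at ih
    obtain ⟨st, out⟩ := S
    obtain ⟨⟨h1, h2⟩, h3, h4⟩ := ih
    simp only at h1 h2 h3 h4
    cases st with
    | nil =>
      refine ⟨⟨by simp [dfsStep], by simp [dfsStep]⟩, ?_, ?_⟩
      · change out.length ≤ k + 1
        omega
      · intro e he
        have := h4 e he
        omega
    | cons e st =>
      have hn : (nb M e.1 e.2.1).length ≤ M.length := by
        unfold nb
        refine (List.length_filter_le _ _).trans ?_
        rw [List.length_range]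
      have he := h2 e (by simp)
      refine ⟨⟨?_, ?_⟩, ?_, ?_⟩
      · change ((nb M e.1 e.2.1).map _ ++ st).length ≤ _
        rw [List.length_append, List.length_map, Nat.succ_mul]
        simp only [List.length_cons] at h1
        omega
      · intro e' he'
        change e' ∈ (nb M e.1 e.2.1).map _ ++ st at he'
        rw [List.mem_append, List.mem_map] at he'
        rcases he' with ⟨c, hc, rfl⟩ | he'
        · unfold nb at hc
          rw [List.mem_filter, List.mem_range] at hc
          simp only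
          omega
        · have := h2 e' (by simp [he'])
          omega
      · change ((e.1, e.2.2) :: out).length ≤ k + 1
        rw [List.length_cons]
        omega
      · intro e' he'
        change e' ∈ (e.1, e.2.2) :: out at he'
        rw [List.mem_cons] at he'
        rcases he' with rfl | he'
        · simp only
          omega
        · have := h4 e' he'
          omega

theorem poly_dfs : Poly (fun a : List (List Bool) × ℕ => dfs a.1 a.2) := by
  have hN : Poly (fun a : List (List Bool) × ℕ => a.2 + 2 * a.1.length) :=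
    Poly.add (Poly.snd Poly.id) (Poly.mul (Poly.const 2) (Poly.length (Poly.fst Poly.id)))
  obtain ⟨r, hr⟩ := hN.sz_le
  refine Poly.snd (Poly.iterLen (l := fun a : List (List Bool) × ℕ => a.1)
    (s := fun a => (([(a.2, a.1.length, 0)], []) : DState)) (F := fun a S => dfsStep a.1 S)
    (Poly.fst Poly.id) ?_ ?_
    (((1 + Polynomial.X * Polynomial.X) * (Polynomial.C 6 * r + 3) + 1) +
      (Polynomial.X * (Polynomial.C 6 * r + 3) + 1) + 1) ?_)
  · exact Poly.pair (Poly.cons (Poly.pair (Poly.snd Poly.id) (Poly.pair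
      (Poly.length (Poly.fst Poly.id)) (Poly.const 0))) (Poly.const [])) (Poly.const [])
  · exact poly_dfsStep.comp (Poly.pair (Poly.fst (Poly.fst Poly.id)) (Poly.snd Poly.id))
  · rintro ⟨M, s⟩ k hk
    simp only at hk
    obtain ⟨⟨h1, h2⟩, h3, h4⟩ := dfs_bound M s k
    generalize (dfsStep M)^[k] ([(s, M.length, 0)], []) = S at *
    obtain ⟨st, out⟩ := S
    simp only at h1 h2 h3 h4
    have hr' : sz (s + 2 * M.length) ≤ r.eval (sz (M, s)) := hr (M, s)
    have hnum : ∀ j, j ≤ s + 2 * M.length → sz j ≤ 2 * r.eval (sz (M, s)) := fun j hj =>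
      (sz_nat_mono_le hj).trans (Nat.mul_le_mul_left 2 hr')
    have hM : M.length ≤ sz (M, s) := by
      have h5 := length_lt_sz M
      have h6 : sz (M, s) = sz M + sz s + 1 := sz_pair M s
      omega
    have h7 : sz st ≤ (1 + k * M.length) * (6 * r.eval (sz (M, s)) + 3) + 1 := by
      refine (sz_le_length_mul st (6 * r.eval (sz (M, s)) + 2) ?_).trans
        (Nat.add_le_add_right (Nat.mul_le_mul_right _ h1) 1)
      rintro ⟨c, p, l⟩ he
      obtain ⟨a1, a2, a3⟩ := h2 _ he
      simp only at a1 a2 a3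
      have b1 := hnum c (by omega)
      have b2 := hnum p (by omega)
      have b3 := hnum l (by omega)
      have e1 : sz ((c, p, l) : ℕ × ℕ × ℕ) = sz c + (sz p + sz l + 1) + 1 := by
        rw [sz_pair, sz_pair]
      omega
    have h8 : sz out ≤ k * (6 * r.eval (sz (M, s)) + 3) + 1 := by
      refine (sz_le_length_mul out (6 * r.eval (sz (M, s)) + 2) ?_).trans
        (Nat.add_le_add_right (Nat.mul_le_mul_right _ h3) 1)
      rintro ⟨c, l⟩ he
      obtain ⟨a1, a3⟩ := h4 _ he
      simp only at a1 a3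
      have b1 := hnum c (by omega)
      have b3 := hnum l (by omega)
      have e1 : sz ((c, l) : ℕ × ℕ) = sz c + sz l + 1 := by
        rw [sz_pair]
      omega
    simp only [sz_pair (a := st), Polynomial.eval_add, Polynomial.eval_mul, Polynomial.eval_C,
      Polynomial.eval_X, Polynomial.eval_one, Polynomial.eval_ofNat]
    have h9 : k * M.length ≤ sz (M, s) * sz (M, s) := Nat.mul_le_mul (by omega) hM
    have h10 : (1 + k * M.length) * (6 * r.eval (sz (M, s)) + 3) ≤
        (1 + sz (M, s) * sz (M, s)) * (6 * r.eval (sz (M, s)) + 3) :=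
      Nat.mul_le_mul_right _ (by omega)
    have h11 : k * (6 * r.eval (sz (M, s)) + 3) ≤ sz (M, s) * (6 * r.eval (sz (M, s)) + 3) :=
      Nat.mul_le_mul_right _ (by omega)
    omega

/-! ### Dynamic programming -/

/-- Bounds for the lists of states. -/
theorem dp_bound (m : ℕ) : ∀ ls : List ℕ, (dp m ls).Nodup ∧
    ∀ t ∈ dp m ls, t.1 ≤ m ∧ t.2.1.length = m + 1 ∧ t.2.2 ≤ ls.length
  | [] => by
    refine ⟨by simp [dp, st0], ?_⟩
    intro t ht
    simp only [dp, st0, List.foldr_nil, List.mem_singleton] at ht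
    subst ht
    simp
  | l :: ls => by
    obtain ⟨_, h2⟩ := dp_bound m ls
    refine ⟨?_, ?_⟩
    · change (dpStep m l (dp m ls)).Nodup
      unfold dpStep
      rw [dedS_eq]
      exact List.nodup_dedup _
    · intro t ht
      change t ∈ dpStep m l (dp m ls) at ht
      rw [mem_dpStep] at ht
      obtain ⟨c, X, W, h3, h4⟩ := ht
      have h5 := h2 _ h3
      simp only at h5
      rcases h4 with ⟨_, _, rfl⟩ | ⟨_, rfl⟩ | ⟨_, _, h6, _, rfl⟩
      · simp only [List.length_cons]
        omega
      · simp only [List.length_cons]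
        omega
      · simp only [List.length_cons, mark_length]
        omega

theorem dp_length (m : ℕ) (ls : List ℕ) :
    (dp m ls).length ≤ (m + 1) * (2 ^ (m + 1) * (ls.length + 1)) := by
  classical
  obtain ⟨h1, h2⟩ := dp_bound m ls
  rw [← List.toFinset_card_of_nodup h1]
  have h3 : (dp m ls).toFinset ⊆ Finset.range (m + 1) ×ˢ ((allW (m + 1)).toFinset ×ˢ
      Finset.range (ls.length + 1)) := by
    intro t ht
    rw [List.mem_toFinset] at ht
    have h4 := h2 t ht
    rw [Finset.mem_product, Finset.mem_product, Finset.mem_range, Finset.mem_range,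
      List.mem_toFinset, mem_allW]
    exact ⟨by omega, h4.2.1, by omega⟩
  refine (Finset.card_le_card h3).trans ?_
  rw [Finset.card_product, Finset.card_product, Finset.card_range, Finset.card_range]
  refine Nat.mul_le_mul_left _ (Nat.mul_le_mul_right _ ?_)
  exact (List.toFinset_card_le _).trans (allW_length _).le

theorem poly_mark {α : Type} [TEnc α] {X : α → List Bool} {l : α → ℕ} (hX : Poly X)
    (hl : Poly l) : Poly (fun a => mark (X a) (l a)) := by
  unfold mark
  refine Poly.map (l := fun a => (X a).zipIdx) (F := fun a q => q.1 || decide (q.2 = l a))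
    (Poly.zipIdx hX) ?_
  exact Poly.or (Poly.fst (Poly.snd Poly.id)) (Poly.decide_eq (Poly.snd (Poly.snd Poly.id))
    (hl.comp (Poly.fst Poly.id)))

theorem poly_mvs {α : Type} [TEnc α] {m l : α → ℕ} {t : α → St} (hm : Poly m)
    (hl : Poly l) (ht : Poly t) : Poly (fun a => mvs (m a) (l a) (t a)) := by
  unfold mvs
  have hc := Poly.fst ht
  have hX := Poly.fst (Poly.snd ht)
  have hW := Poly.snd (Poly.snd ht)
  refine Poly.ite (p := fun a => 0 < (t a).1 ∧ (t a).1 < l a) ?_ ?_ ?_
  · exact Poly.decide_and (Poly.decide_lt (Poly.const 0) hc) (Poly.decide_lt hc hl)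
  · exact Poly.cons (Poly.pair hc (Poly.pair hX (Poly.succ hW))) (Poly.const [])
  · refine Poly.cons (Poly.pair (Poly.const 0) (Poly.pair hX hW)) ?_
    refine Poly.ite (p := fun a => 1 ≤ l a ∧ l a ≤ m a ∧ (t a).2.1.getD (l a) false = false)
      ?_ ?_ (Poly.const [])
    · exact Poly.decide_and (Poly.decide_le (Poly.const 1) hl) (Poly.decide_and
        (Poly.decide_le hl hm) (Poly.decide_eq (Poly.getD hX hl (Poly.const false))
          (Poly.const false)))
    · exact Poly.cons (Poly.pair hl (Poly.pair (poly_mark hX hl) (Poly.succ hW)))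
        (Poly.const [])

theorem poly_dedS : Poly dedS := by
  unfold dedS
  refine Poly.foldr (l := fun l : List St => l) (s := fun _ => [])
    (F := fun _ x acc => if x ∈ acc then acc else x :: acc) Poly.id (Poly.const []) ?_
    Polynomial.X ?_
  · refine Poly.ite (p := fun p : List St × St × List St => p.2.1 ∈ p.2.2) ?_
      (Poly.snd (Poly.snd Poly.id))
      (Poly.cons (Poly.fst (Poly.snd Poly.id)) (Poly.snd (Poly.snd Poly.id)))
    exact (Poly.decide_mem (f := fun p : List St × St × List St => p.2.1)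
      (l := fun p => p.2.2) (Poly.fst (Poly.snd Poly.id)) (Poly.snd (Poly.snd Poly.id))).congr
        fun a => decide_eq_decide.2 Iff.rfl
  · intro l k _
    have h1 : ∀ l : List St, sz (dedS l) ≤ sz l := by
      intro l
      induction l with
      | nil => exact le_rfl
      | cons x l ih =>
        have h1 : dedS (x :: l) = if x ∈ dedS l then dedS l else x :: dedS l := rfl
        rw [h1]
        split_ifs
        · simp only [sz_list_cons]; omega
        · simp only [sz_list_cons]; omega
    have h2 := h1 (l.drop k)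
    have h3 := Poly.sz_drop_le l k
    rw [Polynomial.eval_X]
    exact h2.trans h3

theorem poly_dpStep {α : Type} [TEnc α] {m l : α → ℕ} {S : α → List St} (hm : Poly m)
    (hl : Poly l) (hS : Poly S) : Poly (fun a => dpStep (m a) (l a) (S a)) := by
  unfold dpStep
  refine poly_dedS.comp (Poly.flatMap (l := S) (F := fun a => mvs (m a) (l a)) hS ?_)
  exact poly_mvs (hm.comp (Poly.fst Poly.id)) (hl.comp (Poly.fst Poly.id)) (Poly.snd Poly.id)

/-- Dynamic programming is polynomial if there is enough padding. -/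
theorem poly_dp {α : Type} [TEnc α] {m : α → ℕ} {ls : α → List ℕ} {w : α → List Unit}
    (hm : UPoly m) (hls : Poly ls) (hw : Poly w) (h : ∀ a, 2 ^ (m a + 1) ≤ (w a).length) :
    Poly (fun a => dp (m a) (ls a)) := by
  obtain ⟨r, hr⟩ := hls.sz_le
  obtain ⟨r', hr'⟩ := hw.sz_le
  obtain ⟨rm, hrm⟩ := hm.sz_le
  refine Poly.foldr (l := ls) (s := fun a => st0 (m a)) (F := fun a => dpStep (m a)) hls ?_ ?_
    ((rm + 1) * (r' * (r + 1)) * (Polynomial.C 8 * rm + Polynomial.C 4 * r + 13) + 1) ?_
  · unfold st0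
    refine Poly.cons (Poly.pair (Poly.const 0) (Poly.pair ?_ (Poly.const 0))) (Poly.const [])
    refine Poly.congr (f := fun a => (List.replicate (m a + 1) ()).map (fun _ => false)) ?_
      fun a => by simp
    exact Poly.map (l := fun a => List.replicate (m a + 1) ()) (F := fun _ _ => false)
      (UPoly.add hm (UPoly.const 1)) (Poly.const false)
  · exact poly_dpStep (hm.toPoly.comp (Poly.fst Poly.id)) (Poly.fst (Poly.snd Poly.id))
      (Poly.snd (Poly.snd Poly.id))
  · intro a k hk
    change sz (dp (m a) ((ls a).drop k)) ≤ _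
    set L := (ls a).drop k with hL
    have h1 := dp_length (m a) L
    have h2 := (dp_bound (m a) L).2
    have h3 := hr a
    have h4 := hr' a
    have h5 : sz (List.replicate (m a) ()) ≤ rm.eval (sz a) := hrm a
    rw [sz_replicate_unit] at h5
    have h6 := length_lt_sz (ls a)
    have h7 := length_lt_sz (w a)
    have h8 := h a
    have h9 : L.length ≤ (ls a).length := by
      rw [hL, List.length_drop]
      omega
    have hB : sz (dp (m a) L) ≤ (dp (m a) L).length * (8 * m a + 4 * L.length + 13) + 1 := by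
      refine sz_le_length_mul (dp (m a) L) (8 * m a + 4 * L.length + 12) ?_
      rintro ⟨c, X, W⟩ ht
      obtain ⟨b1, b2, b3⟩ := h2 _ ht
      simp only at b1 b2 b3
      have c1 := sz_nat_le c
      have c2 := Poly.size_le_self c
      have c3 := sz_listBool_le X
      have c4 := sz_nat_le W
      have c5 := Poly.size_le_self W
      simp only [sz_pair]
      omega
    refine hB.trans ?_
    simp only [Polynomial.eval_add, Polynomial.eval_mul, Polynomial.eval_C, Polynomial.eval_one,
      Polynomial.eval_ofNat]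
    refine Nat.add_le_add_right (Nat.mul_le_mul (h1.trans ?_) (by omega)) 1
    exact Nat.mul_le_mul (by omega) (Nat.mul_le_mul (by omega) (by omega))

/-! ### The algorithm -/

/-- The exponent of the length of the padding. -/
def ex3 (x : X3) : ℕ := mm x + 1

theorem uPoly_ex3 : UPoly ex3 := UPoly.add uPoly_mm (UPoly.const 1)

theorem poly_decA :
    Poly (fun x : {x : X3 × List Unit // 2 ^ (ex3 x.1) ≤ x.2.length} => decA x.1.1) := by
  have hv : Poly (fun x : {x : X3 × List Unit // 2 ^ (ex3 x.1) ≤ x.2.length} => x.1) :=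
    Poly.val _
  have hx := Poly.fst hv
  unfold decA
  refine Poly.and (Poly.decide_lt (Poly.fst (Poly.snd hx)) (Poly.length (Poly.fst hx))) ?_
  refine Poly.any (l := fun x : {x : X3 × List Unit // 2 ^ (ex3 x.1) ≤ x.2.length} =>
    dp (mm x.1.1) ((dfs x.1.1.1 x.1.1.2.1).map Prod.snd))
    (p := fun x t => decide (x.1.1.2.2 ≤ t.2.2)) ?_ ?_
  · have hdfs : Poly (fun x : {x : X3 × List Unit // 2 ^ (ex3 x.1) ≤ x.2.length} =>
        dfs x.1.1.1 x.1.1.2.1) :=
      Poly.comp (g := fun a : List (List Bool) × ℕ => dfs a.1 a.2)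
        (f := fun x : {x : X3 × List Unit // 2 ^ (ex3 x.1) ≤ x.2.length} =>
          (x.1.1.1, x.1.1.2.1)) poly_dfs (Poly.pair (Poly.fst hx) (Poly.fst (Poly.snd hx)))
    have hls : Poly (fun x : {x : X3 × List Unit // 2 ^ (ex3 x.1) ≤ x.2.length} =>
        (dfs x.1.1.1 x.1.1.2.1).map Prod.snd) :=
      Poly.map (l := fun x : {x : X3 × List Unit // 2 ^ (ex3 x.1) ≤ x.2.length} =>
        dfs x.1.1.1 x.1.1.2.1) (F := fun _ e => e.2) hdfs (Poly.snd (Poly.snd Poly.id))
    have hmm : UPoly (fun x : {x : X3 × List Unit // 2 ^ (ex3 x.1) ≤ x.2.length} =>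
      mm x.1.1) := UPoly.comp uPoly_mm hx
    exact poly_dp (m := fun x : {x : X3 × List Unit // 2 ^ (ex3 x.1) ≤ x.2.length} => mm x.1.1)
      (ls := fun x => (dfs x.1.1.1 x.1.1.2.1).map Prod.snd)
      (w := fun x => x.1.2) hmm hls (Poly.snd hv) fun x => x.2
  · exact Poly.decide_le (Poly.snd (Poly.snd (hx.comp (Poly.fst Poly.id))))
      (Poly.snd (Poly.snd (Poly.snd Poly.id)))

theorem decA_run : ∃ (c : Cmd ℕ) (P : Polynomial ℕ), ∀ x : X3,
    Runs c (inp (bits x)) (inp (bits (decA x)))
      (P.eval ((bits x).length + 2 ^ (2 * ex3 x + 4))) :=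
  fpt_run decA ex3 (fun n => n) uPoly_ex3 poly_decA

/-- Saving `k` vertices of a tree is solvable in time `2 ^ O(√k) * |x| ^ O(1)`. -/
theorem saving_time : ∃ (c : ℕ) (p : Polynomial ℕ), DecTime (fun x : X3 => IsTreeWith x.1 x.2.1)
    SavingK (fun x => 2 ^ (c * Nat.sqrt x.2.2) * p.eval (bits x).length) := by
  obtain ⟨c0, P, h⟩ := decA_run
  obtain ⟨C, D, hCD⟩ := eval_le_pow P
  -- the estimate
  have key : ∀ x : X3, P.eval ((bits x).length + 2 ^ (2 * ex3 x + 4)) ≤
      2 ^ ((4 * D) * Nat.sqrt x.2.2) * (Polynomial.C (C * 1025 ^ D) *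
        (Polynomial.X + 1) ^ D).eval (bits x).length := by
    intro x
    set n := (bits x).length with hn
    set r := Nat.sqrt x.2.2 with hr
    have h1 : ex3 x ≤ 2 * r + 3 := by
      unfold ex3 mm
      rw [rr_eq]
      omega
    have h2 : 2 ^ (2 * ex3 x + 4) ≤ 1024 * 2 ^ (4 * r) := by
      calc 2 ^ (2 * ex3 x + 4) ≤ 2 ^ (10 + 4 * r) :=
            Nat.pow_le_pow_right (by norm_num) (by omega)
        _ = 1024 * 2 ^ (4 * r) := by rw [pow_add]; norm_num
    have h3 : 1 ≤ 2 ^ (4 * r) := Nat.one_le_two_pow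
    have h4 : n + 2 ^ (2 * ex3 x + 4) ≤ 1025 * (2 ^ (4 * r) * (n + 1)) := by
      have h5 : n ≤ 2 ^ (4 * r) * n := Nat.le_mul_of_pos_left _ h3
      have h6 : 1025 * (2 ^ (4 * r) * (n + 1)) = 1025 * (2 ^ (4 * r) * n) + 1025 * 2 ^ (4 * r) := by
        ring
      omega
    have h7 := hCD (n + 2 ^ (2 * ex3 x + 4)) (by
      have : 1 ≤ 2 ^ (2 * ex3 x + 4) := Nat.one_le_two_pow
      omega)
    refine h7.trans ?_
    have h8 := Nat.pow_le_pow_left h4 D
    refine (Nat.mul_le_mul_left C h8).trans (le_of_eq ?_)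
    simp only [Polynomial.eval_mul, Polynomial.eval_C, Polynomial.eval_pow, Polynomial.eval_add,
      Polynomial.eval_X, Polynomial.eval_one]
    rw [mul_pow, mul_pow, ← pow_mul]
    have e : 4 * r * D = 4 * D * r := by ring
    rw [e]
    ring
  obtain ⟨M, hM⟩ := toTm (f := decA) _ _ h
  refine ⟨4 * D, Polynomial.C (C * 1025 ^ D) * (Polynomial.X + 1) ^ D + 1, M, decA,
    fun x hx => ⟨decA_iff hx, ?_⟩⟩
  obtain ⟨h5⟩ := hM x
  refine ⟨outputs_conv rfl rfl ?_ h5⟩
  have h6 := key x
  have h7 : 1 ≤ 2 ^ ((4 * D) * Nat.sqrt x.2.2) := Nat.one_le_two_pow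
  simp only [Polynomial.eval_add, Polynomial.eval_one (R := ℕ)] at h6 ⊢
  rw [Nat.mul_add, Nat.mul_one]
  omega

end Pool.Agent.NPC.H683FF
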