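import Pool.Agent.H683.FF.WordList

/-!
# The reduction is computable in polynomial time
-/

set_option autoImplicit false

namespace Pool.Agent.NPC.H683FF

open Pool.Agent.H683.FF Pool.Agent.H633R2

/-- Instances of Clique. -/
abbrev X : Type := List (List Bool) × ℕ

theorem uPoly_n : UPoly (fun x : X => x.1.length) := UPoly.length (Poly.fst Poly.id)

theorem uPoly_gg : UPoly gg :=
  UPoly.of_le (Poly.min (Poly.snd Poly.id) (Poly.succ uPoly_n.toPoly))
    (UPoly.add uPoly_n (UPoly.const 1)) fun _ => min_le_right _ _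

theorem uPoly_be : UPoly be :=
  UPoly.add (UPoly.length (Poly.natBits uPoly_n.toPoly)) (UPoly.const 1)

theorem uPoly_b : UPoly (fun x : X => 2 * be x) := UPoly.mul (UPoly.const 2) uPoly_be

theorem uPoly_W : UPoly (fun x : X => gg x * gg x) := UPoly.mul uPoly_gg uPoly_gg

/-- Composition, for functions of an instance. -/
theorem onX {α β : Type} [TEnc α] [TEnc β] {f : X → β} (hf : Poly f) {q : α → X} (hq : Poly q) :
    Poly (fun a => f (q a)) := Poly.comp hf hq

theorem poly_ub {α : Type} [TEnc α] {q : α → X} {y : α → List Bool} (hq : Poly q) (hy : Poly y) :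
    Poly (fun a => ub (be (q a)) (y a)) := by
  unfold ub
  refine Poly.map (l := fun a => List.range (be (q a))) (F := fun a c => (y a).getD c false)
    (UPoly.range (UPoly.comp uPoly_be hq)) ?_
  exact Poly.getD (hy.comp (Poly.fst Poly.id)) (Poly.snd Poly.id) (Poly.const false)

theorem poly_vb {α : Type} [TEnc α] {q : α → X} {y : α → List Bool} (hq : Poly q) (hy : Poly y) :
    Poly (fun a => vb (be (q a)) (y a)) := by
  unfold vb
  refine Poly.map (l := fun a => List.range (be (q a)))
    (F := fun a c => (y a).getD (be (q a) + c) false) (UPoly.range (UPoly.comp uPoly_be hq)) ?_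
  exact Poly.getD (hy.comp (Poly.fst Poly.id))
    (Poly.add (onX uPoly_be.toPoly (hq.comp (Poly.fst Poly.id))) (Poly.snd Poly.id))
    (Poly.const false)

theorem poly_entry {α : Type} [TEnc α] {M : α → List (List Bool)} {i j : α → ℕ} (hM : Poly M)
    (hi : Poly i) (hj : Poly j) : Poly (fun a => entry (M a) (i a) (j a)) :=
  Poly.getD (Poly.getD hM hi (Poly.const [])) hj (Poly.const false)

theorem poly_okB {α : Type} [TEnc α] {q : α → X} {p : α → ℕ} {y : α → List Bool} (hq : Poly q)
    (hp : Poly p) (hy : Poly y) : Poly (fun a => okB (q a) (p a) (y a)) := by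
  unfold okB
  have hn : Poly (fun a => (q a).1.length) := onX uPoly_n.toPoly hq
  have hu : Poly (fun a => valB (ub (be (q a)) (y a))) := Poly.valBits (poly_ub hq hy)
  have hv : Poly (fun a => valB (vb (be (q a)) (y a))) := Poly.valBits (poly_vb hq hy)
  have hM : Poly (fun a => (q a).1) := Poly.fst hq
  have hg : Poly (fun a => gg (q a)) := onX uPoly_gg.toPoly hq
  refine Poly.and (Poly.decide_lt hu hn) (Poly.and (Poly.decide_lt hv hn) ?_)
  refine Poly.ite (p := fun a => p a / gg (q a) = p a % gg (q a)) ?_ (Poly.decide_eq hu hv) ?_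
  · exact Poly.decide_eq (Poly.div hp hg) (Poly.mod hp hg)
  · exact Poly.and (Poly.not (Poly.decide_eq hu hv)) (Poly.or (poly_entry hM hu hv)
      (poly_entry hM hv hu))

theorem poly_tsts : Poly tsts := by
  unfold tsts
  refine Poly.flatMap (l := fun x : X => List.range (gg x)) (F := fun x i =>
    (List.range (gg x)).flatMap fun j =>
    if i = j then [] else (List.range (be x)).flatMap fun c =>
      [((2 * be x) * (gg x * i + j) + c, (2 * be x) * (gg x * i + i) + c),
        ((2 * be x) * (gg x * i + j) + (be x + c), (2 * be x) * (gg x * j + j) + c)])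
    uPoly_gg.range ?_
  refine Poly.flatMap (l := fun a : X × ℕ => List.range (gg a.1)) (F := fun a j =>
    if a.2 = j then [] else (List.range (be a.1)).flatMap fun c =>
      [((2 * be a.1) * (gg a.1 * a.2 + j) + c, (2 * be a.1) * (gg a.1 * a.2 + a.2) + c),
        ((2 * be a.1) * (gg a.1 * a.2 + j) + (be a.1 + c),
          (2 * be a.1) * (gg a.1 * j + j) + c)])
    (UPoly.range (UPoly.comp uPoly_gg (Poly.fst Poly.id))) ?_
  refine Poly.ite (p := fun a : (X × ℕ) × ℕ => a.1.2 = a.2)
    (Poly.decide_eq (Poly.snd (Poly.fst Poly.id)) (Poly.snd Poly.id)) (Poly.const []) ?_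
  refine Poly.flatMap (l := fun a : (X × ℕ) × ℕ => List.range (be a.1.1)) (F := fun a c =>
      [((2 * be a.1.1) * (gg a.1.1 * a.1.2 + a.2) + c,
        (2 * be a.1.1) * (gg a.1.1 * a.1.2 + a.1.2) + c),
        ((2 * be a.1.1) * (gg a.1.1 * a.1.2 + a.2) + (be a.1.1 + c),
          (2 * be a.1.1) * (gg a.1.1 * a.2 + a.2) + c)])
    (UPoly.range (UPoly.comp uPoly_be (Poly.fst (Poly.fst Poly.id)))) ?_
  have hx : Poly (fun a : ((X × ℕ) × ℕ) × ℕ => a.1.1.1) :=
    Poly.fst (Poly.fst (Poly.fst Poly.id))
  have hi : Poly (fun a : ((X × ℕ) × ℕ) × ℕ => a.1.1.2) :=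
    Poly.snd (Poly.fst (Poly.fst Poly.id))
  have hj : Poly (fun a : ((X × ℕ) × ℕ) × ℕ => a.1.2) := Poly.snd (Poly.fst Poly.id)
  have hc : Poly (fun a : ((X × ℕ) × ℕ) × ℕ => a.2) := Poly.snd Poly.id
  have hb : Poly (fun a : ((X × ℕ) × ℕ) × ℕ => 2 * be a.1.1.1) := onX uPoly_b.toPoly hx
  have hbe : Poly (fun a : ((X × ℕ) × ℕ) × ℕ => be a.1.1.1) := onX uPoly_be.toPoly hx
  have hg : Poly (fun a : ((X × ℕ) × ℕ) × ℕ => gg a.1.1.1) := onX uPoly_gg.toPoly hx
  exact Poly.cons (Poly.pair (Poly.add (Poly.mul hb (Poly.add (Poly.mul hg hi) hj)) hc)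
      (Poly.add (Poly.mul hb (Poly.add (Poly.mul hg hi) hi)) hc))
    (Poly.cons (Poly.pair (Poly.add (Poly.mul hb (Poly.add (Poly.mul hg hi) hj))
      (Poly.add hbe hc)) (Poly.add (Poly.mul hb (Poly.add (Poly.mul hg hj) hj)) hc))
      (Poly.const []))

theorem uPoly_DD : UPoly DD :=
  UPoly.add (UPoly.mul (UPoly.const 2) (UPoly.mul uPoly_b uPoly_W))
    (UPoly.mul (UPoly.const 4) (UPoly.length poly_tsts))

theorem uPoly_kk : UPoly kk :=
  UPoly.add (UPoly.const 1) (UPoly.mul (UPoly.mul (UPoly.const 2) uPoly_W)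
    (UPoly.add uPoly_DD (UPoly.const 1)))

/-! ### All words -/

theorem allW_eq_foldr : ∀ n : ℕ, (List.replicate n ()).foldr
    (fun _ acc => acc.flatMap fun L => [false :: L, true :: L]) [[]] = allW n
  | 0 => rfl
  | n + 1 => by rw [List.replicate_succ, List.foldr_cons, allW_eq_foldr n, allW]

theorem sz_allW_le (n : ℕ) : sz (allW n) ≤ 2 ^ n * (4 * n + 2) + 1 := by
  have h := sz_le_length_mul (allW n) (4 * n + 1) (by
    intro y hy
    have h1 := sz_listBool_le y
    rw [mem_allW.1 hy] at h1
    exact h1)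
  rw [allW_length] at h
  exact h

theorem size_pow_le (n : ℕ) : 2 ^ (2 * (n.bits.length + 1)) ≤ 16 * (n * n) + 4 := by
  rw [Nat.size_eq_bits_len]
  rcases Nat.eq_zero_or_pos n with h | h
  · subst h
    simp
  · have h1 : 2 ^ (n.size - 1) ≤ n := by
      have h2 : n.size - 1 < n.size := by
        have := Nat.size_pos.2 h
        omega
      exact Nat.lt_size.1 h2
    have h3 : 0 < n.size := Nat.size_pos.2 h
    have h4 : 2 ^ (2 * (n.size + 1)) = 16 * (2 ^ (n.size - 1) * 2 ^ (n.size - 1)) := by
      rw [← pow_add]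
      have : 2 * (n.size + 1) = 4 + (n.size - 1 + (n.size - 1)) := by omega
      rw [this, pow_add]
      norm_num
    rw [h4]
    have h5 := Nat.mul_le_mul h1 h1
    omega

theorem poly_allW : Poly (fun x : X => allW (2 * be x)) := by
  obtain ⟨r, hr⟩ := uPoly_b.sz_le
  obtain ⟨r', hr'⟩ := uPoly_n.sz_le
  refine (Poly.foldr (l := fun x : X => List.replicate (2 * be x) ())
    (s := fun _ => ([[]] : List (List Bool)))
    (F := fun _ _ acc => acc.flatMap fun L => [false :: L, true :: L]) uPoly_b (Poly.const _) ?_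
    ((Polynomial.C 16 * (r' * r') + 4) * (Polynomial.C 4 * r + 2) + 1) ?_).congr
      fun x => allW_eq_foldr _
  · refine Poly.flatMap (l := fun p : X × Unit × List (List Bool) => p.2.2)
      (F := fun _ L => [false :: L, true :: L]) (Poly.snd (Poly.snd Poly.id)) ?_
    exact Poly.cons (Poly.cons (Poly.const false) (Poly.snd Poly.id))
      (Poly.cons (Poly.cons (Poly.const true) (Poly.snd Poly.id)) (Poly.const []))
  · intro x k hk
    rw [List.drop_replicate, allW_eq_foldr]
    refine (sz_allW_le _).trans ?_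
    simp only [Polynomial.eval_add, Polynomial.eval_mul, Polynomial.eval_C, Polynomial.eval_one,
      Polynomial.eval_ofNat]
    have h1 : 2 ^ (2 * be x - k) ≤ 2 ^ (2 * be x) := Nat.pow_le_pow_right (by norm_num) (by omega)
    have h2 : 2 ^ (2 * be x) ≤ 16 * (x.1.length * x.1.length) + 4 := size_pow_le _
    have h3 : sz (List.replicate (2 * be x) ()) ≤ r.eval (sz x) := hr x
    have h4 : sz (List.replicate x.1.length ()) ≤ r'.eval (sz x) := hr' x
    have h5 := length_lt_sz (List.replicate (2 * be x) ())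
    have h6 := length_lt_sz (List.replicate x.1.length ())
    rw [List.length_replicate] at h5 h6
    have h7 : x.1.length ≤ r'.eval (sz x) := by omega
    have h8 := Nat.mul_le_mul h7 h7
    refine Nat.add_le_add_right (Nat.mul_le_mul ?_ ?_) 1
    · omega
    · omega

/-! ### The words -/

theorem pth_eq_map (b p : ℕ) (y : List Bool) (e : Bool) (t : ℕ) :
    pth b p y e t = ((List.range t).reverse.map (ltr b p y e)) ++ [p] := by
  induction t with
  | zero => rfl
  | succ t ih =>
    rw [pth, ih, List.range_succ, List.reverse_append]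
    rfl

theorem poly_bl {α : Type} [TEnc α] {c : α → Bool} (hc : Poly c) : Poly (fun a => bl (c a)) := by
  unfold bl
  exact Poly.ite (p := fun a => c a = true) (Poly.decide_bool hc) (Poly.const 1) (Poly.const 0)

theorem poly_ltr {α : Type} [TEnc α] {b p i : α → ℕ} {y : α → List Bool} {e : α → Bool}
    (hb : Poly b) (hp : Poly p) (hy : Poly y) (he : Poly e) (hi : Poly i) :
    Poly (fun a => ltr (b a) (p a) (y a) (e a) (i a)) := by
  unfold ltr
  refine Poly.ite (p := fun a => i a % 2 = 0 ∧ i a / 2 / b a = p a) ?_ ?_ ?_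
  · exact Poly.decide_and (Poly.decide_eq (Poly.mod hi (Poly.const 2)) (Poly.const 0))
      (Poly.decide_eq (Poly.div (Poly.div hi (Poly.const 2)) hb) hp)
  · exact poly_bl (Poly.getD hy (Poly.mod (Poly.div hi (Poly.const 2)) hb) (Poly.const false))
  · refine Poly.ite (p := fun a => i a = 2 * (b a * p a + (b a - 1)) + 1) ?_ (poly_bl he)
      (Poly.const 0)
    exact Poly.decide_eq hi (Poly.add (Poly.mul (Poly.const 2) (Poly.add (Poly.mul hb hp)
      (Poly.sub hb (Poly.const 1)))) (Poly.const 1))

theorem poly_pth {α : Type} [TEnc α] {b p t : α → ℕ} {y : α → List Bool} {e : α → Bool}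
    (hb : Poly b) (hp : Poly p) (hy : Poly y) (he : Poly e) (ht : UPoly t) :
    Poly (fun a => pth (b a) (p a) (y a) (e a) (t a)) := by
  refine Poly.congr (f := fun a => ((List.range (t a)).reverse.map
    (ltr (b a) (p a) (y a) (e a))) ++ [p a]) ?_ fun a => (pth_eq_map _ _ _ _ _).symm
  refine Poly.append (Poly.map (l := fun a => (List.range (t a)).reverse)
    (F := fun a => ltr (b a) (p a) (y a) (e a)) (Poly.reverse ht.range) ?_)
    (Poly.cons hp (Poly.const []))
  exact poly_ltr (hb.comp (Poly.fst Poly.id)) (hp.comp (Poly.fst Poly.id))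
    (hy.comp (Poly.fst Poly.id)) (he.comp (Poly.fst Poly.id)) (Poly.snd Poly.id)

theorem poly_need {α : Type} [TEnc α] {b W p i : α → ℕ} {ts : α → List (ℕ × ℕ)}
    {y : α → List Bool} {e : α → Bool} (hb : Poly b) (hW : Poly W) (hts : Poly ts) (hp : Poly p)
    (hy : Poly y) (he : Poly e) (hi : Poly i) :
    Poly (fun a => need (b a) (W a) (ts a) (p a) (y a) (e a) (i a)) := by
  unfold need
  have hB : Poly (fun a => 2 * (b a * W a)) := Poly.mul (Poly.const 2) (Poly.mul hb hW)
  have hj : Poly (fun a => i a - 2 * (b a * W a)) := Poly.sub hi hB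
  have hr : Poly (fun a => (i a - 2 * (b a * W a)) % 4) := Poly.mod hj (Poly.const 4)
  have hq : Poly (fun a => (ts a).getD ((i a - 2 * (b a * W a)) / 4) (0, 0)) :=
    Poly.getD hts (Poly.div hj (Poly.const 4)) (Poly.const (0, 0))
  have hc : Poly (fun a => decide ((i a - 2 * (b a * W a)) % 4 = 1 ∨
      (i a - 2 * (b a * W a)) % 4 = 2)) :=
    Poly.decide_or (Poly.decide_eq hr (Poly.const 1)) (Poly.decide_eq hr (Poly.const 2))
  have he' : Poly (fun a => decide (e a = decide (2 ≤ (i a - 2 * (b a * W a)) % 4))) :=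
    Poly.decide_eq he (Poly.decide_le (Poly.const 2) hr)
  refine Poly.ite (p := fun a => i a < 2 * (b a * W a)) (Poly.decide_lt hi hB) ?_ ?_
  · exact Poly.decide_and (Poly.decide_eq (Poly.mod hi (Poly.const 2)) (Poly.const 1))
      (Poly.decide_eq (Poly.div (Poly.div hi (Poly.const 2)) hb) hp)
  · refine Poly.decide_or ?_ ?_
    · refine Poly.decide_and (Poly.decide_eq (Poly.div (Poly.fst hq) hb) hp)
        (Poly.decide_and he' ?_)
      exact Poly.decide_eq (Poly.getD hy (Poly.mod (Poly.fst hq) hb) (Poly.const false)) hc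
    · refine Poly.decide_and (Poly.decide_eq (Poly.div (Poly.snd hq) hb) hp)
        (Poly.decide_and he' ?_)
      exact Poly.decide_eq (Poly.getD hy (Poly.mod (Poly.snd hq) hb) (Poly.const false))
        (Poly.not hc)

theorem poly_need2 {α : Type} [TEnc α] {p i : α → ℕ} {q : α → X}
    {y : α → List Bool} (hq : Poly q) (hp : Poly p) (hy : Poly y) (hi : Poly i) :
    Poly (fun a => need2 (2 * be (q a)) (okB (q a)) (p a) (y a) (i a)) := by
  unfold need2
  have hb := onX uPoly_b.toPoly hq
  refine Poly.and (Poly.decide_eq hi (Poly.add (Poly.mul (Poly.const 2)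
    (Poly.add (Poly.mul hb hp) (Poly.sub hb (Poly.const 1)))) (Poly.const 1)))
    (Poly.not (poly_okB hq hp hy))

theorem poly_star {α : Type} [TEnc α] {Y : α → ℕ} {c : α → List ℕ} (hY : UPoly Y)
    (hc : Poly c) : Poly (fun a => Pool.Agent.H683.FF.star (Y a) (c a)) := by
  unfold Pool.Agent.H683.FF.star
  refine Poly.cons hc (Poly.map (l := fun a => List.range (Y a)) (F := fun a z => z :: c a)
    hY.range ?_)
  exact Poly.cons (Poly.snd Poly.id) (hc.comp (Poly.fst Poly.id))

theorem poly_chunk {α : Type} [TEnc α] {p t : α → ℕ} {q : α → X} {y : α → List Bool}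
    {e : α → Bool} (hq : Poly q) (hp : Poly p) (hy : Poly y) (he : Poly e) (ht : UPoly t) :
    Poly (fun a => chunk (q a) (p a) (y a) (e a) (t a)) := by
  unfold chunk
  have hb : Poly (fun a => 2 * be (q a)) := onX uPoly_b.toPoly hq
  have hpth := poly_pth hb hp hy he ht
  have hY : UPoly (fun a => kk (q a) + 1) := UPoly.add (UPoly.comp uPoly_kk hq) (UPoly.const 1)
  have hD : Poly (fun a => DD (q a)) := onX uPoly_DD.toPoly hq
  have hlt := Poly.decide_lt ht.toPoly hD
  refine Poly.cons hpth (Poly.append ?_ ?_)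
  · refine Poly.ite (p := fun a => t a < DD (q a) ∧ need (2 * be (q a)) (gg (q a) * gg (q a))
      (tsts (q a)) (p a) (y a) (e a) (t a) = true) (Poly.decide_and hlt (Poly.decide_bool ?_))
      (poly_star hY (Poly.cons (Poly.const 2) hpth)) (Poly.const [])
    exact poly_need hb (onX uPoly_W.toPoly hq) (onX poly_tsts hq) hp hy he ht.toPoly
  · refine Poly.ite (p := fun a => t a < DD (q a) ∧ need2 (2 * be (q a)) (okB (q a))
      (p a) (y a) (t a) = true) (Poly.decide_and hlt (Poly.decide_bool ?_))
      (poly_star hY (Poly.cons (Poly.const 3) hpth)) (Poly.const [])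
    exact poly_need2 hq hp hy ht.toPoly

theorem poly_dedW : Poly dedW := by
  unfold dedW
  refine Poly.foldr (l := fun l : List (List ℕ) => l) (s := fun _ => [])
    (F := fun _ x acc => if x ∈ acc then acc else x :: acc) Poly.id (Poly.const []) ?_
    Polynomial.X ?_
  · refine Poly.ite (p := fun p : List (List ℕ) × List ℕ × List (List ℕ) => p.2.1 ∈ p.2.2) ?_
      (Poly.snd (Poly.snd Poly.id))
      (Poly.cons (Poly.fst (Poly.snd Poly.id)) (Poly.snd (Poly.snd Poly.id)))
    exact (Poly.decide_mem (f := fun p : List (List ℕ) × List ℕ × List (List ℕ) => p.2.1)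
      (l := fun p => p.2.2) (Poly.fst (Poly.snd Poly.id)) (Poly.snd (Poly.snd Poly.id))).congr
        fun a => decide_eq_decide.2 Iff.rfl
  · intro l k _
    have h1 : ∀ l : List (List ℕ), sz (dedW l) ≤ sz l := by
      intro l
      induction l with
      | nil => exact le_rfl
      | cons x l ih =>
        have h1 : dedW (x :: l) = if x ∈ dedW l then dedW l else x :: dedW l := rfl
        rw [h1]
        split_ifs
        · simp; omega
        · simp; omega
    have h2 := h1 (l.drop k)
    have h3 := Poly.sz_drop_le l k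
    rw [Polynomial.eval_X]
    exact h2.trans h3

theorem poly_rest : Poly rest := by
  refine Poly.congr (f := fun x : X => H683.FF.star (kk x + 1) [gg x * gg x] ++
    (List.range (gg x * gg x)).flatMap fun p => (allW (2 * be x)).flatMap fun y =>
      [false, true].flatMap fun e => (List.range (DD x + 1)).flatMap fun t =>
        chunk x p y e (min t (DD x))) ?_ ?_
  · refine Poly.append (poly_star (UPoly.add uPoly_kk (UPoly.const 1))
      (Poly.cons uPoly_W.toPoly (Poly.const []))) ?_
    refine Poly.flatMap (l := fun x : X => List.range (gg x * gg x)) (F := fun x p =>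
      (allW (2 * be x)).flatMap fun y => [false, true].flatMap fun e =>
        (List.range (DD x + 1)).flatMap fun t => chunk x p y e (min t (DD x))) uPoly_W.range ?_
    refine Poly.flatMap (l := fun a : X × ℕ => allW (2 * be a.1)) (F := fun a y =>
      [false, true].flatMap fun e => (List.range (DD a.1 + 1)).flatMap fun t =>
        chunk a.1 a.2 y e (min t (DD a.1))) (onX poly_allW (Poly.fst Poly.id)) ?_
    refine Poly.flatMap (l := fun _ : (X × ℕ) × List Bool => [false, true]) (F := fun a e =>
      (List.range (DD a.1.1 + 1)).flatMap fun t =>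
        chunk a.1.1 a.1.2 a.2 e (min t (DD a.1.1))) (Poly.const _) ?_
    refine Poly.flatMap (l := fun a : ((X × ℕ) × List Bool) × Bool =>
      List.range (DD a.1.1.1 + 1)) (F := fun a t =>
        chunk a.1.1.1 a.1.1.2 a.1.2 a.2 (min t (DD a.1.1.1)))
      (UPoly.range (UPoly.add (UPoly.comp uPoly_DD (Poly.fst (Poly.fst (Poly.fst Poly.id))))
        (UPoly.const 1))) ?_
    have hx : Poly (fun a : (((X × ℕ) × List Bool) × Bool) × ℕ => a.1.1.1.1) :=
      Poly.fst (Poly.fst (Poly.fst (Poly.fst Poly.id)))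
    refine poly_chunk hx (Poly.snd (Poly.fst (Poly.fst (Poly.fst Poly.id))))
      (Poly.snd (Poly.fst (Poly.fst Poly.id))) (Poly.snd (Poly.fst Poly.id)) ?_
    exact UPoly.of_le (Poly.min (Poly.snd Poly.id) (onX uPoly_DD.toPoly hx))
      (UPoly.comp uPoly_DD hx) fun _ => min_le_right _ _
  · intro x
    unfold rest
    congr 1
    have h : ∀ (p : ℕ) (y : List Bool) (e : Bool),
        ((List.range (DD x + 1)).flatMap fun t => chunk x p y e (min t (DD x))) =
        (List.range (DD x + 1)).flatMap fun t => chunk x p y e t := by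
      intro p y e
      refine List.flatMap_congr fun t ht => ?_
      have := List.mem_range.1 ht
      rw [min_eq_left (by omega)]
    simp only [h]

theorem poly_wl : Poly wl := Poly.cons (Poly.const []) (poly_dedW.comp poly_rest)

theorem poly_wmat : Poly wmat := by
  unfold wmat
  refine Poly.map (l := fun L : List (List ℕ) => L)
    (F := fun L u => L.map (fun v => decide (v ≠ [] ∧ v.tail = u))) Poly.id ?_
  refine Poly.map (l := fun a : List (List ℕ) × List ℕ => a.1)
    (F := fun a v => decide (v ≠ [] ∧ v.tail = a.2)) (Poly.fst Poly.id) ?_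
  refine Poly.decide_and (Poly.decide_not (Poly.decide_eq (Poly.snd Poly.id) (Poly.const [])))
    (Poly.decide_eq (Poly.tail (Poly.snd Poly.id)) (Poly.snd (Poly.fst Poly.id)))

theorem poly_redA : Poly redA :=
  Poly.pair (poly_wmat.comp poly_wl) (Poly.pair (Poly.const 0) uPoly_kk.toPoly)

theorem poly_redM : Poly redM :=
  Poly.pair (poly_wmat.comp poly_wl) (Poly.pair (Poly.const 0)
    (Poly.pair (Poly.succ uPoly_DD.toPoly) (Poly.sub (Poly.length poly_wl) uPoly_kk.toPoly)))

end Pool.Agent.NPC.H683FF
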