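import Pool.Agent.H683.FF.Defs

/-!
# Strategies on rooted trees in normal form
-/

set_option autoImplicit false

namespace Pool.Agent.H683.FF

variable {V : Type} {G : SimpleGraph V} {s : V} {par : V → V} {lev : V → ℕ}

/-- `par` and `lev` are the parent map and the levels of the tree `G` with root `s`. -/
structure Rooted (G : SimpleGraph V) (s : V) (par : V → V) (lev : V → ℕ) : Prop where
  lev_root : lev s = 0
  root_of_lev : ∀ v, lev v = 0 → v = s
  lev_par : ∀ v, v ≠ s → lev v = lev (par v) + 1
  adj : ∀ u v, G.Adj u v ↔ (v ≠ s ∧ u = par v) ∨ (u ≠ s ∧ v = par u)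

/-- The sets that may burn if in step `t` a vertex of level `t` is protected. -/
structure Normal (s : V) (par : V → V) (lev : V → ℕ) (B : Set V) : Prop where
  root : s ∈ B
  closed : ∀ v, v ∈ B → v ≠ s → par v ∈ B
  cut : ∀ u v, u ∉ B → v ∉ B → par u ∈ B → par v ∈ B → lev u = lev v → u = v

theorem burning_mono {σ : ℕ → Option V} {t t' : ℕ} (h : t ≤ t') :
    Burning G s σ t ⊆ Burning G s σ t' := by
  induction h with
  | refl => exact fun _ h => h
  | step _ ih => exact fun v hv => Or.inl (ih hv)

theorem Rooted.burning_closed (hR : Rooted G s par lev) {σ : ℕ → Option V} :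
    ∀ t v, v ∈ Burning G s σ t → v ∈ Burning G s σ (lev v) ∧ lev v ≤ t ∧
      (v ≠ s → par v ∈ Burning G s σ (lev (par v)) ∧ ∀ i ≤ lev (par v), σ i ≠ some v) := by
  intro t
  induction t with
  | zero =>
    intro v hv
    have e : v = s := hv
    subst e
    rw [hR.lev_root]
    exact ⟨rfl, le_rfl, fun h => absurd rfl h⟩
  | succ t ih =>
    rintro v (hv | ⟨⟨u, hu, ha⟩, hn⟩)
    · obtain ⟨h1, h2, h3⟩ := ih v hv
      exact ⟨h1, h2.trans (Nat.le_succ t), h3⟩
    · obtain ⟨h1, h2, h3⟩ := ih u hu
      rcases (hR.adj u v).1 ha with ⟨h4, h5⟩ | ⟨h4, h5⟩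
      · subst h5
        have e := hR.lev_par v h4
        refine ⟨?_, by omega, fun _ => ⟨h1, fun i hi => hn i (by omega)⟩⟩
        rw [e]
        exact Or.inr ⟨⟨_, h1, ha⟩, fun i hi => hn i (by omega)⟩
      · subst h5
        have e := hR.lev_par u h4
        have h6 := (h3 h4).1
        obtain ⟨h7, h8, h9⟩ := ih _ (burning_mono (by omega) h6)
        exact ⟨h7, by omega, h9⟩

/-- Every burned set contains a set in normal form. -/
theorem Rooted.exists_normal (hR : Rooted G s par lev) (σ : ℕ → Option V) :
    ∃ B : Set V, Normal s par lev B ∧ B ⊆ Burned G s σ := by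
  refine ⟨{v | ∀ i < lev v, ∀ w, σ i = some w → i < lev w →
    par^[lev w - (i + 1)] w ≠ par^[lev v - (i + 1)] v}, ⟨?_, ?_, ?_⟩, ?_⟩
  · intro i hi
    rw [hR.lev_root] at hi
    omega
  · intro v hv hs i hi w hw hiw
    have e := hR.lev_par v hs
    have h := hv i (by omega) w hw hiw
    have e2 : lev v - (i + 1) = (lev (par v) - (i + 1)) + 1 := by omega
    rwa [e2, Function.iterate_succ_apply] at h
  · have key : ∀ v, v ∉ {v | ∀ i < lev v, ∀ w, σ i = some w → i < lev w →
        par^[lev w - (i + 1)] w ≠ par^[lev v - (i + 1)] v} →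
        par v ∈ {v | ∀ i < lev v, ∀ w, σ i = some w → i < lev w →
        par^[lev w - (i + 1)] w ≠ par^[lev v - (i + 1)] v} →
        0 < lev v ∧ ∃ w, σ (lev v - 1) = some w ∧ par^[lev w - lev v] w = v := by
      intro v hv hp
      simp only [Set.mem_ofPred_eq, not_forall, not_not] at hv
      obtain ⟨i, hi, w, hw, hiw, he⟩ := hv
      have hs : v ≠ s := by
        rintro rfl
        rw [hR.lev_root] at hi
        omega
      have e := hR.lev_par v hs
      rcases Nat.lt_or_ge i (lev (par v)) with h | h
      · exfalso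
        refine hp i h w hw hiw ?_
        have e2 : lev v - (i + 1) = (lev (par v) - (i + 1)) + 1 := by omega
        rw [he, e2, Function.iterate_succ_apply]
      · have e3 : i = lev v - 1 := by omega
        subst e3
        have e4 : lev v - 1 + 1 = lev v := by omega
        rw [e4, Nat.sub_self] at he
        exact ⟨by omega, w, hw, he⟩
    intro u v hu hv hpu hpv hl
    obtain ⟨_, w, hw, h1⟩ := key u hu hpu
    obtain ⟨_, w', hw', h2⟩ := key v hv hpv
    rw [hl] at hw
    have e : w = w' := Option.some.inj (hw.symm.trans hw')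
    subst e
    rw [← h1, ← h2, hl]
  · have key : ∀ n v, lev v = n → (∀ i < lev v, ∀ w, σ i = some w → i < lev w →
        par^[lev w - (i + 1)] w ≠ par^[lev v - (i + 1)] v) → v ∈ Burning G s σ n := by
      intro n
      induction n with
      | zero =>
        intro v hv _
        exact hR.root_of_lev v hv
      | succ n ih =>
        intro v hv h
        have hs : v ≠ s := by
          rintro rfl
          rw [hR.lev_root] at hv
          omega
        have e := hR.lev_par v hs
        refine Or.inr ⟨⟨par v, ih (par v) (by omega) ?_, (hR.adj _ _).2 (Or.inl ⟨hs, rfl⟩)⟩, ?_⟩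
        · intro i hi w hw hiw
          have h := h i (by omega) w hw hiw
          have e2 : lev v - (i + 1) = (lev (par v) - (i + 1)) + 1 := by omega
          rwa [e2, Function.iterate_succ_apply] at h
        · intro i hi hv'
          exact h i (by omega) v hv' (by omega) rfl
    exact fun v hv => ⟨lev v, key _ v rfl hv⟩

/-- A set in normal form is the burned set of a strategy that protects in step `t + 1` a vertex of
level `t + 1`. -/
theorem Rooted.exists_strategy (hR : Rooted G s par lev) {B : Set V} (hB : Normal s par lev B) :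
    ∃ σ : ℕ → Option V, IsStrategy G s σ ∧ Burned G s σ = B ∧ Saved G s σ = Bᶜ ∧
      ∀ t v, σ t = some v → v ∉ B ∧ par v ∈ B ∧ lev v = t + 1 := by
  classical
  set σ : ℕ → Option V := fun t =>
    if h : ∃ v, v ∉ B ∧ par v ∈ B ∧ lev v = t + 1 then some h.choose else none with hσ
  have h1 : ∀ t v, σ t = some v → v ∉ B ∧ par v ∈ B ∧ lev v = t + 1 := by
    intro t v h
    simp only [hσ] at h
    split_ifs at h with h2
    have e := Option.some.inj h
    rw [← e]
    exact h2.choose_spec
  have h2 : ∀ v, v ∉ B → par v ∈ B → v ≠ s → σ (lev (par v)) = some v := by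
    intro v hv hp hs
    have e := hR.lev_par v hs
    have hex : ∃ u, u ∉ B ∧ par u ∈ B ∧ lev u = lev (par v) + 1 := ⟨v, hv, hp, e⟩
    simp only [hσ]
    rw [dif_pos hex]
    congr 1
    have h3 := hex.choose_spec
    exact hB.cut _ _ h3.1 hv h3.2.1 hp (h3.2.2.trans e.symm)
  have key : ∀ t v, v ∈ Burning G s σ t ↔ v ∈ B ∧ lev v ≤ t := by
    intro t
    induction t with
    | zero =>
      intro v
      constructor
      · intro hv
        have e : v = s := hv
        rw [e]
        exact ⟨hB.root, hR.lev_root.le⟩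
      · rintro ⟨_, h⟩
        exact hR.root_of_lev v (by omega)
    | succ t ih =>
      intro v
      constructor
      · rintro (hv | ⟨⟨u, hu, ha⟩, hn⟩)
        · have := (ih v).1 hv
          exact ⟨this.1, by omega⟩
        · have hu' := (ih u).1 hu
          rcases (hR.adj u v).1 ha with ⟨h4, h5⟩ | ⟨h4, h5⟩
          · subst h5
            have e := hR.lev_par v h4
            refine ⟨?_, by omega⟩
            by_contra hv
            exact hn _ hu'.2 (h2 v hv hu'.1 h4)
          · subst h5
            have e := hR.lev_par u h4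
            exact ⟨hB.closed u hu'.1 h4, by omega⟩
      · rintro ⟨hv, hl⟩
        rcases Nat.lt_or_ge (lev v) (t + 1) with h | h
        · exact Or.inl ((ih v).2 ⟨hv, by omega⟩)
        · have hs : v ≠ s := by
            rintro rfl
            rw [hR.lev_root] at h
            omega
          have e := hR.lev_par v hs
          refine Or.inr ⟨⟨par v, (ih _).2 ⟨hB.closed v hv hs, by omega⟩,
            (hR.adj _ _).2 (Or.inl ⟨hs, rfl⟩)⟩, fun i _ hi => (h1 i v hi).1 hv⟩
  have h4 : Burned G s σ = B := by
    ext v
    constructor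
    · rintro ⟨t, ht⟩
      exact ((key t v).1 ht).1
    · intro hv
      exact ⟨lev v, (key _ v).2 ⟨hv, le_rfl⟩⟩
  refine ⟨σ, ?_, h4, ?_, h1⟩
  · intro t v h h'
    exact (h1 t v h).1 ((key t v).1 h').1
  · ext v
    constructor
    · intro hv hB'
      exact hv (lev v) ((key _ v).2 ⟨hB', le_rfl⟩)
    · intro hv t ht
      exact hv ((key t v).1 ht).1

theorem saved_eq (σ : ℕ → Option V) : Saved G s σ = (Burned G s σ)ᶜ := by
  ext v
  simp [Saved, Burned]

theorem Rooted.reachable (hR : Rooted G s par lev) : ∀ n v, lev v = n → G.Reachable s v := by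
  intro n
  induction n with
  | zero =>
    intro v hv
    rw [hR.root_of_lev v hv]
  | succ n ih =>
    intro v hv
    have hs : v ≠ s := by
      rintro rfl
      rw [hR.lev_root] at hv
      omega
    have e := hR.lev_par v hs
    refine (ih (par v) (by omega)).trans ?_
    exact ((hR.adj _ _).2 (Or.inl ⟨hs, rfl⟩)).reachable

/-- A graph with a parent map is a tree. -/
theorem Rooted.isTree [Finite V] (hR : Rooted G s par lev) : G.IsTree := by
  classical
  have := Fintype.ofFinite V
  rw [SimpleGraph.isTree_iff_connected_and_card]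
  have hc : G.Connected := by
    have : Nonempty V := ⟨s⟩
    exact ⟨fun u v => ((hR.reachable _ u rfl).symm.trans (hR.reachable _ v rfl))⟩
  refine ⟨hc, ?_⟩
  have e1 : Nat.card G.edgeSet = Nat.card {v : V // v ≠ s} := by
    refine (Nat.card_congr (Equiv.ofBijective
      (fun v : {v : V // v ≠ s} => (⟨s(par v.1, v.1), (hR.adj _ _).2 (Or.inl ⟨v.2, rfl⟩)⟩ :
        G.edgeSet)) ⟨?_, ?_⟩)).symm
    · rintro ⟨u, hu⟩ ⟨v, hv⟩ h
      have h0 := congrArg Subtype.val h
      have h : (par u = par v ∧ u = v) ∨ (par u = v ∧ u = par v) := Sym2.eq_iff.1 h0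
      rcases h with ⟨_, h⟩ | ⟨h, h'⟩
      · exact Subtype.ext h
      · exfalso
        have e := hR.lev_par u hu
        have e' := hR.lev_par v hv
        rw [h] at e
        rw [← h'] at e'
        omega
    · rintro ⟨e, he⟩
      induction e using Sym2.ind with
      | _ a b =>
        rcases (hR.adj a b).1 he with ⟨h, h'⟩ | ⟨h, h'⟩
        · refine ⟨⟨b, h⟩, Subtype.ext ?_⟩
          subst h'
          rfl
        · refine ⟨⟨a, h⟩, Subtype.ext ?_⟩
          subst h'
          exact Sym2.eq_swap
  rw [e1]
  simp only [Nat.card_eq_fintype_card, Fintype.card_subtype_compl, Fintype.card_subtype_eq]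
  have : 0 < Fintype.card V := Fintype.card_pos_iff.2 ⟨s⟩
  omega

end Pool.Agent.H683.FF
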