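import Pool.Agent.H683.FF.Clique

/-!
# The list of the words of the tree
-/

set_option autoImplicit false

namespace Pool.Agent.H683.FF

open Pool.Agent.NPC Pool.Agent.H633R2

/-- Removing repetitions. -/
def dedW (l : List (List ℕ)) : List (List ℕ) :=
  l.foldr (fun x acc => if x ∈ acc then acc else x :: acc) []

theorem dedW_eq (l : List (List ℕ)) : dedW l = l.dedup := by
  induction l with
  | nil => rfl
  | cons x l ih =>
    have h1 : dedW (x :: l) = if x ∈ dedW l then dedW l else x :: dedW l := rfl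
    rw [h1, ih]
    by_cases h : x ∈ l
    · rw [List.dedup_cons_of_mem h, if_pos (List.mem_dedup.2 h)]
    · rw [List.dedup_cons_of_notMem h, if_neg (fun h' => h (List.mem_dedup.1 h'))]

/-- A word with its children `0, …, Y - 1`. -/
def star (Y : ℕ) (c : List ℕ) : List (List ℕ) := c :: (List.range Y).map (fun z => z :: c)

theorem mem_star {Y : ℕ} {c v : List ℕ} : v ∈ star Y c ↔ v = c ∨ ∃ z < Y, v = z :: c := by
  simp only [star, List.mem_cons, List.mem_map, List.mem_range]
  refine or_congr_right (exists_congr fun z => and_congr_right fun _ => eq_comm)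

/-- The number of indices. -/
def DD (x : List (List Bool) × ℕ) : ℕ := 2 * (2 * be x * (gg x * gg x)) + 4 * (tsts x).length

/-- A main word and the bad words below it. -/
def chunk (x : List (List Bool) × ℕ) (p : ℕ) (y : List Bool) (e : Bool) (t : ℕ) :
    List (List ℕ) :=
  pth (2 * be x) p y e t ::
    ((if t < DD x ∧ need (2 * be x) (gg x * gg x) (tsts x) p y e t = true then
      star (kk x + 1) (2 :: pth (2 * be x) p y e t) else []) ++
    (if t < DD x ∧ need2 (2 * be x) (okB x) p y t = true then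
      star (kk x + 1) (3 :: pth (2 * be x) p y e t) else []))

/-- The words except the empty word, with repetitions. -/
def rest (x : List (List Bool) × ℕ) : List (List ℕ) :=
  star (kk x + 1) [gg x * gg x] ++
    (List.range (gg x * gg x)).flatMap fun p => (allW (2 * be x)).flatMap fun y =>
      [false, true].flatMap fun e => (List.range (DD x + 1)).flatMap fun t => chunk x p y e t

/-- The words of the tree. -/
def wl (x : List (List Bool) × ℕ) : List (List ℕ) := [] :: dedW (rest x)

theorem mem_chunk {x : List (List Bool) × ℕ} {p : ℕ} {y : List Bool} {e : Bool} {t : ℕ}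
    {v : List ℕ} : v ∈ chunk x p y e t ↔ v = pth (2 * be x) p y e t ∨
      ((t < DD x ∧ need (2 * be x) (gg x * gg x) (tsts x) p y e t = true) ∧
        (v = 2 :: pth (2 * be x) p y e t ∨ ∃ z < kk x + 1, v = z :: 2 :: pth (2 * be x) p y e t)) ∨
      ((t < DD x ∧ need2 (2 * be x) (okB x) p y t = true) ∧
        (v = 3 :: pth (2 * be x) p y e t ∨
          ∃ z < kk x + 1, v = z :: 3 :: pth (2 * be x) p y e t)) := by
  unfold chunk
  rw [List.mem_cons, List.mem_append]
  refine or_congr_right (or_congr ?_ ?_)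
  · split_ifs with h
    · rw [mem_star]
      simp [h]
    · simp [h]
  · split_ifs with h
    · rw [mem_star]
      simp [h]
    · simp [h]

theorem mem_wl (x : List (List Bool) × ℕ) (v : List ℕ) : v ∈ wl x ↔ (dat x).InT v := by
  unfold wl rest
  rw [List.mem_cons, dedW_eq, List.mem_dedup, List.mem_append, mem_star]
  simp only [List.mem_flatMap, List.mem_range, mem_allW, List.mem_cons, List.not_mem_nil,
    or_false]
  constructor
  · rintro (rfl | (rfl | ⟨z, hz, rfl⟩) | ⟨p, hp, y, hy, e, _, t, ht, h⟩)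
    · exact Data.InT.nil
    · exact Data.InT.rc (d := dat x)
    · exact Data.InT.rl (d := dat x) z hz
    · rcases mem_chunk.1 h with rfl | ⟨⟨h1, h2⟩, rfl | ⟨z, hz, rfl⟩⟩ | ⟨⟨h1, h2⟩, rfl | ⟨z, hz, rfl⟩⟩
      · exact Data.InT.main (d := dat x) p y e t hp hy (by
          change t ≤ DD x
          omega)
      · exact Data.InT.c2 (d := dat x) p y e t hp hy h1 h2
      · exact Data.InT.l2 (d := dat x) z p y e t hz hp hy h1 h2
      · exact Data.InT.c3 (d := dat x) p y e t hp hy h1 h2
      · exact Data.InT.l3 (d := dat x) z p y e t hz hp hy h1 h2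
  · intro h
    have hb : ∀ e : Bool, e = false ∨ e = true := by
      intro e
      cases e <;> simp
    cases h with
    | nil => exact Or.inl rfl
    | rc => exact Or.inr (Or.inl (Or.inl rfl))
    | rl z hz => exact Or.inr (Or.inl (Or.inr ⟨z, hz, rfl⟩))
    | main p y e t hp hy ht =>
      exact Or.inr (Or.inr ⟨p, hp, y, hy, e, hb e, t, Nat.lt_succ_of_le ht,
        mem_chunk.2 (Or.inl rfl)⟩)
    | c2 p y e t hp hy ht hn =>
      exact Or.inr (Or.inr ⟨p, hp, y, hy, e, hb e, t, Nat.lt_succ_of_lt ht,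
        mem_chunk.2 (Or.inr (Or.inl ⟨⟨ht, hn⟩, Or.inl rfl⟩))⟩)
    | l2 z p y e t hz hp hy ht hn =>
      exact Or.inr (Or.inr ⟨p, hp, y, hy, e, hb e, t, Nat.lt_succ_of_lt ht,
        mem_chunk.2 (Or.inr (Or.inl ⟨⟨ht, hn⟩, Or.inr ⟨z, hz, rfl⟩⟩))⟩)
    | c3 p y e t hp hy ht hn =>
      exact Or.inr (Or.inr ⟨p, hp, y, hy, e, hb e, t, Nat.lt_succ_of_lt ht,
        mem_chunk.2 (Or.inr (Or.inr ⟨⟨ht, hn⟩, Or.inl rfl⟩))⟩)
    | l3 z p y e t hz hp hy ht hn =>
      exact Or.inr (Or.inr ⟨p, hp, y, hy, e, hb e, t, Nat.lt_succ_of_lt ht,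
        mem_chunk.2 (Or.inr (Or.inr ⟨⟨ht, hn⟩, Or.inr ⟨z, hz, rfl⟩⟩))⟩)

theorem wl_tree (x : List (List Bool) × ℕ) : WTree (wl x) := by
  refine ⟨?_, rfl, ?_⟩
  · unfold wl
    rw [List.nodup_cons, dedW_eq]
    refine ⟨?_, List.nodup_dedup _⟩
    rw [List.mem_dedup]
    unfold rest
    rw [List.mem_append, mem_star]
    simp only [List.mem_flatMap, not_or, not_exists, not_and]
    refine ⟨⟨by simp, by simp⟩, ?_⟩
    intro p _ y _ e _ t _ h
    rcases mem_chunk.1 h with h | ⟨_, h | ⟨z, _, h⟩⟩ | ⟨_, h | ⟨z, _, h⟩⟩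
    · exact pth_ne_nil _ _ _ _ _ h.symm
    all_goals simp at h
  · intro v hv
    rw [mem_wl] at hv ⊢
    exact hv.tail

/-- The reduction to Saving All But `k` Vertices. -/
def redA (x : List (List Bool) × ℕ) : List (List Bool) × ℕ × ℕ := (wmat (wl x), 0, kk x)

/-- The reduction to Maximum `k`-Vertex Protection. -/
def redM (x : List (List Bool) × ℕ) : List (List Bool) × ℕ × ℕ × ℕ :=
  (wmat (wl x), 0, DD x + 1, (wl x).length - kk x)

theorem redA_iff (x : List (List Bool) × ℕ) : SavingAllBut (redA x) ↔ HasClique x := by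
  rw [← sol_iff]
  constructor
  · intro h
    obtain ⟨B, hB, hk⟩ := normal_of_allBut (wl_tree x) h
    exact sol_of_normal (mem_wl x) hB hk (Nat.lt_succ_self _)
  · rintro ⟨y, hy⟩
    exact allBut_of_normal (wl_tree x) (Data.wnormal_burn (mem_wl x) hy)
      (Data.burn_ncard (dat x) y)

theorem kk_le_length (x : List (List Bool) × ℕ) : kk x ≤ (wl x).length := by
  have h : (star (kk x + 1) [gg x * gg x]).length ≤ (wl x).length := by
    have h1 : (star (kk x + 1) [gg x * gg x]).Nodup := by
      unfold star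
      rw [List.nodup_cons]
      refine ⟨by simp, ?_⟩
      refine List.Nodup.map ?_ List.nodup_range
      intro a b h
      exact (List.cons.inj h).1
    refine (h1.subperm ?_).length_le
    intro v hv
    unfold wl rest
    rw [List.mem_cons, dedW_eq, List.mem_dedup, List.mem_append]
    exact Or.inr (Or.inl hv)
  have h2 : (star (kk x + 1) [gg x * gg x]).length = kk x + 2 := by
    simp [star]
  omega

theorem redM_iff (x : List (List Bool) × ℕ) : MaxProtection (redM x) ↔ HasClique x := by
  rw [← sol_iff]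
  have h0 := kk_le_length x
  constructor
  · intro h
    obtain ⟨B, hB, hk⟩ := normal_of_maxProt (k := kk x) (wl_tree x) (by omega) h
    exact sol_of_normal (mem_wl x) hB hk (Nat.lt_succ_self _)
  · rintro ⟨y, hy⟩
    refine maxProt_of_normal (k := kk x) (wl_tree x) (Data.wnormal_burn (mem_wl x) hy)
      (Data.burn_ncard (dat x) y) ?_ (by omega)
    intro v hv h1 h2
    exact Data.cut_length ((mem_wl x v).1 hv) h2 h1

end Pool.Agent.H683.FF
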