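import Pool.Agent.H683.FF.Rooted

/-!
# Trees of words: the parent of the word `a :: w` is `w`
-/

set_option autoImplicit false

namespace Pool.Agent.H683.FF

open Pool.Agent.NPC Pool.Agent.H633R2

/-- The matrix of the tree of the words in `L`. -/
def wmat (L : List (List ℕ)) : List (List Bool) :=
  L.map (fun u => L.map (fun v => decide (v ≠ [] ∧ v.tail = u)))

/-- Lists of words that are trees. -/
structure WTree (L : List (List ℕ)) : Prop where
  nodup : L.Nodup
  head : L.head? = some []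
  tail : ∀ v ∈ L, v.tail ∈ L

/-- The sets of words that may burn. -/
structure WNormal (L : List (List ℕ)) (B : Set (List ℕ)) : Prop where
  sub : ∀ v ∈ B, v ∈ L
  root : [] ∈ B
  closed : ∀ v ∈ B, v.tail ∈ B
  cut : ∀ u ∈ L, ∀ v ∈ L, u ∉ B → v ∉ B → u.tail ∈ B → v.tail ∈ B → u.length = v.length → u = v

variable {L : List (List ℕ)}

theorem wmat_length (L : List (List ℕ)) : (wmat L).length = L.length := by
  simp [wmat]

/-- The word with number `i`. -/
def wd (L : List (List ℕ)) (i : Fin (wmat L).length) : List ℕ :=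
  L[i.1]'(lt_of_lt_of_eq i.2 (wmat_length L))

theorem wd_mem (i : Fin (wmat L).length) : wd L i ∈ L := List.getElem_mem _

theorem entry_wmat (i j : Fin (wmat L).length) :
    entry (wmat L) i j = decide (wd L j ≠ [] ∧ (wd L j).tail = wd L i) := by
  have hi : i.1 < L.length := lt_of_lt_of_eq i.2 (wmat_length L)
  have hj : j.1 < L.length := lt_of_lt_of_eq j.2 (wmat_length L)
  have e1 : (wmat L).getD i.1 [] = L.map (fun v => decide (v ≠ [] ∧ v.tail = L[i.1])) := by
    unfold wmat
    rw [List.getD_eq_getElem _ _ (by simpa using hi), List.getElem_map]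
  unfold entry
  rw [e1, List.getD_eq_getElem _ _ (by simpa using hj), List.getElem_map]
  rfl

/-- The number of a word. -/
def ix (L : List (List ℕ)) (v : List ℕ) (h : v ∈ L) : Fin (wmat L).length :=
  ⟨L.idxOf v, by rw [wmat_length]; exact List.idxOf_lt_length_iff.2 h⟩

theorem wd_ix {v : List ℕ} (h : v ∈ L) : wd L (ix L v h) = v := by
  unfold wd ix
  exact List.getElem_idxOf _

theorem wd_inj (hL : WTree L) {i j : Fin (wmat L).length} (h : wd L i = wd L j) : i = j := by
  have h2 := (List.Nodup.getElem_inj_iff hL.nodup).1 h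
  exact Fin.ext h2

theorem ix_wd (hL : WTree L) (i : Fin (wmat L).length) (h : wd L i ∈ L) : ix L (wd L i) h = i :=
  wd_inj hL (wd_ix h)

/-- The parent of a vertex. -/
def wpar (hL : WTree L) (i : Fin (wmat L).length) : Fin (wmat L).length :=
  ix L (wd L i).tail (hL.tail _ (wd_mem i))

theorem wd_wpar (hL : WTree L) (i : Fin (wmat L).length) : wd L (wpar hL i) = (wd L i).tail :=
  wd_ix _

theorem zero_lt (hL : WTree L) : 0 < (wmat L).length := by
  rw [wmat_length, List.length_pos_iff]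
  rintro rfl
  simpa using hL.head

theorem wd_zero (hL : WTree L) : wd L ⟨0, zero_lt hL⟩ = [] := by
  have h := hL.head
  cases L with
  | nil => simp at h
  | cons a l =>
    simp only [List.head?_cons, Option.some.injEq] at h
    exact h

theorem wrooted (hL : WTree L) : Rooted (graphOf (wmat L)) ⟨0, zero_lt hL⟩ (wpar hL)
    (fun i => (wd L i).length) := by
  have hs : ∀ v : Fin (wmat L).length, v ≠ ⟨0, zero_lt hL⟩ ↔ wd L v ≠ [] := by
    intro v
    rw [not_iff_not]
    constructor
    · rintro rfl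
      exact wd_zero hL
    · intro h
      exact wd_inj hL (h.trans (wd_zero hL).symm)
  refine ⟨?_, ?_, ?_, ?_⟩
  · rw [wd_zero hL]
    rfl
  · intro v hv
    exact wd_inj hL ((List.length_eq_zero_iff.1 hv).trans (wd_zero hL).symm)
  · intro v hv
    have h := (hs v).1 hv
    rw [wd_wpar]
    cases h2 : wd L v with
    | nil => exact absurd h2 h
    | cons a l => simp
  · intro u v
    have h1 : ∀ a b : Fin (wmat L).length, entry (wmat L) a b = true ↔
        (b ≠ ⟨0, zero_lt hL⟩ ∧ a = wpar hL b) := by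
      intro a b
      rw [entry_wmat, decide_eq_true_iff, hs b]
      refine and_congr_right fun _ => ?_
      constructor
      · intro h
        exact wd_inj hL (h.symm.trans (wd_wpar hL b).symm)
      · rintro rfl
        exact (wd_wpar hL b).symm
    change (u ≠ v ∧ (entry (wmat L) u v = true ∨ entry (wmat L) v u = true)) ↔ _
    rw [h1, h1]
    refine ⟨fun h => h.2, fun h => ⟨?_, h⟩⟩
    rintro rfl
    have h2 : u ≠ ⟨0, zero_lt hL⟩ ∧ u = wpar hL u := by tauto
    have h3 := (hs u).1 h2.1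
    have h4 := wd_wpar hL u
    rw [← h2.2] at h4
    cases h5 : wd L u with
    | nil => exact h3 h5
    | cons a l =>
      rw [h5] at h4
      have := congrArg List.length h4
      simp at this

theorem wtree_isTree (hL : WTree L) : IsTreeWith (wmat L) 0 :=
  ⟨(wrooted hL).isTree, zero_lt hL⟩

theorem wnormal_of (hL : WTree L) {B : Set (Fin (wmat L).length)}
    (hB : Normal ⟨0, zero_lt hL⟩ (wpar hL) (fun i => (wd L i).length) B) :
    WNormal L (wd L '' B) := by
  have hm : ∀ u (hu : u ∈ L), u ∈ wd L '' B ↔ ix L u hu ∈ B := by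
    intro u hu
    constructor
    · rintro ⟨i, hi, rfl⟩
      rwa [ix_wd hL]
    · intro h
      exact ⟨_, h, wd_ix hu⟩
  refine ⟨?_, ⟨_, hB.root, wd_zero hL⟩, ?_, ?_⟩
  · rintro _ ⟨i, _, rfl⟩
    exact wd_mem i
  · rintro _ ⟨i, hi, rfl⟩
    by_cases h : i = ⟨0, zero_lt hL⟩
    · subst h
      exact ⟨_, hi, by rw [wd_zero hL]; rfl⟩
    · exact ⟨_, hB.closed i hi h, wd_wpar hL i⟩
  · intro u hu v hv h1 h2 h3 h4 h5
    rw [hm u hu] at h1
    rw [hm v hv] at h2
    rw [hm _ (hL.tail u hu)] at h3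
    rw [hm _ (hL.tail v hv)] at h4
    have e : ∀ w (hw : w ∈ L), wpar hL (ix L w hw) = ix L w.tail (hL.tail w hw) := by
      intro w hw
      exact wd_inj hL (by rw [wd_wpar, wd_ix, wd_ix])
    have h := hB.cut _ _ h1 h2 (by rwa [e]) (by rwa [e]) (by
      simp only [wd_ix]; exact h5)
    have h6 := congrArg (wd L) h
    rwa [wd_ix, wd_ix] at h6

theorem normal_of (hL : WTree L) {B : Set (List ℕ)} (hB : WNormal L B) :
    Normal ⟨0, zero_lt hL⟩ (wpar hL) (fun i => (wd L i).length) (wd L ⁻¹' B) := by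
  refine ⟨?_, ?_, ?_⟩
  · change wd L _ ∈ B
    rw [wd_zero hL]
    exact hB.root
  · intro v hv _
    change wd L _ ∈ B
    rw [wd_wpar]
    exact hB.closed _ hv
  · intro u v h1 h2 h3 h4 h5
    refine wd_inj hL (hB.cut _ (wd_mem u) _ (wd_mem v) h1 h2 ?_ ?_ h5)
    · rw [← wd_wpar hL]; exact h3
    · rw [← wd_wpar hL]; exact h4

theorem ncard_image (hL : WTree L) (B : Set (Fin (wmat L).length)) :
    (wd L '' B).ncard = B.ncard :=
  Set.ncard_image_of_injective _ fun _ _ h => wd_inj hL h

theorem ncard_preimage (hL : WTree L) {B : Set (List ℕ)} (hB : ∀ v ∈ B, v ∈ L) :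
    (wd L ⁻¹' B).ncard = B.ncard := by
  rw [← ncard_image hL, Set.image_preimage_eq_of_subset]
  intro v hv
  exact ⟨ix L v (hB v hv), wd_ix _⟩

theorem normal_of_allBut (hL : WTree L) {k : ℕ} (h : SavingAllBut (wmat L, 0, k)) :
    ∃ B, WNormal L B ∧ B.ncard ≤ k := by
  obtain ⟨h0, σ, _, hk⟩ := h
  obtain ⟨B, hB, hsub⟩ := (wrooted hL).exists_normal σ
  refine ⟨_, wnormal_of hL hB, ?_⟩
  rw [ncard_image hL]
  exact (Set.ncard_le_ncard hsub (Set.toFinite _)).trans hk

theorem normal_of_maxProt (hL : WTree L) {k m K : ℕ} (hK : L.length ≤ K + k)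
    (h : MaxProtection (wmat L, 0, m, K)) : ∃ B, WNormal L B ∧ B.ncard ≤ k := by
  obtain ⟨h0, σ, _, _, hk⟩ := h
  obtain ⟨B, hB, hsub⟩ := (wrooted hL).exists_normal σ
  refine ⟨_, wnormal_of hL hB, ?_⟩
  rw [ncard_image hL]
  refine (Set.ncard_le_ncard hsub (Set.toFinite _)).trans ?_
  have h1 := Set.ncard_add_ncard_compl (Burned (graphOf (wmat L)) ⟨0, h0⟩ σ)
  rw [← saved_eq, Nat.card_eq_fintype_card, Fintype.card_fin] at h1
  have h2 := wmat_length L
  have h3 : K ≤ (Saved (graphOf (wmat L)) ⟨0, h0⟩ σ).ncard := hk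
  change (Burned (graphOf (wmat L)) ⟨0, h0⟩ σ).ncard ≤ k
  omega

theorem allBut_of_normal (hL : WTree L) {k : ℕ} {B : Set (List ℕ)} (hB : WNormal L B)
    (hk : B.ncard ≤ k) : SavingAllBut (wmat L, 0, k) := by
  obtain ⟨σ, h1, h2, _, _⟩ := (wrooted hL).exists_strategy (normal_of hL hB)
  refine ⟨zero_lt hL, σ, h1, ?_⟩
  change (Burned (graphOf (wmat L)) ⟨0, zero_lt hL⟩ σ).ncard ≤ k
  rw [h2, ncard_preimage hL hB.sub]
  exact hk

theorem maxProt_of_normal (hL : WTree L) {k m K : ℕ} {B : Set (List ℕ)} (hB : WNormal L B)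
    (hk : B.ncard ≤ k) (hm : ∀ v ∈ L, v.tail ∈ B → v ∉ B → v.length ≤ m)
    (hK : K + k ≤ L.length) : MaxProtection (wmat L, 0, m, K) := by
  obtain ⟨σ, h1, h2, h3, h4⟩ := (wrooted hL).exists_strategy (normal_of hL hB)
  refine ⟨zero_lt hL, σ, h1, ?_, ?_⟩
  · change (Protected σ).ncard ≤ m
    have h5 : Set.InjOn (fun v : Fin (wmat L).length => (wd L v).length - 1) (Protected σ) := by
      rintro u ⟨t, ht⟩ v ⟨t', ht'⟩ h
      have hu := (h4 t u ht).2.2
      have hv := (h4 t' v ht').2.2
      simp only at h hu hv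
      have e : t = t' := by omega
      subst e
      rw [ht] at ht'
      exact Option.some.inj ht'
    have h6 : (fun v : Fin (wmat L).length => (wd L v).length - 1) '' (Protected σ) ⊆
        Set.Iio m := by
      rintro _ ⟨u, ⟨t, ht⟩, rfl⟩
      have hu := h4 t u ht
      have h7 := hm (wd L u) (wd_mem u) (by
        have := hu.2.1
        change wd L _ ∈ B at this
        rwa [wd_wpar] at this) hu.1
      have h8 := hu.2.2
      simp only [Set.mem_Iio]
      omega
    rw [← Set.InjOn.ncard_image h5]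
    refine (Set.ncard_le_ncard h6 (Set.finite_Iio m)).trans ?_
    rw [← Nat.card_coe_set_eq]
    simp
  · change K ≤ (Saved (graphOf (wmat L)) ⟨0, zero_lt hL⟩ σ).ncard
    have h5 := Set.ncard_add_ncard_compl (wd L ⁻¹' B)
    rw [ncard_preimage hL hB.sub, Nat.card_eq_fintype_card, Fintype.card_fin] at h5
    have h6 := wmat_length L
    rw [h3]
    omega

end Pool.Agent.H683.FF
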